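import Pool.Agent.QA.Defs

/-!
Project QA (MP_a55b9e_co), row QA-17: balls in the cube.
-/

set_option autoImplicit false

open Finset

namespace Pool.Agent.QA

/-- the sum of `a ^ (number of nonzero coordinates)` over the cube -/
theorem ball_sum_pow (m : ℕ) (a : ℝ) :
    ∑ z : Fin m → ZMod 2, a ^ hammingNorm z = (1 + a) ^ m := by
  have h1 : ∀ z : Fin m → ZMod 2, a ^ hammingNorm z = ∏ i, if z i ≠ 0 then a else 1 := by
    intro z
    rw [Finset.prod_ite, Finset.prod_const, Finset.prod_const_one, mul_one]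
    rfl
  simp only [h1]
  rw [← Fintype.prod_sum (fun (_ : Fin m) (x : ZMod 2) => if x ≠ 0 then a else (1 : ℝ))]
  have h2 : ∑ x : ZMod 2, (if x ≠ 0 then a else (1 : ℝ)) = 1 + a := by
    have : (Finset.univ : Finset (ZMod 2)) = {0, 1} := by decide
    rw [this, Finset.sum_pair (by decide)]
    simp
  rw [h2, Finset.prod_const, Finset.card_univ, Fintype.card_fin]

theorem ball_le_pow (m k : ℕ) : (ball m k : ℝ) ≤ (4 / 3 : ℝ) ^ m * 3 ^ k := by
  have h1 : (ball m k : ℝ) * (1 / 3 : ℝ) ^ k ≤ (1 + 1 / 3 : ℝ) ^ m := by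
    rw [← ball_sum_pow m (1 / 3 : ℝ)]
    calc (ball m k : ℝ) * (1 / 3 : ℝ) ^ k
        = ∑ z ∈ univ.filter (fun z : Fin m → ZMod 2 => hammingNorm z ≤ k), (1 / 3 : ℝ) ^ k := by
          rw [Finset.sum_const, nsmul_eq_mul]
          rfl
      _ ≤ ∑ z ∈ univ.filter (fun z : Fin m → ZMod 2 => hammingNorm z ≤ k),
          (1 / 3 : ℝ) ^ hammingNorm z := by
          refine Finset.sum_le_sum fun z hz => ?_
          exact pow_le_pow_of_le_one (by norm_num) (by norm_num) (Finset.mem_filter.1 hz).2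
      _ ≤ ∑ z : Fin m → ZMod 2, (1 / 3 : ℝ) ^ hammingNorm z :=
          Finset.sum_le_univ_sum_of_nonneg fun z => by positivity
  have h2 : (1 + 1 / 3 : ℝ) = 4 / 3 := by norm_num
  rw [h2] at h1
  calc (ball m k : ℝ) = (ball m k : ℝ) * (1 / 3 : ℝ) ^ k * 3 ^ k := by
        rw [mul_assoc, ← mul_pow]
        norm_num
    _ ≤ _ := mul_le_mul_of_nonneg_right h1 (by positivity)

theorem ball_volume : ∃ m₀ : ℕ, ∀ m, m₀ ≤ m →
    (ball m (m / 4 + 3) : ℝ) ≤ 2 ^ m * Real.exp (-(m / 10 : ℝ)) := by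
  have hρ : 1 < (27 / 16 : ℝ) * Real.exp (-(2 / 5)) := by
    have he : Real.exp (2 / 5) < 27 / 16 := by
      have h1 : Real.exp (2 / 5) ^ 5 < (27 / 16 : ℝ) ^ 5 := by
        rw [← Real.exp_nat_mul]
        have h2 : ((5 : ℕ) : ℝ) * (2 / 5) = 1 + 1 := by norm_num
        rw [h2, Real.exp_add]
        have h3 := Real.exp_one_lt_d9
        have h4 := Real.exp_pos 1
        nlinarith
      exact lt_of_pow_lt_pow_left₀ 5 (by norm_num) h1
    rw [Real.exp_neg, ← div_eq_mul_inv, lt_div_iff₀ (Real.exp_pos _), one_mul]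
    exact he
  obtain ⟨q₀, hq₀⟩ := ((tendsto_pow_atTop_atTop_of_one_lt hρ).eventually_ge_atTop
    27).exists_forall_of_atTop
  refine ⟨4 * q₀, fun m hm => (ball_le_pow m _).trans ?_⟩
  set q := m / 4 with hq
  set r := m % 4 with hr
  have hmq : m = 4 * q + r := by omega
  have hqq : q₀ ≤ q := by omega
  have h27 := hq₀ q hqq
  have h1 : (2 / 3 : ℝ) * Real.exp (1 / 10) ≤ 1 := by
    have h2 : Real.exp (1 / 10) ≤ 3 / 2 := by
      have h3 : Real.exp (1 / 10) ^ 10 ≤ (3 / 2 : ℝ) ^ 10 := by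
        rw [← Real.exp_nat_mul]
        have h2 : ((10 : ℕ) : ℝ) * (1 / 10) = 1 := by norm_num
        rw [h2]
        have h3 := Real.exp_one_lt_d9
        norm_num
        linarith
      exact le_of_pow_le_pow_left₀ (by norm_num) (by norm_num) h3
    linarith
  have h2 : ((2 / 3 : ℝ) * Real.exp (1 / 10)) ^ r ≤ 1 := pow_le_one₀ (by positivity) h1
  have h3 : (4 / 3 : ℝ) ^ m * 3 ^ (q + 3) =
      27 * ((2 / 3 : ℝ) * Real.exp (1 / 10)) ^ r *
        (2 ^ m * Real.exp (-(m / 10 : ℝ))) * (((27 / 16 : ℝ) * Real.exp (-(2 / 5))) ^ q)⁻¹ := by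
    have e1 : Real.exp (-(m / 10 : ℝ)) = Real.exp (-(2 / 5)) ^ q * (Real.exp (1 / 10) ^ r)⁻¹ := by
      rw [← Real.exp_nat_mul, ← Real.exp_nat_mul, ← Real.exp_neg, ← Real.exp_add]
      congr 1
      have : (m : ℝ) = 4 * q + r := by exact_mod_cast hmq
      rw [this]
      ring
    rw [e1, mul_pow, mul_pow]
    have e2 : (4 / 3 : ℝ) ^ m = (256 / 81 : ℝ) ^ q * (4 / 3) ^ r := by
      rw [hmq, pow_add, pow_mul]
      norm_num
    have e3 : (2 : ℝ) ^ m = 16 ^ q * 2 ^ r := by
      rw [hmq, pow_add, pow_mul]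
      norm_num
    rw [e2, e3, pow_add]
    have p1 := Real.exp_pos (1 / 10)
    have p2 := Real.exp_pos (-(2 / 5))
    have e4 : (256 / 81 : ℝ) ^ q = 16 ^ q * (((27 / 16 : ℝ)) ^ q)⁻¹ * (3 ^ q)⁻¹ := by
      rw [← inv_pow, ← inv_pow, ← mul_pow, ← mul_pow]
      norm_num
    have e5 : (4 / 3 : ℝ) ^ r = (2 / 3) ^ r * 2 ^ r := by
      rw [← mul_pow]
      norm_num
    rw [e4, e5]
    field_simp
    norm_num
  rw [h3]
  have h4 : (((27 / 16 : ℝ) * Real.exp (-(2 / 5))) ^ q)⁻¹ ≤ 1 / 27 := by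
    rw [inv_eq_one_div]
    exact one_div_le_one_div_of_le (by norm_num) h27
  have h5 : (0 : ℝ) ≤ 2 ^ m * Real.exp (-(m / 10 : ℝ)) := by positivity
  calc 27 * ((2 / 3 : ℝ) * Real.exp (1 / 10)) ^ r *
        (2 ^ m * Real.exp (-(m / 10 : ℝ))) * (((27 / 16 : ℝ) * Real.exp (-(2 / 5))) ^ q)⁻¹
      ≤ 27 * 1 * (2 ^ m * Real.exp (-(m / 10 : ℝ))) * (1 / 27) := by
        gcongr
    _ = 2 ^ m * Real.exp (-(m / 10 : ℝ)) := by ring

/-- the spheres of the cube -/
theorem card_sphere (m k : ℕ) :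
    (univ.filter fun z : Fin m → ZMod 2 => hammingNorm z = k).card = m.choose k := by
  have hc : m.choose k = (Finset.powersetCard k (univ : Finset (Fin m))).card := by
    rw [Finset.card_powersetCard, Finset.card_univ, Fintype.card_fin]
  rw [hc]
  refine Finset.card_bij (fun z _ => univ.filter fun i => z i ≠ 0) ?_ ?_ ?_
  · intro z hz
    rw [Finset.mem_powersetCard]
    exact ⟨Finset.subset_univ _, (Finset.mem_filter.1 hz).2⟩
  · intro z _ w _ h
    funext i
    have h1 : i ∈ univ.filter (fun i => z i ≠ 0) ↔ i ∈ univ.filter (fun i => w i ≠ 0) := by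
      rw [h]
    simp only [Finset.mem_filter, Finset.mem_univ, true_and] at h1
    generalize z i = a at h1 ⊢
    generalize w i = b at h1 ⊢
    revert a b
    decide
  · intro s hs
    rw [Finset.mem_powersetCard] at hs
    refine ⟨fun i => if i ∈ s then 1 else 0, ?_, ?_⟩
    · rw [Finset.mem_filter]
      refine ⟨Finset.mem_univ _, ?_⟩
      rw [← hs.2]
      unfold hammingNorm
      congr 1
      ext i
      by_cases hi : i ∈ s <;> simp [hi]
    · ext i
      by_cases hi : i ∈ s <;> simp [hi]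

theorem ball_succ (m k : ℕ) : ball m (k + 1) = ball m k + m.choose (k + 1) := by
  unfold ball
  rw [← card_sphere, ← Finset.card_union_of_disjoint]
  · congr 1
    ext z
    simp only [Finset.mem_filter, Finset.mem_univ, true_and, Finset.mem_union]
    omega
  · rw [Finset.disjoint_filter]
    intro z _ h1 h2
    omega

theorem choose_le_ball (m k : ℕ) : m.choose k ≤ ball m k := by
  unfold ball
  rw [← card_sphere]
  refine Finset.card_le_card fun z hz => ?_
  rw [Finset.mem_filter] at hz ⊢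
  exact ⟨hz.1, hz.2.le⟩

theorem ball_step (m k : ℕ) (hk : k + 1 ≤ m) (h5 : m + 1 ≤ 5 * (k + 1)) :
    ball m (k + 1) ≤ 5 * ball m k := by
  have h1 : m.choose (k + 1) * (k + 1) = m.choose k * (m - k) := Nat.choose_succ_right_eq m k
  have h2 := choose_le_ball m k
  rw [ball_succ]
  have h3 : (k + 1) * (ball m k + m.choose (k + 1)) ≤ (k + 1) * (5 * ball m k) := by
    have h4 : m.choose k * (m - k) ≤ ball m k * (m - k) := Nat.mul_le_mul_right _ h2
    calc (k + 1) * (ball m k + m.choose (k + 1))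
        = (k + 1) * ball m k + m.choose (k + 1) * (k + 1) := by ring
      _ ≤ (k + 1) * ball m k + ball m k * (m - k) := by rw [h1]; omega
      _ = (m + 1) * ball m k := by
          have : m + 1 = (k + 1) + (m - k) := by omega
          rw [this]
          ring
      _ ≤ (5 * (k + 1)) * ball m k := Nat.mul_le_mul_right _ h5
      _ = (k + 1) * (5 * ball m k) := by ring
  exact Nat.le_of_mul_le_mul_left h3 (Nat.succ_pos k)

theorem ball_ratio : ∃ m₀ : ℕ, ∀ m, m₀ ≤ m → ball m (m / 4 + 3) ≤ 5 ^ 6 * ball m (m / 4 - 3) := by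
  refine ⟨64, fun m hm => ?_⟩
  obtain ⟨k, hk⟩ : ∃ k, m / 4 = k + 3 := ⟨m / 4 - 3, by omega⟩
  rw [hk, show k + 3 - 3 = k by omega]
  have s1 := ball_step m k (by omega) (by omega)
  have s2 := ball_step m (k + 1) (by omega) (by omega)
  have s3 := ball_step m (k + 1 + 1) (by omega) (by omega)
  have s4 := ball_step m (k + 1 + 1 + 1) (by omega) (by omega)
  have s5 := ball_step m (k + 1 + 1 + 1 + 1) (by omega) (by omega)
  have s6 := ball_step m (k + 1 + 1 + 1 + 1 + 1) (by omega) (by omega)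
  rw [show k + 3 + 3 = k + 1 + 1 + 1 + 1 + 1 + 1 by omega]
  norm_num
  omega

theorem ball_center (m k : ℕ) (c : Fin m → ZMod 2) :
    (univ.filter fun z : Fin m → ZMod 2 => hammingDist z c ≤ k).card = ball m k := by
  unfold ball
  refine Finset.card_bij (fun z _ => -z + c) ?_ ?_ ?_
  · intro z hz
    rw [Finset.mem_filter] at hz ⊢
    refine ⟨Finset.mem_univ _, ?_⟩
    rw [← hammingDist_eq_hammingNorm]
    exact hz.2
  · intro z _ w _ h
    exact neg_injective (add_left_injective c h)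
  · intro w hw
    refine ⟨c - w, ?_, by abel⟩
    rw [Finset.mem_filter] at hw ⊢
    refine ⟨Finset.mem_univ _, ?_⟩
    rw [hammingDist_eq_hammingNorm]
    have h1 : -(c - w) + c = w := by abel
    rw [h1]
    exact hw.2

end Pool.Agent.QA
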