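import Pool.Agent.QA.Defs

/-!
Project QA (MP_a55b9e_co), row QA-19: every atom of the binomial law is small.
-/

set_option autoImplicit false

open Finset

namespace Pool.Agent.QA

/-- `(2n+1) * C(2n,n)^2 ≤ 16^n` -/
theorem atom_central (n : ℕ) : (2 * n + 1) * (Nat.centralBinom n) ^ 2 ≤ 16 ^ n := by
  induction n with
  | zero => simp
  | succ n ih =>
    have h := Nat.succ_mul_centralBinom_succ n
    have h2 : (n + 1) ^ 2 * ((2 * (n + 1) + 1) * (Nat.centralBinom (n + 1)) ^ 2) ≤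
        (n + 1) ^ 2 * 16 ^ (n + 1) := by
      calc (n + 1) ^ 2 * ((2 * (n + 1) + 1) * (Nat.centralBinom (n + 1)) ^ 2)
          = (2 * (n + 1) + 1) * ((n + 1) * Nat.centralBinom (n + 1)) ^ 2 := by ring
        _ = (2 * n + 3) * (2 * (2 * n + 1) * Nat.centralBinom n) ^ 2 := by rw [h]; ring
        _ = (4 * ((2 * n + 3) * (2 * n + 1))) * ((2 * n + 1) * (Nat.centralBinom n) ^ 2) := by ring
        _ ≤ (4 * ((2 * n + 2) ^ 2)) * 16 ^ n := by
            apply Nat.mul_le_mul _ ih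
            nlinarith
        _ = (n + 1) ^ 2 * 16 ^ (n + 1) := by ring
    exact Nat.le_of_mul_le_mul_left h2 (by positivity)

theorem atom_even (n k : ℕ) : (2 * n).choose k ≤ Nat.centralBinom n := by
  have h := Nat.choose_le_middle k (2 * n)
  have e : 2 * n / 2 = n := by omega
  rw [e] at h
  exact h

theorem atom_odd (n k : ℕ) : (2 * n + 1).choose k ≤ 2 * Nat.centralBinom n := by
  cases k with
  | zero =>
    have := Nat.centralBinom_pos n
    simp only [Nat.choose_zero_right]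
    omega
  | succ k =>
    rw [Nat.choose_succ_succ]
    have h1 := atom_even n k
    have h2 := atom_even n (k + 1)
    have h3 : (2 * n).choose k.succ ≤ Nat.centralBinom n := h2
    omega

theorem atom_small (ε : ℝ) (hε : 0 < ε) : ∃ m₀ : ℕ, ∀ m, m₀ ≤ m → ∀ k,
    (m.choose k : ℝ) ≤ ε * 2 ^ m := by
  obtain ⟨N, hN⟩ := exists_nat_ge (1 / ε ^ 2)
  -- the central coefficient
  have key : ∀ n : ℕ, N ≤ n → (Nat.centralBinom n : ℝ) ≤ ε * 4 ^ n := by
    intro n hn
    have h1 : ((2 * n + 1 : ℕ) : ℝ) * (Nat.centralBinom n : ℝ) ^ 2 ≤ (16 : ℝ) ^ n := by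
      exact_mod_cast atom_central n
    have h2 : 1 / ε ^ 2 ≤ ((2 * n + 1 : ℕ) : ℝ) := by
      have h3 : (N : ℝ) ≤ n := by exact_mod_cast hn
      push_cast
      have h4 : (0 : ℝ) ≤ n := Nat.cast_nonneg n
      linarith
    have h3 : (1 / ε ^ 2) * (Nat.centralBinom n : ℝ) ^ 2 ≤ (16 : ℝ) ^ n :=
      le_trans (mul_le_mul_of_nonneg_right h2 (by positivity)) h1
    have h4 : (Nat.centralBinom n : ℝ) ^ 2 ≤ ε ^ 2 * 16 ^ n := by
      have h5 : (Nat.centralBinom n : ℝ) ^ 2 = ε ^ 2 * ((1 / ε ^ 2) * (Nat.centralBinom n : ℝ) ^ 2) := by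
        field_simp
      rw [h5]
      exact mul_le_mul_of_nonneg_left h3 (by positivity)
    have h5 : (Nat.centralBinom n : ℝ) ^ 2 ≤ (ε * 4 ^ n) ^ 2 := by
      calc (Nat.centralBinom n : ℝ) ^ 2 ≤ ε ^ 2 * 16 ^ n := h4
        _ = (ε * 4 ^ n) ^ 2 := by
            rw [mul_pow, ← pow_mul, mul_comm n 2, pow_mul]; norm_num
    exact le_of_sq_le_sq h5 (by positivity)
  refine ⟨2 * N + 1, fun m hm k => ?_⟩
  obtain ⟨n, hn | hn⟩ := Nat.even_or_odd' m
  · subst hn
    have h1 : ((2 * n).choose k : ℝ) ≤ (Nat.centralBinom n : ℝ) := by exact_mod_cast atom_even n k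
    have h2 := key n (by omega)
    calc ((2 * n).choose k : ℝ) ≤ _ := h1
      _ ≤ ε * 4 ^ n := h2
      _ = ε * 2 ^ (2 * n) := by rw [pow_mul]; norm_num
  · subst hn
    have h1 : ((2 * n + 1).choose k : ℝ) ≤ 2 * (Nat.centralBinom n : ℝ) := by
      exact_mod_cast atom_odd n k
    have h2 := key n (by omega)
    calc ((2 * n + 1).choose k : ℝ) ≤ _ := h1
      _ ≤ 2 * (ε * 4 ^ n) := by linarith
      _ = ε * 2 ^ (2 * n + 1) := by rw [pow_succ, pow_mul]; norm_num; ring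

end Pool.Agent.QA
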