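import Pool.Agent.QA.Defs

/-!
Project QA, row QA-6: pointwise facts about the law `q`.
-/

set_option autoImplicit false

open Finset

namespace Pool.Agent.QA

section qa6aux

variable {X Y ι : Type}

theorem qa6_mn_nonneg (a : X → Y → ℝ) (ha : ∀ x y, a x y = 0 ∨ a x y = 1) (C : Finset Y)
    (x : X) : 0 ≤ mn a C x := by
  unfold mn
  refine div_nonneg (Finset.sum_nonneg fun y _ => ?_) (Nat.cast_nonneg _)
  rcases ha x y with h | h <;> rw [h] <;> norm_num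

theorem qa6_mn_le_one (a : X → Y → ℝ) (ha : ∀ x y, a x y = 0 ∨ a x y = 1) (C : Finset Y)
    (x : X) : mn a C x ≤ 1 := by
  unfold mn
  refine div_le_one_of_le₀ ?_ (Nat.cast_nonneg _)
  calc ∑ y ∈ C, a x y ≤ ∑ _y ∈ C, (1 : ℝ) := by
        refine Finset.sum_le_sum fun y _ => ?_
        rcases ha x y with h | h <;> rw [h] <;> norm_num
    _ = C.card := by simp

theorem qa6_gw_nonneg (a : X → Y → ℝ) (ha : ∀ x y, a x y = 0 ∨ a x y = 1) (C : Finset Y)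
    (τ : ℝ) (k : ℕ) (x : X) : 0 ≤ gw a C τ k x := by
  unfold gw
  split_ifs
  · have h := qa6_mn_nonneg a ha C x
    positivity
  · exact le_refl _

theorem qa6_gw_le (a : X → Y → ℝ) (ha : ∀ x y, a x y = 0 ∨ a x y = 1) (C : Finset Y)
    (τ : ℝ) (hτ : 0 < τ) (hτ1 : τ ≤ 1) (k K : ℕ) (hk : k ≤ K) (x : X) :
    gw a C τ k x ≤ (τ ^ K)⁻¹ := by
  unfold gw
  split_ifs with h
  · have h1 := qa6_mn_le_one a ha C x
    have h0 : 0 < mn a C x := lt_of_lt_of_le hτ h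
    have h2 : τ ^ K ≤ mn a C x ^ k :=
      le_trans (pow_le_pow_of_le_one hτ.le hτ1 hk) (pow_le_pow_left₀ hτ.le h k)
    have h3 : (mn a C x ^ k)⁻¹ ≤ (τ ^ K)⁻¹ := by
      exact inv_anti₀ (pow_pos hτ K) h2
    calc mn a C x * (mn a C x ^ k)⁻¹ ≤ 1 * (mn a C x ^ k)⁻¹ := by
          exact mul_le_mul_of_nonneg_right h1 (by positivity)
      _ ≤ (τ ^ K)⁻¹ := by rw [one_mul]; exact h3
  · positivity

theorem qa6_prod_nonneg (a : X → Y → ℝ) (ha : ∀ x y, a x y = 0 ∨ a x y = 1) (I : Finset ι)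
    (ω : ι → Y) (x : X) : 0 ≤ ∏ i ∈ I, a x (ω i) := by
  refine Finset.prod_nonneg fun i _ => ?_
  rcases ha x (ω i) with h | h <;> rw [h] <;> norm_num

theorem qa6_prod_le_one (a : X → Y → ℝ) (ha : ∀ x y, a x y = 0 ∨ a x y = 1) (I : Finset ι)
    (ω : ι → Y) (x : X) : ∏ i ∈ I, a x (ω i) ≤ 1 := by
  refine Finset.prod_le_one (fun i _ => ?_) fun i _ => ?_
  · rcases ha x (ω i) with h | h <;> rw [h] <;> norm_num
  · rcases ha x (ω i) with h | h <;> rw [h] <;> norm_num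

theorem qa6_wx_nonneg (a : X → Y → ℝ) (ha : ∀ x y, a x y = 0 ∨ a x y = 1) (C : Finset Y)
    (τ : ℝ) (k : ℕ) (I : Finset ι) (ω : ι → Y) (x : X) : 0 ≤ wx a C τ k I ω x := by
  unfold wx
  exact mul_nonneg (qa6_gw_nonneg a ha C τ k x) (qa6_prod_nonneg a ha I ω x)

theorem qa6_wx_le (a : X → Y → ℝ) (ha : ∀ x y, a x y = 0 ∨ a x y = 1) (C : Finset Y)
    (τ : ℝ) (hτ : 0 < τ) (hτ1 : τ ≤ 1) (k K : ℕ) (hk : k ≤ K) (I : Finset ι) (ω : ι → Y)
    (x : X) : wx a C τ k I ω x ≤ (τ ^ K)⁻¹ := by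
  unfold wx
  calc gw a C τ k x * ∏ i ∈ I, a x (ω i) ≤ gw a C τ k x * 1 :=
        mul_le_mul_of_nonneg_left (qa6_prod_le_one a ha I ω x) (qa6_gw_nonneg a ha C τ k x)
    _ ≤ (τ ^ K)⁻¹ := by rw [mul_one]; exact qa6_gw_le a ha C τ hτ hτ1 k K hk x

theorem qa6_wx_congr (a : X → Y → ℝ) (C : Finset Y) (τ : ℝ) (k : ℕ) (I : Finset ι)
    (ω ω' : ι → Y) (h : ∀ i ∈ I, ω i = ω' i) (x : X) :
    wx a C τ k I ω x = wx a C τ k I ω' x := by
  unfold wx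
  rw [Finset.prod_congr rfl fun i hi => by rw [h i hi]]

theorem qa6_typ_congr [Fintype X] [DecidableEq ι] (a : X → Y → ℝ) (C : Finset Y) (τ ε : ℝ)
    (I : Finset ι) (ω ω' : ι → Y) (h : ∀ i ∈ I, ω i = ω' i) :
    Typ a C τ ε I ω ↔ Typ a C τ ε I ω' := by
  unfold Typ
  have h1 : ∑ x, wx a C τ I.card I ω x = ∑ x, wx a C τ I.card I ω' x :=
    Finset.sum_congr rfl fun x _ => qa6_wx_congr a C τ _ I ω ω' h x
  have h2 : ∀ i, ∑ x, wx a C τ I.card (I.erase i) ω x =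
      ∑ x, wx a C τ I.card (I.erase i) ω' x := fun i =>
    Finset.sum_congr rfl fun x _ =>
      qa6_wx_congr a C τ _ (I.erase i) ω ω' (fun j hj => h j (Finset.mem_of_mem_erase hj)) x
  rw [h1]
  simp only [h2]

end qa6aux

section basic

variable {X Y T ι Z : Type} {n : ℕ} [Fintype X] [DecidableEq Y] [DecidableEq ι]
  (S : SD X Y T ι Z n) {K Vb : ℕ} {D0 ξ : ℝ}

theorem qa6_den (hS : S.Ok K Vb D0 ξ) (ω : ι → Y) (z : Z)
    (h : Typ S.a (S.C (S.jj z)) S.τ S.ε (S.I z) ω) :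
    D0 ≤ ∑ x, wx S.a (S.C (S.jj z)) S.τ (S.I z).card (S.I z) ω x :=
  le_trans (hS.hD (S.jj z)) h.1

theorem q_nonneg (hS : S.Ok K Vb D0 ξ) (ω : ι → Y) (z : Z) (x : X) : 0 ≤ S.q ω z x := by
  unfold SD.q qd
  refine mul_nonneg (ind_nonneg _) (div_nonneg (qa6_wx_nonneg _ hS.a01 _ _ _ _ _ _) ?_)
  exact Finset.sum_nonneg fun x' _ => qa6_wx_nonneg _ hS.a01 _ _ _ _ _ _

theorem q_sum_typ (hS : S.Ok K Vb D0 ξ) (ω : ι → Y) (z : Z)
    (h : Typ S.a (S.C (S.jj z)) S.τ S.ε (S.I z) ω) : ∑ x, S.q ω z x = 1 := by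
  unfold SD.q qd
  have hpos : 0 < ∑ x, wx S.a (S.C (S.jj z)) S.τ (S.I z).card (S.I z) ω x :=
    lt_of_lt_of_le hS.D00 (qa6_den S hS ω z h)
  rw [ind_true h]
  simp only [one_mul]
  rw [← Finset.sum_div, div_self hpos.ne']

theorem q_sum_le (hS : S.Ok K Vb D0 ξ) (ω : ι → Y) (z : Z) : ∑ x, S.q ω z x ≤ 1 := by
  by_cases h : Typ S.a (S.C (S.jj z)) S.τ S.ε (S.I z) ω
  · exact (q_sum_typ S hS ω z h).le
  · have h0 : ∑ x, S.q ω z x = 0 := by
      refine Finset.sum_eq_zero fun x _ => ?_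
      unfold SD.q qd
      rw [ind_false h, zero_mul]
    rw [h0]
    norm_num

/-- `q` is at most the weight over `D0` -/
theorem q_le_wx (hS : S.Ok K Vb D0 ξ) (ω : ι → Y) (z : Z) (x : X) :
    S.q ω z x ≤ wx S.a (S.C (S.jj z)) S.τ (S.I z).card (S.I z) ω x / D0 := by
  have hw := qa6_wx_nonneg S.a hS.a01 (S.C (S.jj z)) S.τ (S.I z).card (S.I z) ω x
  by_cases h : Typ S.a (S.C (S.jj z)) S.τ S.ε (S.I z) ω
  · unfold SD.q qd
    rw [ind_true h, one_mul]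
    exact div_le_div_of_nonneg_left hw hS.D00 (qa6_den S hS ω z h)
  · unfold SD.q qd
    rw [ind_false h, zero_mul]
    exact div_nonneg hw hS.D00.le

theorem q_le (hS : S.Ok K Vb D0 ξ) (ω : ι → Y) (z : Z) (hz : z ∈ S.act) (x : X) :
    S.q ω z x ≤ (S.τ ^ K)⁻¹ / D0 := by
  refine le_trans (q_le_wx S hS ω z x) ?_
  exact div_le_div_of_nonneg_right
    (qa6_wx_le S.a hS.a01 _ S.τ hS.τ0 hS.τ1 _ K (hS.hK z hz) _ _ _) hS.D00.le

/-- the bound which does not depend on the own seed -/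
theorem q_le_rho (hS : S.Ok K Vb D0 ξ) (ω : ι → Y) (z : Z) (i : ι) (hi : i ∈ S.I z) (x : X) :
    S.q ω z x ≤ ind (∑ x', wx S.a (S.C (S.jj z)) S.τ (S.I z).card ((S.I z).erase i) ω x' ≤
      (1 + S.ε) * Fintype.card X) *
      (wx S.a (S.C (S.jj z)) S.τ (S.I z).card ((S.I z).erase i) ω x / D0) := by
  have hw' := qa6_wx_nonneg S.a hS.a01 (S.C (S.jj z)) S.τ (S.I z).card ((S.I z).erase i) ω x
  by_cases h : Typ S.a (S.C (S.jj z)) S.τ S.ε (S.I z) ω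
  · rw [ind_true (h.2 i hi), one_mul]
    refine le_trans (q_le_wx S hS ω z x) ?_
    refine div_le_div_of_nonneg_right ?_ hS.D00.le
    unfold wx
    refine mul_le_mul_of_nonneg_left ?_ (qa6_gw_nonneg _ hS.a01 _ _ _ _)
    rw [← Finset.mul_prod_erase _ _ hi]
    have h0 := qa6_prod_nonneg S.a hS.a01 ((S.I z).erase i) ω x
    have h1 : S.a x (ω i) ≤ 1 := by
      rcases hS.a01 x (ω i) with h | h <;> rw [h] <;> norm_num
    calc S.a x (ω i) * ∏ j ∈ (S.I z).erase i, S.a x (ω j)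
        ≤ 1 * ∏ j ∈ (S.I z).erase i, S.a x (ω j) := mul_le_mul_of_nonneg_right h1 h0
      _ = ∏ j ∈ (S.I z).erase i, S.a x (ω j) := one_mul _
  · have h0 : S.q ω z x = 0 := by
      unfold SD.q qd
      rw [ind_false h, zero_mul]
    rw [h0]
    exact mul_nonneg (ind_nonneg _) (div_nonneg hw' hS.D00.le)

/-- a vertex of positive probability is adjacent to all seeds -/
theorem q_pos_adj (hS : S.Ok K Vb D0 ξ) (ω : ι → Y) (z : Z) (i : ι) (hi : i ∈ S.I z) (x : X)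
    (h : S.q ω z x ≠ 0) : S.a x (ω i) = 1 := by
  rcases hS.a01 x (ω i) with h0 | h1
  · exfalso
    apply h
    unfold SD.q qd wx
    rw [Finset.prod_eq_zero hi h0]
    simp
  · exact h1

theorem q_congr (ω ω' : ι → Y) (z : Z) (h : ∀ i ∈ S.I z, ω i = ω' i) (x : X) :
    S.q ω z x = S.q ω' z x := by
  unfold SD.q qd
  have h1 : Typ S.a (S.C (S.jj z)) S.τ S.ε (S.I z) ω =
      Typ S.a (S.C (S.jj z)) S.τ S.ε (S.I z) ω' :=
    propext (qa6_typ_congr S.a _ _ _ _ ω ω' h)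
  have h2 : ∀ x, wx S.a (S.C (S.jj z)) S.τ (S.I z).card (S.I z) ω x =
      wx S.a (S.C (S.jj z)) S.τ (S.I z).card (S.I z) ω' x := fun x =>
    qa6_wx_congr S.a _ _ _ _ ω ω' h x
  rw [h1]
  simp only [h2]

end basic

end Pool.Agent.QA
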