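import Pool.Agent.QA.Defs

/-!
Project QA, row 13: lower tail for the number of coordinates with a given value.
-/

set_option autoImplicit false

open Finset

namespace Pool.Agent.QA

open Pool.Agent.H73.Cube (EE)

theorem chernoff_exp {t : ℝ} (ht : 0 ≤ t) : Real.exp (-t) ≤ 1 - t + t ^ 2 / 2 := by
  have h1 := Real.quadratic_le_exp_of_nonneg ht
  have h2 : Real.exp (-t) * Real.exp t = 1 := by rw [← Real.exp_add, neg_add_cancel, Real.exp_zero]
  have h3 := Real.exp_pos (-t)
  have h4 : 0 ≤ 1 - t + t ^ 2 / 2 := by nlinarith [sq_nonneg (t - 1)]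
  have h5 : 0 < Real.exp t := Real.exp_pos t
  refine le_of_mul_le_mul_right ?_ h5
  rw [h2]
  have h6 := mul_le_mul_of_nonneg_left h1 h4
  nlinarith [sq_nonneg (t ^ 2)]

theorem chernoff_prod {X A : Type} [Fintype X] [DecidableEq X] [Fintype A] (P f : X → A → ℝ) :
    EE P (fun ω => ∏ x, f x (ω x)) = ∏ x, ∑ o, P x o * f x o := by
  unfold EE
  rw [Fintype.prod_sum]
  exact sum_congr rfl fun ω _ => prod_mul_distrib.symm

/-- lower tail of the number of coordinates which take the value `some D` -/
theorem chernoff {X B : Type} [Fintype X] [DecidableEq X] [Fintype B] [DecidableEq B]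
    (P : X → Option B → ℝ) (hP0 : ∀ x o, 0 ≤ P x o) (hP1 : ∀ x, ∑ o, P x o = 1) (D : B)
    (s η : ℝ) (hs : 0 ≤ s) (hη0 : 0 < η) (hη1 : η ≤ 1)
    (hmean : (1 + η) * s ≤ ∑ x, P x (some D)) :
    EE P (fun ω => ind (((univ.filter fun x => ω x = some D).card : ℝ) < s)) ≤
      Real.exp (-(η ^ 2 * s / 4)) := by
  have hl : 0 ≤ η / 2 := by linarith
  have h1 : ∀ ω : X → Option B, ind (((univ.filter fun x => ω x = some D).card : ℝ) < s) ≤
      Real.exp (η / 2 * s) * ∏ x, (if ω x = some D then Real.exp (-(η / 2)) else 1) := by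
    intro ω
    have e : ∏ x, (if ω x = some D then Real.exp (-(η / 2)) else 1) =
        Real.exp (-(η / 2) * ((univ.filter fun x => ω x = some D).card : ℝ)) := by
      rw [prod_ite, prod_const_one, mul_one, prod_const, ← Real.exp_nat_mul, mul_comm]
    rw [e, ← Real.exp_add]
    by_cases h : ((univ.filter fun x => ω x = some D).card : ℝ) < s
    · rw [ind_true h]
      refine Real.one_le_exp ?_
      nlinarith
    · rw [ind_false h]
      exact (Real.exp_pos _).le
  refine (Pool.Agent.H73.Cube.EE_mono hP0 fun ω _ => h1 ω).trans ?_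
  rw [Pool.Agent.H73.Cube.EE_smul]
  have h2 := chernoff_prod P
    (fun _ o => if o = some D then Real.exp (-(η / 2)) else 1)
  rw [h2]
  have h3 : ∏ x, ∑ o, P x o * (if o = some D then Real.exp (-(η / 2)) else 1) ≤
      ∏ x, Real.exp (-((η / 2 - (η / 2) ^ 2 / 2) * P x (some D))) := by
    refine prod_le_prod (fun x _ => sum_nonneg fun o _ => mul_nonneg (hP0 x o) ?_) fun x _ => ?_
    · split_ifs
      · exact (Real.exp_pos _).le
      · norm_num
    · have e : ∑ o, P x o * (if o = some D then Real.exp (-(η / 2)) else 1) =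
          1 + P x (some D) * (Real.exp (-(η / 2)) - 1) := by
        have h4 : ∀ o, P x o * (if o = some D then Real.exp (-(η / 2)) else 1) =
            P x o + (if o = some D then P x o * (Real.exp (-(η / 2)) - 1) else 0) := by
          intro o
          split_ifs <;> ring
        rw [sum_congr rfl fun o _ => h4 o, sum_add_distrib, hP1, sum_ite_eq' univ (some D)]
        simp
      rw [e]
      have h5 := chernoff_exp hl
      have h6 := mul_le_mul_of_nonneg_left h5 (hP0 x (some D))
      have h7 := Real.add_one_le_exp (-((η / 2 - (η / 2) ^ 2 / 2) * P x (some D)))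
      nlinarith
  refine (mul_le_mul_of_nonneg_left h3 (Real.exp_pos _).le).trans ?_
  rw [← Real.exp_sum, ← Real.exp_add, Real.exp_le_exp, sum_neg_distrib, ← mul_sum]
  have h8 : 0 ≤ η / 2 - (η / 2) ^ 2 / 2 := by nlinarith
  have h9 := mul_le_mul_of_nonneg_left hmean h8
  have h10 : 0 ≤ η ^ 2 * s * (1 - η) := by
    have : 0 ≤ 1 - η := by linarith
    positivity
  nlinarith

end Pool.Agent.QA
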