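import Pool.Agent.QA.Defs

/-!
QA-3: clusters, by an energy increment.
-/

set_option autoImplicit false

open Finset

namespace Pool.Agent.QA

section

variable {X Y : Type}

/-- energy of a cluster -/
private noncomputable def clEn [Fintype X] (a : X → Y → ℝ) (C : Finset Y) : ℝ :=
  C.card * ∑ x, mn a C x ^ 2

/-- defect of a cluster -/
private noncomputable def clDf [Fintype X] (a : X → Y → ℝ) (C : Finset Y) : ℝ :=
  C.card * ∑ x, ∑ x', cov a C x x' ^ 2

private theorem cl_real (s1 s0 A1 A0 : ℝ) (h1 : 0 ≤ s1) (h0 : 0 ≤ s0) (e1 : s1 = 0 → A1 = 0)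
    (e0 : s0 = 0 → A0 = 0) :
    (s1 + s0) * ((A1 + A0) / (s1 + s0)) ^ 2 +
      4 * ((s1 + s0) * (A1 / (s1 + s0) - (A1 + A0) / (s1 + s0) * (s1 / (s1 + s0))) ^ 2) ≤
      s1 * (A1 / s1) ^ 2 + s0 * (A0 / s0) ^ 2 := by
  rcases h1.eq_or_lt with h | h
  · rw [← h, e1 h.symm]
    simp
  rcases h0.eq_or_lt with h' | h'
  · rw [← h', e0 h'.symm]
    have : A1 / s1 - A1 / s1 * (s1 / s1) = 0 := by
      rw [div_self h.ne']; ring
    simp only [add_zero]
    rw [this]
    simp
  have hs : 0 < s1 + s0 := by linarith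
  have k1 : s1 * (A1 / s1) ^ 2 + s0 * (A0 / s0) ^ 2 -
      (s1 + s0) * ((A1 + A0) / (s1 + s0)) ^ 2 =
      (A1 * s0 - A0 * s1) ^ 2 / (s1 * s0 * (s1 + s0)) := by
    field_simp
    ring
  have k2 : 4 * ((s1 + s0) * (A1 / (s1 + s0) - (A1 + A0) / (s1 + s0) * (s1 / (s1 + s0))) ^ 2) =
      (A1 * s0 - A0 * s1) ^ 2 * 4 / ((s1 + s0) ^ 2 * (s1 + s0)) := by
    field_simp
    ring
  have k3 : (A1 * s0 - A0 * s1) ^ 2 * 4 / ((s1 + s0) ^ 2 * (s1 + s0)) ≤
      (A1 * s0 - A0 * s1) ^ 2 / (s1 * s0 * (s1 + s0)) := by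
    rw [div_le_div_iff₀ (by positivity) (by positivity)]
    have e : 4 * (s1 * s0) ≤ (s1 + s0) ^ 2 := by nlinarith [sq_nonneg (s1 - s0)]
    have := mul_le_mul_of_nonneg_left e
      (show 0 ≤ (A1 * s0 - A0 * s1) ^ 2 * (s1 + s0) by positivity)
    nlinarith
  rw [k2]
  linarith

private theorem cl_split [Fintype X] (a : X → Y → ℝ) (ha : ∀ x y, a x y = 0 ∨ a x y = 1)
    (C : Finset Y) (z : X) [DecidablePred fun y => a z y = 1] :
    clEn a C + 4 * ((C.card : ℝ) * ∑ x, cov a C x z ^ 2) ≤
      clEn a (C.filter fun y => a z y = 1) + clEn a (C.filter fun y => ¬ a z y = 1) := by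
  unfold clEn
  rw [mul_sum, mul_sum, mul_sum, mul_sum, mul_sum, ← sum_add_distrib, ← sum_add_distrib]
  refine sum_le_sum fun x _ => ?_
  have hcard : (C.card : ℝ) = (C.filter fun y => a z y = 1).card +
      (C.filter fun y => ¬ a z y = 1).card := by
    have := card_filter_add_card_filter_not (s := C) (fun y => a z y = 1)
    rw [← this]
    push_cast
    ring
  have hsum : ∑ y ∈ C, a x y = ∑ y ∈ C.filter (fun y => a z y = 1), a x y +
      ∑ y ∈ C.filter (fun y => ¬ a z y = 1), a x y :=
    (sum_filter_add_sum_filter_not C (fun y => a z y = 1) (fun y => a x y)).symm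
  have hz : ∑ y ∈ C, a z y = (C.filter fun y => a z y = 1).card := by
    rw [← sum_filter_add_sum_filter_not C (fun y => a z y = 1) (fun y => a z y)]
    have e1 : ∑ y ∈ C.filter (fun y => a z y = 1), a z y =
        (C.filter fun y => a z y = 1).card := by
      rw [sum_congr rfl (fun y hy => (mem_filter.1 hy).2)]
      simp
    have e2 : ∑ y ∈ C.filter (fun y => ¬ a z y = 1), a z y = 0 := by
      refine sum_eq_zero fun y hy => ?_
      exact (ha z y).resolve_right (mem_filter.1 hy).2
    rw [e1, e2, add_zero]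
  have hxz : ∑ y ∈ C, a x y * a z y = ∑ y ∈ C.filter (fun y => a z y = 1), a x y := by
    rw [← sum_filter_add_sum_filter_not C (fun y => a z y = 1) (fun y => a x y * a z y)]
    have e1 : ∑ y ∈ C.filter (fun y => a z y = 1), a x y * a z y =
        ∑ y ∈ C.filter (fun y => a z y = 1), a x y := by
      refine sum_congr rfl fun y hy => ?_
      rw [(mem_filter.1 hy).2, mul_one]
    have e2 : ∑ y ∈ C.filter (fun y => ¬ a z y = 1), a x y * a z y = 0 := by
      refine sum_eq_zero fun y hy => ?_
      rw [(ha z y).resolve_right (mem_filter.1 hy).2, mul_zero]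
    rw [e1, e2, add_zero]
  have key := cl_real ((C.filter fun y => a z y = 1).card : ℝ)
    ((C.filter fun y => ¬ a z y = 1).card : ℝ)
    (∑ y ∈ C.filter (fun y => a z y = 1), a x y)
    (∑ y ∈ C.filter (fun y => ¬ a z y = 1), a x y) (by positivity) (by positivity)
    (fun h => by
      have h' : (C.filter fun y => a z y = 1) = ∅ := by
        rw [← card_eq_zero]; exact_mod_cast h
      rw [h', sum_empty])
    (fun h => by
      have h' : (C.filter fun y => ¬ a z y = 1) = ∅ := by
        rw [← card_eq_zero]; exact_mod_cast h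
      rw [h', sum_empty])
  unfold cov mn
  rw [hxz, hz, hsum, hcard]
  linarith

private theorem cl_mn_mem (a : X → Y → ℝ) (ha : ∀ x y, a x y = 0 ∨ a x y = 1)
    (C : Finset Y) (x : X) : 0 ≤ mn a C x ∧ mn a C x ≤ 1 := by
  have h0 : ∀ y, 0 ≤ a x y := fun y => by
    rcases ha x y with h | h <;> rw [h]; norm_num
  have h1 : ∀ y, a x y ≤ 1 := fun y => by
    rcases ha x y with h | h <;> rw [h]; norm_num
  unfold mn
  refine ⟨div_nonneg (sum_nonneg fun y _ => h0 y) (by positivity), ?_⟩
  refine div_le_one_of_le₀ ?_ (by positivity)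
  calc ∑ y ∈ C, a x y ≤ ∑ _y ∈ C, (1 : ℝ) := sum_le_sum fun y _ => h1 y
    _ = C.card := by simp

private theorem clEn_le [Fintype X] (a : X → Y → ℝ) (ha : ∀ x y, a x y = 0 ∨ a x y = 1)
    (C : Finset Y) : clEn a C ≤ C.card * Fintype.card X := by
  unfold clEn
  refine mul_le_mul_of_nonneg_left ?_ (by positivity)
  calc ∑ x, mn a C x ^ 2 ≤ ∑ _x : X, (1 : ℝ) := by
        refine sum_le_sum fun x _ => ?_
        have h := cl_mn_mem a ha C x
        exact pow_le_one₀ h.1 h.2
    _ = Fintype.card X := by simp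

private theorem clEn_nonneg [Fintype X] (a : X → Y → ℝ) (C : Finset Y) : 0 ≤ clEn a C := by
  unfold clEn
  positivity

private theorem cl_inj {J J' : Type} [Fintype Y] [Fintype J] [Fintype J'] [DecidableEq J]
    [DecidableEq J'] (i : J → J') (hi : Function.Injective i) (χ : Y → J) (F : Finset Y → ℝ)
    (h0 : F ∅ = 0) : ∑ j', F (univ.filter fun y => i (χ y) = j') =
      ∑ j, F (univ.filter fun y => χ y = j) := by
  symm
  refine Fintype.sum_of_injective i hi _ _ (fun j' hj' => ?_) (fun j => ?_)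
  · have : (univ.filter fun y => i (χ y) = j') = ∅ := by
      rw [filter_eq_empty_iff]
      intro y _ hy
      exact hj' ⟨_, hy⟩
    rw [this, h0]
  · congr 1
    ext y
    simp [hi.eq_iff]

private theorem cl_step (a : X → Y → ℝ) [Fintype X] [Fintype Y]
    (ha : ∀ x y, a x y = 0 ∨ a x y = 1) {J : Type} [Fintype J] [DecidableEq J] (χ : Y → J)
    (ε : ℝ) (hbad : ε * Fintype.card Y * (Fintype.card X : ℝ) ^ 2 <
      ∑ j, clDf a (univ.filter fun y => χ y = j)) :
    ∃ χ' : Y → J × Bool, ∑ j, clEn a (univ.filter fun y => χ y = j) +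
      4 * ε * (Fintype.card Y * Fintype.card X) ≤
        ∑ j, clEn a (univ.filter fun y => χ' y = j) := by
  classical
  by_contra hcon
  push Not at hcon
  have hz : ∀ z : X, ∑ j, (clEn a (univ.filter fun y => χ y = j) +
      4 * (((univ.filter fun y => χ y = j).card : ℝ) *
        ∑ x, cov a (univ.filter fun y => χ y = j) x z ^ 2)) ≤
      ∑ j, clEn a (univ.filter fun y => (χ y, decide (a z y = 1)) = j) := by
    intro z
    rw [Fintype.sum_prod_type]
    refine sum_le_sum fun j _ => ?_
    rw [Fintype.sum_bool]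
    have h1 := cl_split a ha (univ.filter fun y => χ y = j) z
    have e1 : (univ.filter fun y => χ y = j).filter (fun y => a z y = 1) =
        univ.filter fun y => (χ y, decide (a z y = 1)) = (j, true) := by
      ext y
      simp
    have e2 : (univ.filter fun y => χ y = j).filter (fun y => ¬ a z y = 1) =
        univ.filter fun y => (χ y, decide (a z y = 1)) = (j, false) := by
      ext y
      simp
    rw [e1, e2] at h1
    exact h1
  have hsum : ∑ z : X, ∑ j, (clEn a (univ.filter fun y => χ y = j) +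
      4 * (((univ.filter fun y => χ y = j).card : ℝ) *
        ∑ x, cov a (univ.filter fun y => χ y = j) x z ^ 2)) =
      Fintype.card X * ∑ j, clEn a (univ.filter fun y => χ y = j) +
        4 * ∑ j, clDf a (univ.filter fun y => χ y = j) := by
    simp only [sum_add_distrib]
    congr 1
    · simp
    · rw [sum_comm, mul_sum]
      refine sum_congr rfl fun j _ => ?_
      unfold clDf
      rw [← mul_sum, ← mul_sum]
      congr 2
      exact sum_comm
  have hle : ∑ z : X, ∑ j, (clEn a (univ.filter fun y => χ y = j) +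
      4 * (((univ.filter fun y => χ y = j).card : ℝ) *
        ∑ x, cov a (univ.filter fun y => χ y = j) x z ^ 2)) ≤
      ∑ _z : X, (∑ j, clEn a (univ.filter fun y => χ y = j) +
        4 * ε * (Fintype.card Y * Fintype.card X)) :=
    sum_le_sum fun z _ => (hz z).trans (hcon _).le
  rw [hsum, sum_const, card_univ, nsmul_eq_mul] at hle
  nlinarith

private theorem cl_iter (a : X → Y → ℝ) [Fintype X] [Fintype Y]
    (ha : ∀ x y, a x y = 0 ∨ a x y = 1) (ε : ℝ) (k : ℕ) :
    ∃ χ : Y → Fin (2 ^ k), ∑ j, clDf a (univ.filter fun y => χ y = j) ≤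
        ε * Fintype.card Y * (Fintype.card X : ℝ) ^ 2 ∨
      4 * ε * k * (Fintype.card Y * Fintype.card X) ≤
        ∑ j, clEn a (univ.filter fun y => χ y = j) := by
  induction k with
  | zero =>
    refine ⟨fun _ => 0, Or.inr ?_⟩
    simp only [CharP.cast_eq_zero, mul_zero, zero_mul]
    exact sum_nonneg fun j _ => clEn_nonneg a _
  | succ k ih =>
    obtain ⟨χ, hχ⟩ := ih
    have e : Fin (2 ^ k) × Bool ≃ Fin (2 ^ (k + 1)) :=
      Fintype.equivOfCardEq (by simp [pow_succ])
    by_cases hg : ∑ j, clDf a (univ.filter fun y => χ y = j) ≤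
        ε * Fintype.card Y * (Fintype.card X : ℝ) ^ 2
    · refine ⟨fun y => e (χ y, true), Or.inl ?_⟩
      have h1 := cl_inj (fun j => e (j, true))
        (fun i j h => (Prod.ext_iff.1 (e.injective h)).1) χ (clDf a) (by simp [clDf])
      rw [h1]
      exact hg
    · have hE := hχ.resolve_left hg
      obtain ⟨χ', hχ'⟩ := cl_step a ha χ ε (not_le.1 hg)
      refine ⟨fun y => e (χ' y), Or.inr ?_⟩
      have h1 := cl_inj e e.injective χ' (clEn a) (by simp [clEn])
      rw [h1]
      refine le_trans ?_ hχ'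
      push_cast
      linarith

end

theorem clusters (ε : ℝ) (hε : 0 < ε) :
    ∃ t : ℕ, ∀ (X Y : Type) [Fintype X] [Fintype Y] (a : X → Y → ℝ),
      (∀ x y, a x y = 0 ∨ a x y = 1) → ∃ χ : Y → Fin t,
        ∑ j, ((univ.filter fun y => χ y = j).card : ℝ) *
          ∑ x, ∑ x', cov a (univ.filter fun y => χ y = j) x x' ^ 2 ≤
        ε * Fintype.card Y * (Fintype.card X : ℝ) ^ 2 := by
  obtain ⟨k, hk⟩ := exists_nat_gt (1 / (4 * ε))
  have hk' : 1 < 4 * ε * k := by
    rw [div_lt_iff₀ (by positivity)] at hk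
    linarith
  refine ⟨2 ^ k, fun X Y _ _ a ha => ?_⟩
  obtain ⟨χ, hχ⟩ := cl_iter a ha ε k
  refine ⟨χ, ?_⟩
  rcases hχ with h | h
  · exact h
  · have hup : ∑ j, clEn a (univ.filter fun y => χ y = j) ≤ Fintype.card Y * Fintype.card X := by
      calc ∑ j, clEn a (univ.filter fun y => χ y = j)
          ≤ ∑ j, ((univ.filter fun y => χ y = j).card : ℝ) * Fintype.card X :=
            sum_le_sum fun j _ => clEn_le a ha _
        _ = Fintype.card Y * Fintype.card X := by
            rw [← sum_mul]
            congr 1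
            have := card_eq_sum_card_fiberwise (s := (univ : Finset Y)) (t := univ) (f := χ)
              (fun y _ => mem_coe.2 (mem_univ _))
            rw [card_univ] at this
            rw [this]
            push_cast
            rfl
    have h0 : (0 : ℝ) ≤ Fintype.card Y * Fintype.card X := by positivity
    have h1 : (Fintype.card Y : ℝ) * Fintype.card X = 0 := by nlinarith
    have h2 : ∑ j, ((univ.filter fun y => χ y = j).card : ℝ) *
          ∑ x, ∑ x', cov a (univ.filter fun y => χ y = j) x x' ^ 2 = 0 := by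
      rcases mul_eq_zero.1 h1 with h | h
      · have hY : IsEmpty Y := Fintype.card_eq_zero_iff.1 (by exact_mod_cast h)
        refine sum_eq_zero fun j _ => ?_
        rw [univ_eq_empty (α := Y)]
        simp
      · have hX : IsEmpty X := Fintype.card_eq_zero_iff.1 (by exact_mod_cast h)
        refine sum_eq_zero fun j _ => ?_
        simp
    rw [h2]
    positivity

end Pool.Agent.QA
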