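import Pool.Agent.QA.Defs
import Pool.Agent.H73.Cube.Cells

/-!
Project QA (MP_a55b9e_co), row QA-5: expectations of products, resampling, the uniform law.
-/

set_option autoImplicit false

open Finset

namespace Pool.Agent.QA

open Pool.Agent.H73.Cube (EE)

theorem EE_prod {ι α : Type} [Fintype ι] [DecidableEq ι] [Fintype α] (P : ι → α → ℝ)
    (hP1 : ∀ i, ∑ y, P i y = 1) (I : Finset ι) (f : ι → α → ℝ) :
    EE P (fun ω => ∏ i ∈ I, f i (ω i)) = ∏ i ∈ I, ∑ y, P i y * f i y := by
  unfold EE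
  have h1 : ∀ ω : ι → α, (∏ i, P i (ω i)) * ∏ i ∈ I, f i (ω i) =
      ∏ i, (P i (ω i) * if i ∈ I then f i (ω i) else 1) := by
    intro ω
    rw [prod_mul_distrib, Fintype.prod_ite_mem]
  rw [sum_congr rfl fun ω _ => h1 ω,
    ← Fintype.prod_sum (fun i y => P i y * if i ∈ I then f i y else 1),
    ← Fintype.prod_ite_mem I]
  refine prod_congr rfl fun i _ => ?_
  by_cases hi : i ∈ I
  · simp only [hi, if_true]
  · simp only [hi, if_false, mul_one, hP1]

theorem EE_resample {ι α : Type} [Fintype ι] [DecidableEq ι] [Fintype α] (P : ι → α → ℝ)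
    (hP1 : ∀ i, ∑ y, P i y = 1) (i : ι) (f : (ι → α) → ℝ) :
    EE P f = EE P (fun ω => ∑ y, P i y * f (Function.update ω i y)) :=
  (Pool.Agent.H73.Cube.EE_resample hP1 i f).symm

theorem unif_nonneg {Y : Type} [DecidableEq Y] (C : Finset Y) (y : Y) : 0 ≤ unif C y := by
  unfold unif
  split_ifs
  · positivity
  · exact le_rfl

theorem unif_sum_mul {Y : Type} [Fintype Y] [DecidableEq Y] (C : Finset Y) (f : Y → ℝ) :
    ∑ y, unif C y * f y = (∑ y ∈ C, f y) / C.card := by
  unfold unif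
  simp only [ite_mul, zero_mul]
  rw [← sum_filter, filter_mem_eq_inter, univ_inter, ← mul_sum, div_eq_inv_mul]

theorem unif_sum {Y : Type} [Fintype Y] [DecidableEq Y] (C : Finset Y) (hC : C.Nonempty) :
    ∑ y, unif C y = 1 := by
  have h := unif_sum_mul C (fun _ => 1)
  simp only [mul_one] at h
  rw [h, sum_const, nsmul_eq_mul, mul_one]
  exact div_self (Nat.cast_ne_zero.2 (card_pos.2 hC).ne')

end Pool.Agent.QA
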