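import Pool.Agent.QA.Basic

/-!
Project QA, row QA-7: pointwise facts about the posterior weights.
-/

set_option autoImplicit false

open Finset

namespace Pool.Agent.QA

open Pool.Agent.H73.Cube (EE)

section weights

variable {X Y T ι Z : Type} {n : ℕ} [Fintype X] [DecidableEq Y] [DecidableEq ι]
  (S : SD X Y T ι Z n) {K Vb : ℕ} {D0 ξ : ℝ}

theorem pr_nonneg (hS : S.Ok K Vb D0 ξ) (ω : ι → Y) (z : Z) (v : Fin n → X) :
    0 ≤ S.pr ω z v := by
  unfold SD.pr
  exact Finset.prod_nonneg fun l _ => q_nonneg S hS ω _ _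

theorem pr_sum_le (hS : S.Ok K Vb D0 ξ) (ω : ι → Y) (z : Z) : ∑ v, S.pr ω z v ≤ 1 := by
  unfold SD.pr
  have h : ∏ l : Fin n, ∑ x, S.q ω (S.nb z l) x = ∑ v : Fin n → X, ∏ l, S.q ω (S.nb z l) (v l) :=
    Finset.prod_univ_sum (fun _ => (Finset.univ : Finset X)) (fun l x => S.q ω (S.nb z l) x)
      |>.trans (by rw [Fintype.piFinset_univ])
  rw [← h]
  exact Finset.prod_le_one (fun l _ => Finset.sum_nonneg fun x _ => q_nonneg S hS ω _ _)
    fun l _ => q_sum_le S hS ω _

theorem w_nonneg (hS : S.Ok K Vb D0 ξ) (ω : ι → Y) (z : Z) (y : Y) (v : Fin n → X) :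
    0 ≤ S.w ω z y v := by
  unfold SD.w
  exact div_nonneg (pr_nonneg S hS _ _ _) (Finset.sum_nonneg fun y' _ => pr_nonneg S hS _ _ _)

theorem wt_nonneg (hS : S.Ok K Vb D0 ξ) (ω : ι → Y) (z : Z) (y : Y) (v : Fin n → X) :
    0 ≤ S.wt ω z y v := by
  unfold SD.wt
  exact mul_nonneg (ind_nonneg _) (w_nonneg S hS _ _ _ _)

theorem wt_le (hS : S.Ok K Vb D0 ξ) (ω : ι → Y) (z : Z) (y : Y) (v : Fin n → X) :
    S.wt ω z y v ≤ (S.θ * ξ)⁻¹ := by
  have hpos : 0 < S.θ * ξ := mul_pos hS.θ0 hS.ξ0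
  unfold SD.wt
  by_cases h : y ∈ S.C (S.jj z) ∧ ¬ S.bad ω z v
  · rw [ind_true h, one_mul]
    have h1 : S.θ * (S.C (S.jj z)).card * S.w ω z y v ≤ 1 := by
      by_contra hc
      exact h.2 ⟨y, h.1, not_le.mp hc⟩
    have h2 : S.θ * ξ * S.w ω z y v ≤ S.θ * (S.C (S.jj z)).card * S.w ω z y v :=
      mul_le_mul_of_nonneg_right (mul_le_mul_of_nonneg_left (hS.hξ (S.jj z)) hS.θ0.le)
        (w_nonneg S hS ω z y v)
    have h3 : S.θ * ξ * S.w ω z y v ≤ 1 := le_trans h2 h1
    rw [← one_div, le_div_iff₀ hpos, mul_comm]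
    exact h3
  · rw [ind_false h, zero_mul]
    exact (inv_pos.mpr hpos).le

/-- the weights of a vector of positive probability which is not bad sum up to one -/
theorem wt_sum [Fintype Y] (hS : S.Ok K Vb D0 ξ) (ω : ι → Y) (z : Z) (hz : z ∈ S.actO)
    (v : Fin n → X) (hω : ω (S.own z) ∈ S.C (S.jj z)) (hv : ∀ l, 0 < S.q ω (S.nb z l) (v l))
    (hb : ¬ S.bad ω z v) : ∑ y, S.wt ω z y v = 1 := by
  have h1 : ∀ y, S.wt ω z y v = if y ∈ S.C (S.jj z) then S.w ω z y v else 0 := by
    intro y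
    unfold SD.wt
    by_cases hy : y ∈ S.C (S.jj z)
    · rw [ind_true ⟨hy, hb⟩, one_mul, if_pos hy]
    · rw [ind_false (fun h => hy h.1), zero_mul, if_neg hy]
  have h2 : ∑ y, S.wt ω z y v = ∑ y ∈ S.C (S.jj z), S.w ω z y v := by
    rw [Finset.sum_congr rfl fun y _ => h1 y, Finset.sum_ite_mem, Finset.univ_inter]
  rw [h2]
  unfold SD.w
  rw [← Finset.sum_div]
  have hp : 0 < S.pr ω z v := by
    unfold SD.pr
    exact Finset.prod_pos fun l _ => hv l
  have hp2 : S.pr (Function.update ω (S.own z) (ω (S.own z))) z v = S.pr ω z v := by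
    rw [Function.update_eq_self]
  have h3 : 0 < ∑ y' ∈ S.C (S.jj z), S.pr (Function.update ω (S.own z) y') z v := by
    refine lt_of_lt_of_le hp ?_
    rw [← hp2]
    exact Finset.single_le_sum
      (f := fun y' => S.pr (Function.update ω (S.own z) y') z v)
      (fun y' _ => pr_nonneg S hS _ _ _) hω
  exact div_self h3.ne'

/-- a vertex of positive weight is adjacent to all neighbours -/
theorem wt_adj (hS : S.Ok K Vb D0 ξ) (ω : ι → Y) (z : Z) (hz : z ∈ S.actO) (y : Y)
    (v : Fin n → X) (h : S.wt ω z y v ≠ 0) (l : Fin n) : S.a (v l) y = 1 := by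
  have h1 : S.w ω z y v ≠ 0 := by
    intro h0
    apply h
    unfold SD.wt
    rw [h0, mul_zero]
  have h2 : S.pr (Function.update ω (S.own z) y) z v ≠ 0 := by
    intro h0
    apply h1
    unfold SD.w
    rw [h0, zero_div]
  have h3 : S.q (Function.update ω (S.own z) y) (S.nb z l) (v l) ≠ 0 := by
    intro h0
    apply h2
    unfold SD.pr
    exact Finset.prod_eq_zero (Finset.mem_univ l) h0
  have h4 := q_pos_adj S hS (Function.update ω (S.own z) y) (S.nb z l) (S.own z)
    (hS.own_I z hz l) (v l) h3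
  rw [Function.update_self] at h4
  exact h4

/-- nothing depends on seeds outside `L2 z`, and the weights do not depend on the own seed -/
theorem pr_update (hS : S.Ok K Vb D0 ξ) (ω : ι → Y) (z : Z) (i : ι) (hi : i ∉ S.L2 z) (y' : Y)
    (v : Fin n → X) : S.pr (Function.update ω i y') z v = S.pr ω z v := by
  unfold SD.pr
  refine Finset.prod_congr rfl fun l _ => ?_
  refine q_congr S _ _ _ (fun j hj => ?_) _
  refine Function.update_of_ne ?_ _ _
  rintro rfl
  apply hi
  unfold SD.L2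
  exact Finset.mem_biUnion.mpr ⟨l, Finset.mem_univ l, hj⟩

theorem wts_w_own (ω : ι → Y) (z : Z) (y y' : Y) (v : Fin n → X) :
    S.w (Function.update ω (S.own z) y') z y v = S.w ω z y v := by
  unfold SD.w
  simp only [Function.update_idem]

theorem bad_own (ω : ι → Y) (z : Z) (y' : Y) (v : Fin n → X) :
    S.bad (Function.update ω (S.own z) y') z v ↔ S.bad ω z v := by
  unfold SD.bad
  simp only [wts_w_own]

theorem wt_own (ω : ι → Y) (z : Z) (y y' : Y) (v : Fin n → X) :
    S.wt (Function.update ω (S.own z) y') z y v = S.wt ω z y v := by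
  unfold SD.wt
  rw [wts_w_own, propext (bad_own S ω z y' v)]

theorem wt_update (hS : S.Ok K Vb D0 ξ) (ω : ι → Y) (z : Z) (hz : z ∈ S.actO) (i : ι)
    (hi : i ∉ S.L2 z) (y y' : Y) (v : Fin n → X) :
    S.wt (Function.update ω i y') z y v = S.wt ω z y v := by
  by_cases hio : i = S.own z
  · rw [hio]
    exact wt_own S ω z y y' v
  have hp : ∀ y0, S.pr (Function.update (Function.update ω i y') (S.own z) y0) z v =
      S.pr (Function.update ω (S.own z) y0) z v := by
    intro y0
    rw [Function.update_comm hio]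
    exact pr_update S hS _ z i hi y' v
  have hw : ∀ y0, S.w (Function.update ω i y') z y0 v = S.w ω z y0 v := by
    intro y0
    unfold SD.w
    simp only [hp]
  have hb : S.bad (Function.update ω i y') z v ↔ S.bad ω z v := by
    unfold SD.bad
    simp only [hw]
  unfold SD.wt
  rw [hw, propext hb]

end weights

end Pool.Agent.QA
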