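import Pool.Agent.QA.Defs
import Pool.Agent.QA.Tools
import Pool.Agent.QA.Weights

/-!
Project QA, row QA-9: the expected load of a vertex.
-/

set_option autoImplicit false
set_option maxHeartbeats 400000

open Finset

namespace Pool.Agent.QA

open Pool.Agent.H73.Cube (EE EE_const EE_sum EE_smul EE_mono)

variable {X Y T ι Z : Type} {n : ℕ} [Fintype X] [Fintype Y] [DecidableEq Y] [Fintype ι]
  [DecidableEq ι] [Fintype Z] [DecidableEq Z] (S : SD X Y T ι Z n) {K Vb : ℕ} {D0 ξ : ℝ}

section load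

omit [Fintype Y] [Fintype ι] [Fintype Z] [DecidableEq Z] in
theorem load_C_ne (hS : S.Ok K Vb D0 ξ) (j : T) : (S.C j).Nonempty := by
  rw [← card_pos]
  have h := lt_of_lt_of_le hS.ξ0 (hS.hξ j)
  exact_mod_cast h

omit [Fintype Y] [Fintype ι] [Fintype Z] [DecidableEq Z] in
/-- the inner estimate -/
theorem load_inner (hS : S.Ok K Vb D0 ξ) (ω : ι → Y) (z : Z) (y : Y) (v : Fin n → X) :
    (∑ y' ∈ S.C (S.jj z), S.pr (Function.update ω (S.own z) y') z v) * S.wt ω z y v ≤
      if y ∈ S.C (S.jj z) then S.pr (Function.update ω (S.own z) y) z v else 0 := by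
  set D := ∑ y' ∈ S.C (S.jj z), S.pr (Function.update ω (S.own z) y') z v with hD
  have hD0 : 0 ≤ D := sum_nonneg fun y' _ => pr_nonneg S hS _ z v
  by_cases hy : y ∈ S.C (S.jj z)
  · rw [if_pos hy]
    have h1 : S.wt ω z y v ≤ S.w ω z y v := by
      unfold SD.wt
      calc ind (y ∈ S.C (S.jj z) ∧ ¬ S.bad ω z v) * S.w ω z y v ≤ 1 * S.w ω z y v :=
            mul_le_mul_of_nonneg_right (ind_le_one _) (w_nonneg S hS ω z y v)
        _ = S.w ω z y v := one_mul _
    rcases hD0.eq_or_lt with h0 | h0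
    · rw [← h0, zero_mul]
      exact pr_nonneg S hS _ z v
    · calc D * S.wt ω z y v ≤ D * S.w ω z y v := mul_le_mul_of_nonneg_left h1 hD0
        _ = S.pr (Function.update ω (S.own z) y) z v := by
            unfold SD.w
            rw [← hD]
            field_simp
  · rw [if_neg hy]
    have h1 : S.wt ω z y v = 0 := by
      unfold SD.wt
      rw [ind_false (fun h => hy h.1), zero_mul]
    rw [h1, mul_zero]

theorem load_one (hS : S.Ok K Vb D0 ξ) (z : Z) (hz : z ∈ S.actO) (y : Y) :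
    EE S.P (fun ω => ∑ v, S.pr ω z v * S.wt ω z y v) ≤
      if y ∈ S.C (S.jj z) then 1 / ((S.C (S.jj z)).card : ℝ) else 0 := by
  have hP0 : ∀ i y, 0 ≤ S.P i y := fun i y => unif_nonneg _ _
  have hP1 : ∀ i, ∑ y, S.P i y = 1 := fun i => unif_sum _ (load_C_ne S hS _)
  rw [EE_resample S.P hP1 (S.own z)]
  have hc0 : (0 : ℝ) ≤ ((S.C (S.jj z)).card : ℝ) := Nat.cast_nonneg _
  have key : ∀ ω : ι → Y, (∑ y1, S.P (S.own z) y1 *
      ∑ v, S.pr (Function.update ω (S.own z) y1) z v *
        S.wt (Function.update ω (S.own z) y1) z y v) ≤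
      if y ∈ S.C (S.jj z) then 1 / ((S.C (S.jj z)).card : ℝ) else 0 := by
    intro ω
    have hP : ∀ y1, S.P (S.own z) y1 = unif (S.C (S.jj z)) y1 := by
      intro y1
      unfold SD.P
      rw [hS.own_cl z hz]
    simp only [hP]
    rw [unif_sum_mul]
    have h2 : ∑ y1 ∈ S.C (S.jj z), ∑ v, S.pr (Function.update ω (S.own z) y1) z v *
        S.wt (Function.update ω (S.own z) y1) z y v =
        ∑ v, (∑ y1 ∈ S.C (S.jj z), S.pr (Function.update ω (S.own z) y1) z v) *
          S.wt ω z y v := by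
      rw [sum_comm]
      refine sum_congr rfl fun v _ => ?_
      rw [sum_mul]
      refine sum_congr rfl fun y1 _ => ?_
      rw [wt_own]
    rw [h2]
    have h3 : ∑ v, (∑ y1 ∈ S.C (S.jj z), S.pr (Function.update ω (S.own z) y1) z v) *
        S.wt ω z y v ≤ if y ∈ S.C (S.jj z) then 1 else 0 := by
      refine (sum_le_sum fun v _ => load_inner S hS ω z y v).trans ?_
      by_cases hy : y ∈ S.C (S.jj z)
      · simp only [if_pos hy]
        exact pr_sum_le S hS _ z
      · simp only [if_neg hy, sum_const_zero, le_refl]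
    refine (div_le_div_of_nonneg_right h3 hc0).trans (le_of_eq ?_)
    split_ifs
    · rfl
    · exact zero_div _
  refine (EE_mono hP0 fun ω _ => key ω).trans (le_of_eq ?_)
  exact EE_const hP1 _

theorem load_mean (hS : S.Ok K Vb D0 ξ) (A : ℝ) (hA : 0 ≤ A) (y : Y) :
    EE S.P (fun ω => S.load A ω y) ≤
      ∑ z ∈ S.actO, if y ∈ S.C (S.jj z) then A / (S.C (S.jj z)).card else 0 := by
  unfold SD.load
  rw [EE_sum]
  refine sum_le_sum fun z hz => ?_
  rw [EE_smul]
  refine (mul_le_mul_of_nonneg_left (load_one S hS z hz y) hA).trans (le_of_eq ?_)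
  split_ifs
  · rw [mul_one_div]
  · exact mul_zero _

end load

end Pool.Agent.QA
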