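import Pool.Agent.QA.Tools
import Pool.Agent.QA.Weights

/-!
# Project QA (MP_a55b9e_co): concentration of the load of an odd vertex
-/

set_option autoImplicit false

open Finset

namespace Pool.Agent.QA

open Pool.Agent.H73.Cube (EE)

section use

variable {X Y T ι Z : Type} {n : ℕ} [Fintype X] [Fintype Y] [DecidableEq Y] [Fintype ι]
  [DecidableEq ι] [Fintype Z] [DecidableEq Z] (S : SD X Y T ι Z n) {K Vb : ℕ} {D0 ξ : ℝ}

/-- double counting of the base points which see a seed -/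
private theorem lc_sum (hS : S.Ok K Vb D0 ξ) :
    ∑ i, ((S.actO.filter fun z => i ∈ S.L2 z).card : ℝ) ^ 2 ≤
      (K * Fintype.card Z * Vb : ℕ) := by
  have h1 : ∑ i, (S.actO.filter fun z => i ∈ S.L2 z).card = ∑ z ∈ S.actO, (S.L2 z).card := by
    have h := Finset.sum_card_bipartiteAbove_eq_sum_card_bipartiteBelow
      (s := (univ : Finset ι)) (t := S.actO) (fun i z => i ∈ S.L2 z)
    have e1 : ∀ i, S.actO.filter (fun z => i ∈ S.L2 z) =
        Finset.bipartiteAbove (fun i z => i ∈ S.L2 z) S.actO i := fun i => rfl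
    have e2 : ∀ z, S.L2 z = Finset.bipartiteBelow (fun i z => i ∈ S.L2 z) univ z := by
      intro z
      ext i
      simp [Finset.bipartiteBelow]
    simp only [e1]
    rw [h]
    exact sum_congr rfl fun z _ => by rw [← e2]
  have h2 : ∑ z ∈ S.actO, (S.L2 z).card ≤ Fintype.card Z * K := by
    refine (sum_le_card_nsmul _ _ K fun z hz => hS.hK2 z hz).trans ?_
    rw [smul_eq_mul]
    exact Nat.mul_le_mul_right K (card_le_univ _)
  have h3 : ∑ i, (S.actO.filter fun z => i ∈ S.L2 z).card ^ 2 ≤ K * Fintype.card Z * Vb := by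
    calc ∑ i, (S.actO.filter fun z => i ∈ S.L2 z).card ^ 2
        ≤ ∑ i, (S.actO.filter fun z => i ∈ S.L2 z).card * Vb := by
          refine sum_le_sum fun i _ => ?_
          rw [pow_two]
          exact Nat.mul_le_mul_left _ (hS.hV2 i)
      _ = (∑ z ∈ S.actO, (S.L2 z).card) * Vb := by rw [← sum_mul, h1]
      _ ≤ Fintype.card Z * K * Vb := Nat.mul_le_mul_right _ h2
      _ = K * Fintype.card Z * Vb := by rw [mul_comm (Fintype.card Z) K]
  exact_mod_cast h3

theorem load_conc (hS : S.Ok K Vb D0 ξ) (A : ℝ) (hA : 0 ≤ A) (y : Y) (t V : ℝ) (ht : 0 ≤ t)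
    (hV : 0 < V) (hVb : (K * Fintype.card Z * Vb : ℕ) * (A * (S.θ * ξ)⁻¹) ^ 2 ≤ V) :
    EE S.P (fun ω => ind (EE S.P (fun ω => S.load A ω y) + t ≤ S.load A ω y)) ≤
      Real.exp (-(t ^ 2 / (2 * V))) := by
  have hθξ : 0 ≤ (S.θ * ξ)⁻¹ := by
    have := mul_pos hS.θ0 hS.ξ0
    positivity
  have hB : 0 ≤ A * (S.θ * ξ)⁻¹ := mul_nonneg hA hθξ
  have hP0 : ∀ i a, 0 ≤ S.P i a := fun i a => unif_nonneg _ _
  have hP1 : ∀ i, ∑ a, S.P i a = 1 := by
    intro i
    refine unif_sum _ ?_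
    rw [← card_pos]
    have h := hS.ξ0.trans_le (hS.hξ (S.cl i))
    exact_mod_cast h
  -- the terms of the load
  have hg0 : ∀ (z : Z) (ω : ι → Y), 0 ≤ A * ∑ v, S.pr ω z v * S.wt ω z y v := fun z ω =>
    mul_nonneg hA (sum_nonneg fun v _ => mul_nonneg (pr_nonneg S hS ω z v) (wt_nonneg S hS ω z y v))
  have hg1 : ∀ (z : Z) (ω : ι → Y), A * ∑ v, S.pr ω z v * S.wt ω z y v ≤ A * (S.θ * ξ)⁻¹ := by
    intro z ω
    refine mul_le_mul_of_nonneg_left ?_ hA
    calc ∑ v, S.pr ω z v * S.wt ω z y v ≤ ∑ v, S.pr ω z v * (S.θ * ξ)⁻¹ :=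
          sum_le_sum fun v _ => mul_le_mul_of_nonneg_left (wt_le S hS ω z y v) (pr_nonneg S hS ω z v)
      _ = (∑ v, S.pr ω z v) * (S.θ * ξ)⁻¹ := by rw [sum_mul]
      _ ≤ 1 * (S.θ * ξ)⁻¹ := mul_le_mul_of_nonneg_right (pr_sum_le S hS ω z) hθξ
      _ = (S.θ * ξ)⁻¹ := one_mul _
  have hf : ∀ (i : ι) (ω : ι → Y) (a : Y),
      |S.load A (Function.update ω i a) y - S.load A ω y| ≤
        ((S.actO.filter fun z => i ∈ S.L2 z).card : ℝ) * (A * (S.θ * ξ)⁻¹) := by
    intro i ω a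
    unfold SD.load
    rw [← sum_sub_distrib]
    refine (abs_sum_le_sum_abs _ _).trans ?_
    have h1 : ∀ z ∈ S.actO, |A * ∑ v, S.pr (Function.update ω i a) z v *
        S.wt (Function.update ω i a) z y v - A * ∑ v, S.pr ω z v * S.wt ω z y v| ≤
        if i ∈ S.L2 z then A * (S.θ * ξ)⁻¹ else 0 := by
      intro z hz
      split_ifs with hi
      · exact abs_sub_le_of_nonneg_of_le (hg0 z _) (hg1 z _) (hg0 z _) (hg1 z _)
      · have h2 : ∀ v, S.pr (Function.update ω i a) z v * S.wt (Function.update ω i a) z y v =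
            S.pr ω z v * S.wt ω z y v := fun v => by
          rw [pr_update S hS ω z i hi, wt_update S hS ω z hz i hi]
        simp only [h2, sub_self, abs_zero, le_refl]
    refine (sum_le_sum h1).trans ?_
    rw [← sum_filter, sum_const, nsmul_eq_mul]
  have hsum : ∑ i, (((S.actO.filter fun z => i ∈ S.L2 z).card : ℝ) * (A * (S.θ * ξ)⁻¹)) ^ 2 ≤ V := by
    refine le_trans ?_ hVb
    simp only [mul_pow, ← sum_mul]
    have h := lc_sum S hS
    have h0 : 0 ≤ A ^ 2 * (S.θ * ξ)⁻¹ ^ 2 := by positivity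
    exact mul_le_mul_of_nonneg_right h h0
  have hmain := Pool.Agent.H73.Cube.mcdW_upper hP0 hP1 (fun ω => S.load A ω y)
    (fun i => ((S.actO.filter fun z => i ∈ S.L2 z).card : ℝ) * (A * (S.θ * ξ)⁻¹))
    (fun i => mul_nonneg (Nat.cast_nonneg _) hB) hf t V ht hV hsum
  refine le_trans (le_of_eq ?_) hmain
  congr 1

end use

end Pool.Agent.QA
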