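import Pool.Agent.QA.Tools
import Pool.Agent.QA.Basic
import Pool.Agent.QA.Weights

/-!
Project QA (MP_a55b9e_co), row QA-11: the expected number of bad odd vertices.
-/

set_option autoImplicit false

open Finset

namespace Pool.Agent.QA

open Pool.Agent.H73.Cube (EE EE_smul EE_sum EE_mono EE_const)

section tail

variable {X Y T ι Z : Type} {n : ℕ} [Fintype X] [Fintype Y] [DecidableEq Y] [Fintype ι]
  [DecidableEq ι] [Fintype Z] [DecidableEq Z] (S : SD X Y T ι Z n) {K Vb : ℕ} {D0 ξ : ℝ}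

omit [Fintype Y] [DecidableEq Y] [Fintype ι] [Fintype Z] [DecidableEq Z] in
private theorem tail_card (hS : S.Ok K Vb D0 ξ) (j : T) : (0 : ℝ) < (S.C j).card :=
  lt_of_lt_of_le hS.ξ0 (hS.hξ j)

omit [Fintype Y] [DecidableEq Y] [Fintype ι] [Fintype Z] [DecidableEq Z] [Fintype X] in
private theorem tail_wx (a : X → Y → ℝ) (C : Finset Y) (τ : ℝ) (k : ℕ) (I : Finset ι)
    (ω : ι → Y) (i : ι) (y : Y) (x : X) :
    wx a C τ k (I.erase i) (Function.update ω i y) x = wx a C τ k (I.erase i) ω x := by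
  unfold wx
  congr 1
  refine prod_congr rfl fun j hj => ?_
  rw [Function.update_of_ne (Finset.ne_of_mem_erase hj)]

/-- the bound which does not see the own seed -/
private noncomputable def tail_rho (D0 : ℝ) (ω : ι → Y) (z : Z) (l : Fin n) (x : X) : ℝ :=
  ind (∑ x', wx S.a (S.C (S.jj (S.nb z l))) S.τ (S.I (S.nb z l)).card
      ((S.I (S.nb z l)).erase (S.own z)) ω x' ≤ (1 + S.ε) * Fintype.card X) *
    (wx S.a (S.C (S.jj (S.nb z l))) S.τ (S.I (S.nb z l)).card
      ((S.I (S.nb z l)).erase (S.own z)) ω x / D0)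

omit [Fintype Y] [Fintype ι] [Fintype Z] [DecidableEq Z] in
private theorem tail_q_le (hS : S.Ok K Vb D0 ξ) (ω : ι → Y) (z : Z) (hz : z ∈ S.actO) (y : Y)
    (l : Fin n) (x : X) :
    S.q (Function.update ω (S.own z) y) (S.nb z l) x ≤ tail_rho S D0 ω z l x := by
  have h := q_le_rho S hS (Function.update ω (S.own z) y) (S.nb z l) (S.own z) (hS.own_I z hz l) x
  simp only [tail_wx] at h
  exact h

omit [Fintype Y] [Fintype ι] [Fintype Z] [DecidableEq Z] in
private theorem tail_rho_nonneg (hS : S.Ok K Vb D0 ξ) (ω : ι → Y) (z : Z) (hz : z ∈ S.actO)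
    (l : Fin n) (x : X) : 0 ≤ tail_rho S D0 ω z l x := by
  have h := tail_q_le S hS ω z hz (ω (S.own z)) l x
  exact (q_nonneg S hS _ _ _).trans h

omit [Fintype Y] [Fintype ι] [Fintype Z] [DecidableEq Z] [DecidableEq Y] in
private theorem tail_rho_sum (D0 E : ℝ) (hD0 : 0 < D0)
    (hE : (1 + S.ε) * Fintype.card X ≤ E * D0) (hE0 : 0 ≤ E) (ω : ι → Y) (z : Z) (l : Fin n) :
    ∑ x, tail_rho S D0 ω z l x ≤ E := by
  unfold tail_rho
  rw [← mul_sum, ← sum_div]
  by_cases h : ∑ x', wx S.a (S.C (S.jj (S.nb z l))) S.τ (S.I (S.nb z l)).card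
      ((S.I (S.nb z l)).erase (S.own z)) ω x' ≤ (1 + S.ε) * Fintype.card X
  · rw [ind_true h, one_mul, div_le_iff₀ hD0]
    exact h.trans hE
  · rw [ind_false h, zero_mul]
    exact hE0

omit [Fintype Y] [Fintype ι] [Fintype Z] [DecidableEq Z] in
private theorem tail_bad (hS : S.Ok K Vb D0 ξ) (ω : ι → Y) (z : Z) (hz : z ∈ S.actO)
    (v : Fin n → X) :
    ind (S.bad ω z v) * ∑ y ∈ S.C (S.jj z), S.pr (Function.update ω (S.own z) y) z v ≤
      (S.C (S.jj z)).card * (S.θ * ∏ l, tail_rho S D0 ω z l (v l)) := by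
  have hc := tail_card S hS (S.jj z)
  have hr : 0 ≤ ∏ l, tail_rho S D0 ω z l (v l) :=
    prod_nonneg fun l _ => tail_rho_nonneg S hS ω z hz l (v l)
  by_cases hb : S.bad ω z v
  · rw [ind_true hb, one_mul]
    obtain ⟨y, hy, hw⟩ := hb
    have hs0 : 0 ≤ ∑ y' ∈ S.C (S.jj z), S.pr (Function.update ω (S.own z) y') z v :=
      sum_nonneg fun y' _ => pr_nonneg S hS _ _ _
    rcases hs0.eq_or_lt with h0 | h0
    · rw [← h0]
      have := hS.θ0
      positivity
    · unfold SD.w at hw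
      rw [← mul_div_assoc, lt_div_iff₀ h0, one_mul] at hw
      refine hw.le.trans ?_
      have h1 : S.pr (Function.update ω (S.own z) y) z v ≤ ∏ l, tail_rho S D0 ω z l (v l) := by
        unfold SD.pr
        exact prod_le_prod (fun l _ => q_nonneg S hS _ _ _)
          (fun l _ => tail_q_le S hS ω z hz y l (v l))
      have h2 : 0 ≤ S.θ * (S.C (S.jj z)).card := mul_nonneg hS.θ0.le hc.le
      calc S.θ * (S.C (S.jj z)).card * S.pr (Function.update ω (S.own z) y) z v
          ≤ S.θ * (S.C (S.jj z)).card * ∏ l, tail_rho S D0 ω z l (v l) :=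
            mul_le_mul_of_nonneg_left h1 h2
        _ = _ := by ring
  · rw [ind_false hb, zero_mul]
    have := hS.θ0
    positivity

theorem tail_mean (hS : S.Ok K Vb D0 ξ) (A E : ℝ) (hA : 0 ≤ A)
    (hE : (1 + S.ε) * Fintype.card X ≤ E * D0) :
    EE S.P (fun ω => S.tail A ω) ≤ A * Fintype.card Z * (S.θ * E ^ n) := by
  have hE0 : 0 ≤ E := by
    have h1 : 0 ≤ (1 + S.ε) * Fintype.card X := by
      have := hS.ε0
      positivity
    by_contra h
    push Not at h
    have h2 := mul_neg_of_neg_of_pos h hS.D00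
    linarith
  have hP0 : ∀ i y, 0 ≤ S.P i y := fun i y => unif_nonneg _ _
  have hP1 : ∀ i, ∑ y, S.P i y = 1 := fun i => by
    refine unif_sum _ ?_
    rw [← Finset.card_pos]
    exact_mod_cast tail_card S hS (S.cl i)
  have hθE : 0 ≤ S.θ * E ^ n := mul_nonneg hS.θ0.le (pow_nonneg hE0 n)
  -- one base point
  have key : ∀ z ∈ S.actO, EE S.P (fun ω => ∑ v, S.pr ω z v * ind (S.bad ω z v)) ≤
      S.θ * E ^ n := by
    intro z hz
    have hc := tail_card S hS (S.jj z)
    rw [EE_resample S.P hP1 (S.own z), ← EE_const hP1 (S.θ * E ^ n)]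
    refine EE_mono hP0 fun ω _ => ?_
    have h1 : ∑ y, S.P (S.own z) y * ∑ v, S.pr (Function.update ω (S.own z) y) z v *
        ind (S.bad (Function.update ω (S.own z) y) z v) =
        (∑ y ∈ S.C (S.jj z), ∑ v, S.pr (Function.update ω (S.own z) y) z v *
          ind (S.bad ω z v)) / (S.C (S.jj z)).card := by
      unfold SD.P
      rw [hS.own_cl z hz, unif_sum_mul]
      simp only [bad_own]
    rw [h1, div_le_iff₀ hc, sum_comm]
    have h2 : ∀ v : Fin n → X, ∑ y ∈ S.C (S.jj z), S.pr (Function.update ω (S.own z) y) z v *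
        ind (S.bad ω z v) ≤ (S.C (S.jj z)).card * (S.θ * ∏ l, tail_rho S D0 ω z l (v l)) := by
      intro v
      rw [← sum_mul, mul_comm]
      exact tail_bad S hS ω z hz v
    refine (sum_le_sum fun v _ => h2 v).trans ?_
    rw [← mul_sum, ← mul_sum]
    have h3 : ∑ v : Fin n → X, ∏ l, tail_rho S D0 ω z l (v l) =
        ∏ l, ∑ x, tail_rho S D0 ω z l x := by
      rw [← Fintype.prod_sum (fun l x => tail_rho S D0 ω z l x)]
    have h4 : ∏ l : Fin n, ∑ x, tail_rho S D0 ω z l x ≤ E ^ n := by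
      have h5 : ∏ l : Fin n, ∑ x, tail_rho S D0 ω z l x ≤ ∏ _l : Fin n, E :=
        prod_le_prod (fun l _ => sum_nonneg fun x _ => tail_rho_nonneg S hS ω z hz l x)
          (fun l _ => tail_rho_sum S D0 E hS.D00 hE hE0 ω z l)
      simpa using h5
    rw [h3, mul_comm]
    exact mul_le_mul_of_nonneg_right (mul_le_mul_of_nonneg_left h4 hS.θ0.le) hc.le
  unfold SD.tail
  rw [EE_sum]
  have h6 : ∀ z ∈ S.actO, EE S.P (fun ω => A * ∑ v, S.pr ω z v * ind (S.bad ω z v)) ≤
      A * (S.θ * E ^ n) := by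
    intro z hz
    rw [EE_smul]
    exact mul_le_mul_of_nonneg_left (key z hz) hA
  refine (sum_le_sum h6).trans ?_
  rw [sum_const, nsmul_eq_mul]
  have h7 : (S.actO.card : ℝ) ≤ Fintype.card Z := by exact_mod_cast card_le_univ _
  have h8 : 0 ≤ A * (S.θ * E ^ n) := mul_nonneg hA hθE
  calc (S.actO.card : ℝ) * (A * (S.θ * E ^ n)) ≤ Fintype.card Z * (A * (S.θ * E ^ n)) :=
        mul_le_mul_of_nonneg_right h7 h8
    _ = A * Fintype.card Z * (S.θ * E ^ n) := by ring

end tail

end Pool.Agent.QA
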