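import Pool.Agent.QA.Basic
import Pool.Agent.QA.Tools

/-!
Project QA (MP_a55b9e_co), row QA-8: usage of the vertices (mean and concentration).
-/

set_option autoImplicit false

open Finset

namespace Pool.Agent.QA

open Pool.Agent.H73.Cube (EE)

section use

variable {X Y T ι Z : Type} {n : ℕ} [Fintype X] [Fintype Y] [DecidableEq Y] [Fintype ι]
  [DecidableEq ι] [Fintype Z] [DecidableEq Z] (S : SD X Y T ι Z n) {K Vb : ℕ} {D0 ξ : ℝ}

open Pool.Agent.H73.Cube (EE_mono EE_smul EE_sum mcdW_upper)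

omit [Fintype Y] [Fintype ι] [Fintype Z] [DecidableEq Z] in
theorem use_P0 (i : ι) (y : Y) : 0 ≤ S.P i y := unif_nonneg _ _

omit [Fintype ι] [Fintype Z] [DecidableEq Z] in
theorem use_P1 (hS : S.Ok K Vb D0 ξ) (i : ι) : ∑ y, S.P i y = 1 := by
  refine unif_sum _ ?_
  rw [← Finset.card_pos]
  have h := hS.hξ (S.cl i)
  have h0 := hS.ξ0
  have h1 : (0 : ℝ) < (S.C (S.cl i)).card := lt_of_lt_of_le h0 h
  exact_mod_cast h1

omit [Fintype Y] [Fintype ι] [Fintype Z] [DecidableEq Z] in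
theorem use_mn_nonneg (hS : S.Ok K Vb D0 ξ) (j : T) (x : X) : 0 ≤ mn S.a (S.C j) x := by
  unfold mn
  refine div_nonneg (sum_nonneg fun y _ => ?_) (Nat.cast_nonneg _)
  rcases hS.a01 x y with h | h <;> rw [h] <;> norm_num

omit [Fintype Z] [DecidableEq Z] in
theorem use_wx (hS : S.Ok K Vb D0 ξ) (z : Z) (hz : z ∈ S.act) (x : X) :
    EE S.P (fun ω => wx S.a (S.C (S.jj z)) S.τ (S.I z).card (S.I z) ω x) ≤
      mn S.a (S.C (S.jj z)) x := by
  unfold wx
  rw [EE_smul, EE_prod S.P (use_P1 S hS) (S.I z) (fun _ y => S.a x y)]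
  have h1 : ∏ i ∈ S.I z, ∑ y, S.P i y * S.a x y = mn S.a (S.C (S.jj z)) x ^ (S.I z).card := by
    rw [← Finset.prod_const]
    refine prod_congr rfl fun i hi => ?_
    unfold SD.P
    rw [unif_sum_mul, hS.hI z hz i hi]
    rfl
  rw [h1]
  unfold gw
  split_ifs with h
  · have h2 : 0 < mn S.a (S.C (S.jj z)) x := lt_of_lt_of_le hS.τ0 h
    rw [mul_assoc, inv_mul_cancel₀ (pow_pos h2 _).ne', mul_one]
  · rw [zero_mul]
    exact use_mn_nonneg S hS _ x

theorem use_mean (hS : S.Ok K Vb D0 ξ) (A : ℝ) (hA : 0 ≤ A) (x : X) :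
    EE S.P (fun ω => S.use A ω x) ≤ ∑ z ∈ S.act, A * (mn S.a (S.C (S.jj z)) x / D0) := by
  unfold SD.use
  rw [EE_sum]
  refine sum_le_sum fun z hz => ?_
  rw [EE_smul]
  refine mul_le_mul_of_nonneg_left ?_ hA
  have h1 : EE S.P (fun ω => S.q ω z x) ≤
      EE S.P (fun ω => D0⁻¹ * wx S.a (S.C (S.jj z)) S.τ (S.I z).card (S.I z) ω x) := by
    refine EE_mono (use_P0 S) fun ω _ => ?_
    have h := q_le_wx S hS ω z x
    rw [div_eq_mul_inv, mul_comm] at h
    exact h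
  refine h1.trans ?_
  rw [EE_smul, div_eq_mul_inv, mul_comm]
  exact mul_le_mul_of_nonneg_right (use_wx S hS z hz x) (inv_nonneg.2 hS.D00.le)

omit [Fintype X] [Fintype Y] [DecidableEq Y] [DecidableEq Z] in
theorem use_count (hK : ∀ z ∈ S.act, (S.I z).card ≤ K)
    (hV : ∀ i, (S.act.filter fun z => i ∈ S.I z).card ≤ Vb) :
    ∑ i, (S.act.filter fun z => i ∈ S.I z).card ^ 2 ≤ K * Fintype.card Z * Vb := by
  have h1 : ∑ i, (S.act.filter fun z => i ∈ S.I z).card = ∑ z ∈ S.act, (S.I z).card := by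
    simp_rw [card_filter]
    rw [sum_comm]
    refine sum_congr rfl fun z _ => ?_
    rw [← card_filter]
    congr 1
    ext i
    simp
  have h2 : ∑ z ∈ S.act, (S.I z).card ≤ K * Fintype.card Z := by
    calc ∑ z ∈ S.act, (S.I z).card ≤ ∑ _z ∈ S.act, K := sum_le_sum hK
      _ = S.act.card * K := by rw [sum_const, smul_eq_mul]
      _ ≤ Fintype.card Z * K := Nat.mul_le_mul_right _ (card_le_univ _)
      _ = K * Fintype.card Z := mul_comm _ _
  calc ∑ i, (S.act.filter fun z => i ∈ S.I z).card ^ 2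
      ≤ ∑ i, (S.act.filter fun z => i ∈ S.I z).card * Vb := by
        refine sum_le_sum fun i _ => ?_
        rw [sq]
        exact Nat.mul_le_mul_left _ (hV i)
    _ = (∑ i, (S.act.filter fun z => i ∈ S.I z).card) * Vb := by rw [sum_mul]
    _ ≤ K * Fintype.card Z * Vb := by
        rw [h1]
        exact Nat.mul_le_mul_right _ h2

omit [Fintype Y] [Fintype ι] [Fintype Z] [DecidableEq Z] in
theorem use_diff (hS : S.Ok K Vb D0 ξ) (A : ℝ) (hA : 0 ≤ A) (x : X) (i : ι) (ω : ι → Y)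
    (y : Y) : |S.use A (Function.update ω i y) x - S.use A ω x| ≤
      ((S.act.filter fun z => i ∈ S.I z).card : ℝ) * (A * ((S.τ ^ K)⁻¹ / D0)) := by
  unfold SD.use
  rw [← sum_sub_distrib, ← sum_filter_add_sum_filter_not S.act (fun z => i ∈ S.I z)]
  have h0 : ∑ z ∈ S.act.filter (fun z => ¬ i ∈ S.I z),
      (A * S.q (Function.update ω i y) z x - A * S.q ω z x) = 0 := by
    refine sum_eq_zero fun z hz => ?_
    rw [mem_filter] at hz
    rw [q_congr S (Function.update ω i y) ω z (fun i' hi' => ?_) x, sub_self]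
    rw [Function.update_of_ne]
    rintro rfl
    exact hz.2 hi'
  rw [h0, add_zero, ← nsmul_eq_mul]
  refine (abs_sum_le_sum_abs _ _).trans ?_
  refine sum_le_card_nsmul _ _ _ fun z hz => ?_
  rw [mem_filter] at hz
  rw [← mul_sub, abs_mul, abs_of_nonneg hA]
  refine mul_le_mul_of_nonneg_left ?_ hA
  have a1 := q_nonneg S hS (Function.update ω i y) z x
  have a2 := q_nonneg S hS ω z x
  have a3 := q_le S hS (Function.update ω i y) z hz.1 x
  have a4 := q_le S hS ω z hz.1 x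
  rw [abs_le]
  constructor <;> linarith

theorem use_conc (hS : S.Ok K Vb D0 ξ) (A : ℝ) (hA : 0 ≤ A) (x : X) (t V : ℝ) (ht : 0 ≤ t)
    (hV : 0 < V) (hVb : (K * Fintype.card Z * Vb : ℕ) * (A * ((S.τ ^ K)⁻¹ / D0)) ^ 2 ≤ V) :
    EE S.P (fun ω => ind (EE S.P (fun ω => S.use A ω x) + t ≤ S.use A ω x)) ≤
      Real.exp (-(t ^ 2 / (2 * V))) := by
  have hQ : 0 ≤ A * ((S.τ ^ K)⁻¹ / D0) :=
    mul_nonneg hA (div_nonneg (inv_nonneg.2 (pow_nonneg hS.τ0.le _)) hS.D00.le)
  have hc : ∑ i, (((S.act.filter fun z => i ∈ S.I z).card : ℝ) *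
      (A * ((S.τ ^ K)⁻¹ / D0))) ^ 2 ≤ V := by
    refine le_trans ?_ hVb
    simp_rw [mul_pow]
    rw [← sum_mul, ← mul_pow]
    refine mul_le_mul_of_nonneg_right ?_ (sq_nonneg _)
    have h := use_count S hS.hK hS.hV
    exact_mod_cast h
  have h := mcdW_upper (use_P0 S) (use_P1 S hS) (fun ω => S.use A ω x)
    (fun i => ((S.act.filter fun z => i ∈ S.I z).card : ℝ) * (A * ((S.τ ^ K)⁻¹ / D0)))
    (fun i => mul_nonneg (Nat.cast_nonneg _) hQ) (fun i ω y => use_diff S hS A hA x i ω y)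
    t V ht hV hc
  refine le_trans (le_of_eq ?_) h
  unfold EE
  refine sum_congr rfl fun ω _ => ?_
  congr 1

end use

end Pool.Agent.QA
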