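import Pool.Agent.QA.Tools
import Pool.Agent.QA.Use
import Pool.Agent.QA.Load
import Pool.Agent.QA.LoadConc
import Pool.Agent.QA.Tail

/-!
Project QA (MP_a55b9e_co), row QA-12: the union bound of stage one.
-/

set_option autoImplicit false

open Finset

namespace Pool.Agent.QA

open Pool.Agent.H73.Cube (EE EE_const EE_add EE_smul EE_sum EE_mono exists_lt_one)

section small

variable {X Y T ι Z : Type} {n : ℕ} [Fintype X] [DecidableEq Y] [DecidableEq ι]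
  (S : SD X Y T ι Z n) {K Vb : ℕ} {D0 ξ : ℝ}

theorem stg_pr_nonneg (hS : S.Ok K Vb D0 ξ) (ω : ι → Y) (z : Z) (v : Fin n → X) :
    0 ≤ S.pr ω z v := by
  have ha : ∀ x y, 0 ≤ S.a x y := fun x y => by
    rcases hS.a01 x y with h | h <;> rw [h]
    exact zero_le_one
  have hw : ∀ (C : Finset Y) (k : ℕ) (I : Finset ι) (x : X), 0 ≤ wx S.a C S.τ k I ω x := by
    intro C k I x
    have hm : 0 ≤ mn S.a C x := by
      unfold mn
      exact div_nonneg (sum_nonneg fun y _ => ha x y) (Nat.cast_nonneg _)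
    have hg : 0 ≤ gw S.a C S.τ k x := by
      unfold gw
      split_ifs
      · positivity
      · exact le_rfl
    unfold wx
    exact mul_nonneg hg (prod_nonneg fun i _ => ha _ _)
  unfold SD.pr
  refine prod_nonneg fun l _ => ?_
  unfold SD.q qd
  exact mul_nonneg (ind_nonneg _) (div_nonneg (hw _ _ _ _) (sum_nonneg fun x' _ => hw _ _ _ _))

theorem stg_tail_nonneg (hS : S.Ok K Vb D0 ξ) (A : ℝ) (hA : 0 ≤ A) (ω : ι → Y) :
    0 ≤ S.tail A ω := by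
  unfold SD.tail
  exact sum_nonneg fun z _ => mul_nonneg hA
    (sum_nonneg fun v _ => mul_nonneg (stg_pr_nonneg S hS ω z v) (ind_nonneg _))

theorem stg_ind_zero {p : Prop} (h : ind p < 1) : ¬ p := fun hp => by
  rw [ind_true hp] at h
  exact lt_irrefl _ h

theorem stg_unif_pos (C : Finset Y) (y : Y) (h : 0 < unif C y) : y ∈ C := by
  by_contra hy
  unfold unif at h
  rw [if_neg hy] at h
  exact lt_irrefl _ h

end small

section use

variable {X Y T ι Z : Type} {n : ℕ} [Fintype X] [Fintype Y] [DecidableEq Y] [Fintype ι]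
  [DecidableEq ι] [Fintype Z] [DecidableEq Z] (S : SD X Y T ι Z n) {K Vb : ℕ} {D0 ξ : ℝ}

theorem stg_P_nonneg (i : ι) (y : Y) : 0 ≤ S.P i y := unif_nonneg _ _

theorem stg_P_sum (hS : S.Ok K Vb D0 ξ) (i : ι) : ∑ y, S.P i y = 1 := by
  refine unif_sum _ ?_
  rw [← card_pos]
  have h1 := hS.hξ (S.cl i)
  have h2 := hS.ξ0
  have h3 : (0 : ℝ) < (S.C (S.cl i)).card := by linarith
  exact_mod_cast h3

theorem stg_aty (hS : S.Ok K Vb D0 ξ) (ε₂ : ℝ) (hε₂ : 0 < ε₂)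
    (htyp : ∀ z ∈ S.fin, ∀ J ⊆ S.L3 z,
      EE S.P (fun ω => ind (¬ Typ S.a (S.C (S.jj z)) S.τ S.ε J ω)) ≤ ε₂) :
    EE S.P (fun ω => ∑ z ∈ S.fin,
      ind (∃ J ⊆ S.L3 z, ¬ Typ S.a (S.C (S.jj z)) S.τ S.ε J ω)) ≤
        2 ^ K * ε₂ * Fintype.card Z := by
  have h1 : EE S.P (fun ω => ∑ z ∈ S.fin,
      ind (∃ J ⊆ S.L3 z, ¬ Typ S.a (S.C (S.jj z)) S.τ S.ε J ω)) ≤
      EE S.P (fun ω => ∑ z ∈ S.fin, ∑ J ∈ (S.L3 z).powerset,
        ind (¬ Typ S.a (S.C (S.jj z)) S.τ S.ε J ω)) := by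
    refine EE_mono (stg_P_nonneg S) fun ω _ => sum_le_sum fun z _ => ?_
    by_cases h : ∃ J ⊆ S.L3 z, ¬ Typ S.a (S.C (S.jj z)) S.τ S.ε J ω
    · obtain ⟨J, hJ, hJt⟩ := h
      refine (ind_le_one _).trans ?_
      rw [← ind_true hJt]
      exact single_le_sum (f := fun J => ind (¬ Typ S.a (S.C (S.jj z)) S.τ S.ε J ω))
        (fun J' _ => ind_nonneg _) (mem_powerset.2 hJ)
    · rw [ind_false h]
      exact sum_nonneg fun J _ => ind_nonneg _
  refine h1.trans ?_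
  rw [EE_sum]
  have h2 : ∀ z ∈ S.fin, EE S.P (fun ω => ∑ J ∈ (S.L3 z).powerset,
      ind (¬ Typ S.a (S.C (S.jj z)) S.τ S.ε J ω)) ≤ 2 ^ K * ε₂ := by
    intro z hz
    rw [EE_sum]
    calc ∑ J ∈ (S.L3 z).powerset,
        EE S.P (fun ω => ind (¬ Typ S.a (S.C (S.jj z)) S.τ S.ε J ω)) ≤
        ∑ J ∈ (S.L3 z).powerset, ε₂ :=
          sum_le_sum fun J hJ => htyp z hz J (mem_powerset.1 hJ)
      _ = (2 : ℝ) ^ (S.L3 z).card * ε₂ := by
          rw [sum_const, card_powerset, nsmul_eq_mul]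
          push_cast
          ring
      _ ≤ 2 ^ K * ε₂ := by
          refine mul_le_mul_of_nonneg_right ?_ hε₂.le
          exact pow_le_pow_right₀ (by norm_num) (hS.hK3 z hz)
  calc ∑ z ∈ S.fin, EE S.P (fun ω => ∑ J ∈ (S.L3 z).powerset,
      ind (¬ Typ S.a (S.C (S.jj z)) S.τ S.ε J ω)) ≤ ∑ z ∈ S.fin, 2 ^ K * ε₂ := sum_le_sum h2
    _ ≤ ∑ z : Z, 2 ^ K * ε₂ :=
        sum_le_sum_of_subset_of_nonneg (subset_univ _) fun _ _ _ => by positivity
    _ = 2 ^ K * ε₂ * Fintype.card Z := by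
        rw [sum_const, nsmul_eq_mul, card_univ]
        ring

theorem stage_one (hS : S.Ok K Vb D0 ξ) (hZ : Nonempty Z) (A E U L ε₂ t V₁ V₂ : ℝ) (hA : 0 < A)
    (hE0 : 0 < E) (hε₂ : 0 < ε₂) (ht : 0 ≤ t) (hE : (1 + S.ε) * Fintype.card X ≤ E * D0)
    (hU : ∀ x, ∑ z ∈ S.act, A * (mn S.a (S.C (S.jj z)) x / D0) ≤ U)
    (hL : ∀ y, (∑ z ∈ S.actO, if y ∈ S.C (S.jj z) then A / (S.C (S.jj z)).card else 0) ≤ L)
    (htyp : ∀ z ∈ S.fin, ∀ J ⊆ S.L3 z,
      EE S.P (fun ω => ind (¬ Typ S.a (S.C (S.jj z)) S.τ S.ε J ω)) ≤ ε₂)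
    (hV₁0 : 0 < V₁) (hV₁ : (K * Fintype.card Z * Vb : ℕ) * (A * ((S.τ ^ K)⁻¹ / D0)) ^ 2 ≤ V₁)
    (hV₂0 : 0 < V₂) (hV₂ : (K * Fintype.card Z * Vb : ℕ) * (A * (S.θ * ξ)⁻¹) ^ 2 ≤ V₂)
    (hnum : Fintype.card X * Real.exp (-(t ^ 2 / (2 * V₁))) +
      Fintype.card Y * Real.exp (-(t ^ 2 / (2 * V₂))) < 1 / 2) :
    ∃ ω : ι → Y, (∀ i, ω i ∈ S.C (S.cl i)) ∧ (∀ x, S.use A ω x ≤ U + t) ∧
      (∀ y, S.load A ω y ≤ L + t) ∧
      S.tail A ω ≤ 4 * (A * Fintype.card Z * (S.θ * E ^ n)) ∧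
      ∑ z ∈ S.fin, ind (∃ J ⊆ S.L3 z, ¬ Typ S.a (S.C (S.jj z)) S.τ S.ε J ω) ≤
        4 * (2 ^ K * ε₂ * Fintype.card Z) := by
  have hZc : (0 : ℝ) < Fintype.card Z := by exact_mod_cast Fintype.card_pos
  set tm : ℝ := A * Fintype.card Z * (S.θ * E ^ n) with htm
  have htm0 : 0 < tm := by
    have := hS.θ0
    positivity
  set am : ℝ := 2 ^ K * ε₂ * Fintype.card Z with ham
  have ham0 : 0 < am := by positivity
  -- the four parts
  set fx : (ι → Y) → ℝ := fun ω => ∑ x, ind (EE S.P (fun ω => S.use A ω x) + t ≤ S.use A ω x)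
    with hfx
  set fy : (ι → Y) → ℝ := fun ω => ∑ y, ind (EE S.P (fun ω => S.load A ω y) + t ≤ S.load A ω y)
    with hfy
  set at4 : (ι → Y) → ℝ := fun ω => ∑ z ∈ S.fin,
    ind (∃ J ⊆ S.L3 z, ¬ Typ S.a (S.C (S.jj z)) S.τ S.ε J ω) with hat4
  have hx : EE S.P fx ≤ Fintype.card X * Real.exp (-(t ^ 2 / (2 * V₁))) := by
    rw [hfx, EE_sum]
    calc ∑ x, EE S.P (fun ω => ind (EE S.P (fun ω => S.use A ω x) + t ≤ S.use A ω x)) ≤
        ∑ _x : X, Real.exp (-(t ^ 2 / (2 * V₁))) :=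
          sum_le_sum fun x _ => use_conc S hS A hA.le x t V₁ ht hV₁0 hV₁
      _ = _ := by rw [sum_const, nsmul_eq_mul, card_univ]
  have hy : EE S.P fy ≤ Fintype.card Y * Real.exp (-(t ^ 2 / (2 * V₂))) := by
    rw [hfy, EE_sum]
    calc ∑ y, EE S.P (fun ω => ind (EE S.P (fun ω => S.load A ω y) + t ≤ S.load A ω y)) ≤
        ∑ _y : Y, Real.exp (-(t ^ 2 / (2 * V₂))) :=
          sum_le_sum fun y _ => load_conc S hS A hA.le y t V₂ ht hV₂0 hV₂
      _ = _ := by rw [sum_const, nsmul_eq_mul, card_univ]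
  have htl : EE S.P (fun ω => (4 * tm)⁻¹ * S.tail A ω) ≤ 1 / 4 := by
    rw [EE_smul]
    have h1 := tail_mean S hS A E hA.le hE
    calc (4 * tm)⁻¹ * EE S.P (fun ω => S.tail A ω) ≤ (4 * tm)⁻¹ * tm :=
          mul_le_mul_of_nonneg_left h1 (by positivity)
      _ = 1 / 4 := by field_simp
  have hta : EE S.P (fun ω => (4 * am)⁻¹ * at4 ω) ≤ 1 / 4 := by
    rw [EE_smul]
    have h1 := stg_aty S hS ε₂ hε₂ htyp
    calc (4 * am)⁻¹ * EE S.P (fun ω => at4 ω) ≤ (4 * am)⁻¹ * am :=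
          mul_le_mul_of_nonneg_left h1 (by positivity)
      _ = 1 / 4 := by field_simp
  have htot : EE S.P (fun ω => (fx ω + fy ω) +
      ((4 * tm)⁻¹ * S.tail A ω + (4 * am)⁻¹ * at4 ω)) < 1 := by
    rw [EE_add (fun ω => fx ω + fy ω)
      (fun ω => (4 * tm)⁻¹ * S.tail A ω + (4 * am)⁻¹ * at4 ω), EE_add fx fy,
      EE_add (fun ω => (4 * tm)⁻¹ * S.tail A ω) (fun ω => (4 * am)⁻¹ * at4 ω)]
    linarith
  obtain ⟨ω, hω, hlt⟩ := exists_lt_one (stg_P_nonneg S) (stg_P_sum S hS) _ htot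
  have p1 : 0 ≤ fx ω := sum_nonneg fun x _ => ind_nonneg _
  have p2 : 0 ≤ fy ω := sum_nonneg fun y _ => ind_nonneg _
  have p3 : 0 ≤ (4 * tm)⁻¹ * S.tail A ω :=
    mul_nonneg (by positivity) (stg_tail_nonneg S hS A hA.le ω)
  have p4 : 0 ≤ (4 * am)⁻¹ * at4 ω :=
    mul_nonneg (by positivity) (sum_nonneg fun z _ => ind_nonneg _)
  refine ⟨ω, fun i => stg_unif_pos _ _ (hω i), fun x => ?_, fun y => ?_, ?_, ?_⟩
  · have h1 : ind (EE S.P (fun ω => S.use A ω x) + t ≤ S.use A ω x) ≤ fx ω :=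
      single_le_sum (f := fun x => ind (EE S.P (fun ω => S.use A ω x) + t ≤ S.use A ω x))
        (fun x _ => ind_nonneg _) (mem_univ x)
    have h2 := stg_ind_zero (p := EE S.P (fun ω => S.use A ω x) + t ≤ S.use A ω x)
      (by linarith)
    have h3 := use_mean S hS A hA.le x
    have h4 := hU x
    push Not at h2
    linarith
  · have h1 : ind (EE S.P (fun ω => S.load A ω y) + t ≤ S.load A ω y) ≤ fy ω :=
      single_le_sum (f := fun y => ind (EE S.P (fun ω => S.load A ω y) + t ≤ S.load A ω y))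
        (fun y _ => ind_nonneg _) (mem_univ y)
    have h2 := stg_ind_zero (p := EE S.P (fun ω => S.load A ω y) + t ≤ S.load A ω y)
      (by linarith)
    have h3 := load_mean S hS A hA.le y
    have h4 := hL y
    push Not at h2
    linarith
  · have h1 : (4 * tm)⁻¹ * S.tail A ω < 1 := by linarith
    rw [inv_mul_lt_iff₀ (by positivity)] at h1
    linarith
  · have h1 : (4 * am)⁻¹ * at4 ω < 1 := by linarith
    rw [inv_mul_lt_iff₀ (by positivity)] at h1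
    linarith

end use

end Pool.Agent.QA
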