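import Pool.Agent.QA.Defs

set_option autoImplicit false

open Finset

namespace Pool.Agent.QA

theorem wHall {O Y : Type} [DecidableEq O] [Fintype Y] [DecidableEq Y] (Oa : Finset O)
    (w : O → Y → ℝ) (h0 : ∀ b y, 0 ≤ w b y) (h1 : ∀ b ∈ Oa, ∑ y, w b y = 1)
    (h2 : ∀ y, ∑ b ∈ Oa, w b y ≤ 1) [Nonempty Y] :
    ∃ ψ : O → Y, (∀ b ∈ Oa, 0 < w b (ψ b)) ∧ Set.InjOn ψ Oa := by
  classical
  let N : {b // b ∈ Oa} → Finset Y := fun b => univ.filter fun y => 0 < w b.1 y
  have key : ∀ s : Finset {b // b ∈ Oa}, s.card ≤ (s.biUnion N).card := by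
    intro s
    have e1 : (s.card : ℝ) = ∑ b ∈ s, ∑ y, w b.1 y := by
      rw [Finset.sum_congr rfl (fun b _ => h1 b.1 b.2)]
      simp
    have e2 : ∀ b ∈ s, ∑ y, w b.1 y = ∑ y ∈ s.biUnion N, w b.1 y := by
      intro b hb
      symm
      apply Finset.sum_subset (Finset.subset_univ _)
      intro y _ hy
      by_contra hne
      apply hy
      rw [Finset.mem_biUnion]
      refine ⟨b, hb, ?_⟩
      simp only [N, Finset.mem_filter, Finset.mem_univ, true_and]
      exact lt_of_le_of_ne (h0 _ _) (Ne.symm hne)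
    have e3 : (s.card : ℝ) = ∑ y ∈ s.biUnion N, ∑ b ∈ s, w b.1 y := by
      rw [e1, Finset.sum_congr rfl e2, Finset.sum_comm]
    have e4 : ∀ y ∈ s.biUnion N, ∑ b ∈ s, w b.1 y ≤ 1 := by
      intro y _
      refine le_trans ?_ (h2 y)
      rw [← Finset.sum_coe_sort Oa (fun b => w b y)]
      exact Finset.sum_le_sum_of_subset_of_nonneg (Finset.subset_univ _) (fun b _ _ => h0 _ _)
    have e5 : (s.card : ℝ) ≤ ((s.biUnion N).card : ℝ) := by
      rw [e3]
      refine le_trans (Finset.sum_le_sum e4) ?_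
      simp
    exact_mod_cast e5
  obtain ⟨f, hf, hfN⟩ := (Finset.all_card_le_biUnion_card_iff_exists_injective N).mp key
  refine ⟨fun b => if h : b ∈ Oa then f ⟨b, h⟩ else Classical.arbitrary Y, ?_, ?_⟩
  · intro b hb
    have := hfN ⟨b, hb⟩
    simp only [N, Finset.mem_filter, Finset.mem_univ, true_and] at this
    simpa [hb] using this
  · intro b hb c hc hbc
    have hb' : b ∈ Oa := hb
    have hc' : c ∈ Oa := hc
    simp only [hb', hc', dif_pos] at hbc
    have := hf hbc
    exact congrArg Subtype.val this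

theorem extend_inj {Q V : Type} [Fintype Q] [Fintype V] [DecidableEq Q] [DecidableEq V]
    (hc : Fintype.card Q = Fintype.card V) (f : Q → V) (s : Finset Q) (hf : Set.InjOn f s) :
    ∃ φ : Q ≃ V, ∀ x ∈ s, φ x = f x := by
  obtain ⟨g, hg⟩ := Finset.exists_equiv_extend_of_card_eq (s := s) (f := f) (t := (univ : Finset V))
    (by simpa using hc) (Finset.subset_univ _) hf
  refine ⟨g.trans (Equiv.subtypeUnivEquiv (fun x => Finset.mem_univ x)), ?_⟩
  intro x hx
  simpa using hg x hx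

end Pool.Agent.QA
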