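import Pool.Agent.QA.Defs
import Pool.Agent.QA.Chernoff
import Pool.Agent.H73.Cube.Cells

/-!
Project QA (MP_a55b9e_co), row QA-14: random choice of the blocks (helper3).
-/

set_option autoImplicit false

open Finset

namespace Pool.Agent.QA

open Pool.Agent.H73.Cube (EE)

/-- the law of the block picked by `x` -/
noncomputable def pickP {X B : Type} [DecidableEq B] (r : ℝ) (q : B → X → ℝ) (Act : Finset B)
    (x : X) : Option B → ℝ
  | none => 1 - ∑ D ∈ Act, r * q D x
  | some D => if D ∈ Act then r * q D x else 0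

theorem pickP_nonneg {X B : Type} [DecidableEq B] (r : ℝ) (hr : 0 ≤ r) (q : B → X → ℝ)
    (hq0 : ∀ D x, 0 ≤ q D x) (Act : Finset B) (huse : ∀ x, ∑ D ∈ Act, r * q D x ≤ 1) (x : X)
    (o : Option B) : 0 ≤ pickP r q Act x o := by
  cases o with
  | none => exact sub_nonneg.2 (huse x)
  | some D =>
    show 0 ≤ if D ∈ Act then r * q D x else 0
    split_ifs
    · exact mul_nonneg hr (hq0 D x)
    · exact le_rfl

theorem pickP_sum {X B : Type} [Fintype B] [DecidableEq B] (r : ℝ) (q : B → X → ℝ)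
    (Act : Finset B) (x : X) : ∑ o, pickP r q Act x o = 1 := by
  rw [Fintype.sum_option]
  show (1 - ∑ D ∈ Act, r * q D x) + ∑ D, (if D ∈ Act then r * q D x else 0) = 1
  rw [sum_ite_mem, univ_inter]
  ring

/-- the vertices which pick `D` -/
def pickZ {X B : Type} [Fintype X] [DecidableEq B] (ω : X → Option B) (D : B) : Finset X :=
  univ.filter fun x => ω x = some D

open Classical in
/-- `s` elements of `Z` if there are so many -/
noncomputable def pickSel {X : Type} (s : ℕ) (Z : Finset X) : Finset X :=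
  if h : s ≤ Z.card then (exists_subset_card_eq h).choose else ∅

theorem pickSel_subset {X : Type} (s : ℕ) (Z : Finset X) : pickSel s Z ⊆ Z := by
  unfold pickSel
  split_ifs with h
  · exact (exists_subset_card_eq h).choose_spec.1
  · exact empty_subset _

theorem pickSel_card {X : Type} (s : ℕ) (Z : Finset X) (h : s ≤ Z.card) :
    (pickSel s Z).card = s := by
  unfold pickSel
  rw [dif_pos h]
  exact (exists_subset_card_eq h).choose_spec.2

theorem pickSel_card_le {X : Type} (s : ℕ) (Z : Finset X) : (pickSel s Z).card ≤ s := by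
  by_cases h : s ≤ Z.card
  · exact (pickSel_card s Z h).le
  · unfold pickSel
    rw [dif_neg h, card_empty]
    exact Nat.zero_le _

/-- the blocks -/
noncomputable def pickE {X B : Type} [Fintype X] [DecidableEq B] (s : ℕ) (ω : X → Option B)
    (D : B) : Finset X := pickSel s (pickZ ω D)

theorem pickE_mem {X B : Type} [Fintype X] [DecidableEq B] (s : ℕ) (ω : X → Option B)
    (D : B) (x : X) (h : x ∈ pickE s ω D) : ω x = some D :=
  (mem_filter.1 (pickSel_subset s _ h)).2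

/-- average of `H` over the product of the blocks -/
noncomputable def pickT {X B : Type} [Fintype X] [DecidableEq B] {n : ℕ} (s : ℕ) (D : Fin n → B)
    (H : (Fin n → X) → ℝ) (ω : X → Option B) : ℝ :=
  ((s : ℝ) ^ n)⁻¹ * ∑ v ∈ Fintype.piFinset (fun l => pickE s ω (D l)), H v

theorem pickT_nonneg {X B : Type} [Fintype X] [DecidableEq B] {n : ℕ} (s : ℕ) (D : Fin n → B)
    (H : (Fin n → X) → ℝ) (hH : ∀ v, 0 ≤ H v) (ω : X → Option B) : 0 ≤ pickT s D H ω :=
  mul_nonneg (inv_nonneg.2 (pow_nonneg (Nat.cast_nonneg s) n)) (sum_nonneg fun v _ => hH v)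

theorem pickT_le {X B : Type} [Fintype X] [DecidableEq B] {n : ℕ} (s : ℕ) (hs : 1 ≤ s)
    (D : Fin n → B) (H : (Fin n → X) → ℝ) (β : ℝ) (hβ : 0 ≤ β) (hH : ∀ v, H v ≤ β)
    (ω : X → Option B) : pickT s D H ω ≤ β := by
  unfold pickT
  have hs0 : (0 : ℝ) < (s : ℝ) ^ n := pow_pos (by exact_mod_cast hs) n
  have h1 : ∑ v ∈ Fintype.piFinset (fun l => pickE s ω (D l)), H v ≤ (s : ℝ) ^ n * β := by
    refine (sum_le_card_nsmul _ _ β fun v _ => hH v).trans ?_
    rw [nsmul_eq_mul]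
    refine mul_le_mul_of_nonneg_right ?_ hβ
    rw [Fintype.card_piFinset]
    have h2 : ∏ l : Fin n, (pickE s ω (D l)).card ≤ ∏ _l : Fin n, s :=
      prod_le_prod' fun l _ => pickSel_card_le s _
    rw [prod_const, card_univ, Fintype.card_fin] at h2
    exact_mod_cast h2
  rw [inv_mul_le_iff₀ hs0]
  exact h1

theorem pickZ_update {X B : Type} [Fintype X] [DecidableEq X] [DecidableEq B]
    (ω : X → Option B) (x : X) (a : Option B) (D : B) (h1 : some D ≠ ω x) (h2 : some D ≠ a) :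
    pickZ (Function.update ω x a) D = pickZ ω D := by
  unfold pickZ
  refine filter_congr fun x' _ => ?_
  by_cases hx : x' = x
  · subst hx
    rw [Function.update_self]
    exact ⟨fun h => absurd h.symm h2, fun h => absurd h.symm h1⟩
  · rw [Function.update_of_ne hx]

theorem pickT_update {X B : Type} [Fintype X] [DecidableEq X] [DecidableEq B] {n : ℕ} (s : ℕ)
    (D : Fin n → B) (H : (Fin n → X) → ℝ) (ω : X → Option B) (x : X) (a : Option B)
    (h1 : ¬ ∃ l, some (D l) = ω x) (h2 : ¬ ∃ l, some (D l) = a) :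
    pickT s D H (Function.update ω x a) = pickT s D H ω := by
  unfold pickT pickE
  have h : (fun l => pickSel s (pickZ (Function.update ω x a) (D l))) =
      fun l => pickSel s (pickZ ω (D l)) := by
    funext l
    rw [pickZ_update ω x a (D l) (fun h => h1 ⟨l, h⟩) (fun h => h2 ⟨l, h⟩)]
  rw [h]

/-- number of indices which see a given pick -/
theorem pick_deg {B O : Type} [DecidableEq B] [DecidableEq O] {n : ℕ} (nb : O → Fin n → B)
    (Oa : Finset O) (Δ : ℕ) (hdeg : ∀ D, (Oa.filter fun b => ∃ l, nb b l = D).card ≤ Δ)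
    (o : Option B) : (Oa.filter fun b => ∃ l, some (nb b l) = o).card ≤ Δ := by
  cases o with
  | none =>
    have h : (Oa.filter fun b => ∃ l, some (nb b l) = (none : Option B)) = ∅ := by
      refine filter_eq_empty_iff.2 fun b _ => ?_
      rintro ⟨l, hl⟩
      exact Option.some_ne_none _ hl
    rw [h, card_empty]
    exact Nat.zero_le _
  | some D =>
    simp only [Option.some.injEq]
    exact hdeg D

/-- changing one pick changes at most `2 Δ` terms -/
theorem pick_diff {X B O : Type} [Fintype X] [DecidableEq X] [DecidableEq B] [DecidableEq O]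
    {n : ℕ} (s : ℕ) (hs : 1 ≤ s) (nb : O → Fin n → B) (Oa : Finset O) (Δ : ℕ)
    (hdeg : ∀ D, (Oa.filter fun b => ∃ l, nb b l = D).card ≤ Δ)
    (F : O → (Fin n → X) → ℝ) (β : ℝ) (hβ : 0 ≤ β) (hF0 : ∀ b v, 0 ≤ F b v)
    (hFβ : ∀ b v, F b v ≤ β) (x : X) (ω : X → Option B) (a : Option B) :
    |∑ b ∈ Oa, pickT s (nb b) (F b) (Function.update ω x a) -
      ∑ b ∈ Oa, pickT s (nb b) (F b) ω| ≤ 2 * Δ * β := by
  rw [← sum_sub_distrib]
  refine (abs_sum_le_sum_abs _ _).trans ?_
  have h1 : ∀ b ∈ Oa, |pickT s (nb b) (F b) (Function.update ω x a) -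
      pickT s (nb b) (F b) ω| ≤ (if ∃ l, some (nb b l) = ω x then β else 0) +
        (if ∃ l, some (nb b l) = a then β else 0) := by
    intro b _
    have h2 := pickT_nonneg s (nb b) (F b) (hF0 b) (Function.update ω x a)
    have h3 := pickT_le s hs (nb b) (F b) β hβ (hFβ b) (Function.update ω x a)
    have h4 := pickT_nonneg s (nb b) (F b) (hF0 b) ω
    have h5 := pickT_le s hs (nb b) (F b) β hβ (hFβ b) ω
    have h6 : |pickT s (nb b) (F b) (Function.update ω x a) - pickT s (nb b) (F b) ω| ≤ β := by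
      rw [abs_le]
      constructor <;> linarith
    by_cases h7 : ∃ l, some (nb b l) = ω x
    · rw [if_pos h7]
      split_ifs <;> linarith
    · by_cases h8 : ∃ l, some (nb b l) = a
      · rw [if_neg h7, if_pos h8]
        linarith
      · rw [if_neg h7, if_neg h8, pickT_update s (nb b) (F b) ω x a h7 h8, sub_self, abs_zero]
        linarith
  refine (sum_le_sum h1).trans ?_
  rw [sum_add_distrib, ← sum_filter, ← sum_filter, sum_const, sum_const, nsmul_eq_mul,
    nsmul_eq_mul]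
  have h2 : (((Oa.filter fun b => ∃ l, some (nb b l) = ω x).card : ℕ) : ℝ) ≤ Δ := by
    exact_mod_cast pick_deg nb Oa Δ hdeg (ω x)
  have h3 : (((Oa.filter fun b => ∃ l, some (nb b l) = a).card : ℕ) : ℝ) ≤ Δ := by
    exact_mod_cast pick_deg nb Oa Δ hdeg a
  nlinarith

/-- the probability that given vertices pick given different blocks -/
theorem pick_prob {X B : Type} [Fintype X] [DecidableEq X] [Fintype B] [DecidableEq B] {n : ℕ}
    (r : ℝ) (hr : 0 ≤ r) (q : B → X → ℝ) (hq0 : ∀ D x, 0 ≤ q D x) (Act : Finset B)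
    (D : Fin n → B) (hD : Function.Injective D) (hact : ∀ l, D l ∈ Act) (v : Fin n → X) :
    EE (pickP r q Act) (fun ω => ind (∀ l, ω (v l) = some (D l))) ≤ ∏ l, (r * q (D l) (v l)) := by
  by_cases hv : Function.Injective v
  · have h1 := Pool.Agent.H73.Cube.EE_marginal (P := pickP r q Act) (pickP_sum r q Act) v hv
      (fun u : Fin n → Option B => ind (∀ l, u l = some (D l)))
    refine le_of_eq (h1.trans ?_)
    rw [sum_eq_single (fun l => some (D l))]
    · rw [ind_true fun l => rfl, mul_one]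
      refine prod_congr rfl fun l _ => ?_
      show (if D l ∈ Act then r * q (D l) (v l) else 0) = _
      rw [if_pos (hact l)]
    · intro u _ hu
      rw [ind_false fun h => hu (funext h), mul_zero]
    · intro h
      exact absurd (mem_univ _) h
  · have h1 : ∀ ω : X → Option B, ind (∀ l, ω (v l) = some (D l)) = 0 := by
      intro ω
      refine ind_false fun h => hv ?_
      intro l l' hl
      have h2 := h l
      rw [hl, h l'] at h2
      exact hD (Option.some.inj h2).symm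
    simp only [h1]
    have h2 : EE (pickP r q Act) (fun _ => (0 : ℝ)) = 0 :=
      Pool.Agent.H73.Cube.EE_const (pickP_sum r q Act) 0
    rw [h2]
    exact prod_nonneg fun l _ => mul_nonneg hr (hq0 _ _)

/-- the mean of one term -/
theorem pick_mean {X B : Type} [Fintype X] [DecidableEq X] [Fintype B] [DecidableEq B] {n : ℕ}
    (s : ℕ) (hs : 1 ≤ s) (η : ℝ) (hη0 : 0 < η) (q : B → X → ℝ) (hq0 : ∀ D x, 0 ≤ q D x)
    (Act : Finset B) (huse : ∀ x, ∑ D ∈ Act, (1 + η) * s * q D x ≤ 1)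
    (D : Fin n → B) (hD : Function.Injective D) (hact : ∀ l, D l ∈ Act)
    (H : (Fin n → X) → ℝ) (hH : ∀ v, 0 ≤ H v) :
    EE (pickP ((1 + η) * s) q Act) (pickT s D H) ≤
      (1 + η) ^ n * ∑ v : Fin n → X, (∏ l, q (D l) (v l)) * H v := by
  have hr : 0 ≤ (1 + η) * (s : ℝ) := by positivity
  have hs0 : (0 : ℝ) < (s : ℝ) ^ n := pow_pos (by exact_mod_cast hs) n
  have h1 : ∀ ω : X → Option B, pickT s D H ω ≤
      ((s : ℝ) ^ n)⁻¹ * ∑ v : Fin n → X, H v * ind (∀ l, ω (v l) = some (D l)) := by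
    intro ω
    unfold pickT
    refine mul_le_mul_of_nonneg_left ?_ (inv_nonneg.2 hs0.le)
    have h2 : ∀ v ∈ Fintype.piFinset (fun l => pickE s ω (D l)),
        H v = H v * ind (∀ l, ω (v l) = some (D l)) := by
      intro v hv
      rw [Fintype.mem_piFinset] at hv
      rw [ind_true fun l => pickE_mem s ω (D l) (v l) (hv l), mul_one]
    rw [sum_congr rfl h2]
    exact sum_le_sum_of_subset_of_nonneg (subset_univ _)
      fun v _ _ => mul_nonneg (hH v) (ind_nonneg _)
  refine (Pool.Agent.H73.Cube.EE_mono (pickP_nonneg _ hr q hq0 Act huse)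
    fun ω _ => h1 ω).trans ?_
  rw [Pool.Agent.H73.Cube.EE_smul, Pool.Agent.H73.Cube.EE_sum]
  have h3 : ∀ v : Fin n → X, EE (pickP ((1 + η) * s) q Act)
      (fun ω => H v * ind (∀ l, ω (v l) = some (D l))) ≤
        ((1 + η) * s) ^ n * ((∏ l, q (D l) (v l)) * H v) := by
    intro v
    rw [Pool.Agent.H73.Cube.EE_smul]
    have h4 := mul_le_mul_of_nonneg_left (pick_prob _ hr q hq0 Act D hD hact v) (hH v)
    refine h4.trans (le_of_eq ?_)
    rw [prod_mul_distrib, prod_const, card_univ, Fintype.card_fin]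
    ring
  refine (mul_le_mul_of_nonneg_left (sum_le_sum fun v _ => h3 v) (inv_nonneg.2 hs0.le)).trans
    (le_of_eq ?_)
  rw [← mul_sum, mul_pow]
  field_simp

theorem picks {X B O Y : Type} [Fintype X] [DecidableEq X] [Fintype B] [DecidableEq B]
    [DecidableEq O] [Fintype Y] (n s : ℕ) (hs : 1 ≤ s) (η : ℝ) (hη0 : 0 < η) (hη1 : η ≤ 1)
    (q : B → X → ℝ) (hq0 : ∀ D x, 0 ≤ q D x) (Act : Finset B) (hq1 : ∀ D ∈ Act, ∑ x, q D x = 1)
    (huse : ∀ x, ∑ D ∈ Act, (1 + η) * s * q D x ≤ 1) (nb : O → Fin n → B) (Oa : Finset O)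
    (hact : ∀ b ∈ Oa, ∀ l, nb b l ∈ Act) (hinj : ∀ b ∈ Oa, Function.Injective (nb b)) (Δ : ℕ)
    (hdeg : ∀ D, (Oa.filter fun b => ∃ l, nb b l = D).card ≤ Δ)
    (F : Y → O → (Fin n → X) → ℝ) (β : ℝ) (hβ : 0 ≤ β) (hF0 : ∀ y b v, 0 ≤ F y b v)
    (hFβ : ∀ y b v, F y b v ≤ β) (G : O → (Fin n → X) → ℝ) (hG0 : ∀ b v, 0 ≤ G b v) (μ ν : ℝ)
    (hμ : ∀ y, ∑ b ∈ Oa, ∑ v : Fin n → X, (∏ l, q (nb b l) (v l)) * F y b v ≤ μ) (hν : 0 < ν)
    (hGν : ∑ b ∈ Oa, ∑ v : Fin n → X, (∏ l, q (nb b l) (v l)) * G b v ≤ ν) (t V : ℝ)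
    (ht : 0 ≤ t) (hV : 0 < V) (hVb : Fintype.card X * (2 * Δ * β) ^ 2 ≤ V)
    (hnum : Fintype.card B * Real.exp (-(η ^ 2 * s / 4)) +
      Fintype.card Y * Real.exp (-(t ^ 2 / (2 * V))) < 1 / 2) :
    ∃ E : B → Finset X, (∀ D ∈ Act, (E D).card = s) ∧
      (∀ D ∈ Act, ∀ D' ∈ Act, D ≠ D' → Disjoint (E D) (E D')) ∧
      (∀ D ∈ Act, ∀ x ∈ E D, 0 < q D x) ∧
      (∀ y, ∑ b ∈ Oa, ((s : ℝ) ^ n)⁻¹ * ∑ v ∈ Fintype.piFinset (fun l => E (nb b l)), F y b v ≤
        (1 + η) ^ n * μ + t) ∧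
      ∑ b ∈ Oa, ((s : ℝ) ^ n)⁻¹ * ∑ v ∈ Fintype.piFinset (fun l => E (nb b l)), G b v ≤
        2 * ((1 + η) ^ n * ν) := by
  classical
  have hr : 0 ≤ (1 + η) * (s : ℝ) := by positivity
  have hηn : 0 < (1 + η) ^ n := by positivity
  have hP0 := pickP_nonneg _ hr q hq0 Act huse
  have hP1 := pickP_sum ((1 + η) * (s : ℝ)) q Act
  set P : X → Option B → ℝ := pickP ((1 + η) * s) q Act with hP
  let f : Y → (X → Option B) → ℝ := fun y ω => ∑ b ∈ Oa, pickT s (nb b) (F y b) ω
  let g : (X → Option B) → ℝ := fun ω => ∑ b ∈ Oa, pickT s (nb b) (G b) ω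
  have hf : ∀ y, EE P (f y) ≤ (1 + η) ^ n * μ := by
    intro y
    have h1 := Pool.Agent.H73.Cube.EE_sum (P := P) Oa (fun b ω => pickT s (nb b) (F y b) ω)
    refine h1.le.trans ?_
    refine (sum_le_sum fun b hb => pick_mean s hs η hη0 q hq0 Act huse (nb b) (hinj b hb)
      (hact b hb) (F y b) (hF0 y b)).trans ?_
    rw [← mul_sum]
    exact mul_le_mul_of_nonneg_left (hμ y) hηn.le
  have hg : EE P g ≤ (1 + η) ^ n * ν := by
    have h1 := Pool.Agent.H73.Cube.EE_sum (P := P) Oa (fun b ω => pickT s (nb b) (G b) ω)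
    refine h1.le.trans ?_
    refine (sum_le_sum fun b hb => pick_mean s hs η hη0 q hq0 Act huse (nb b) (hinj b hb)
      (hact b hb) (G b) (hG0 b)).trans ?_
    rw [← mul_sum]
    exact mul_le_mul_of_nonneg_left hGν hηn.le
  have hΔβ : (0 : ℝ) ≤ 2 * Δ * β := by positivity
  have hconc : ∀ y, EE P (fun ω => if EE P (f y) + t ≤ f y ω then (1 : ℝ) else 0) ≤
      Real.exp (-(t ^ 2 / (2 * V))) := by
    intro y
    refine Pool.Agent.H73.Cube.mcdW_upper hP0 hP1 (f y) (fun _ => 2 * Δ * β) (fun _ => hΔβ) ?_ t V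
      ht hV ?_
    · intro x ω a
      exact pick_diff s hs nb Oa Δ hdeg (F y) β hβ (hF0 y) (hFβ y) x ω a
    · rw [sum_const, card_univ, nsmul_eq_mul]
      exact hVb
  have hch : ∀ D ∈ Act, EE P (fun ω => ind (((pickZ ω D).card : ℝ) < s)) ≤
      Real.exp (-(η ^ 2 * s / 4)) := by
    intro D hD
    refine chernoff P hP0 hP1 D s η (Nat.cast_nonneg s) hη0 hη1 ?_
    have h1 : ∀ x, P x (some D) = (1 + η) * s * q D x := by
      intro x
      show (if D ∈ Act then (1 + η) * s * q D x else 0) = _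
      rw [if_pos hD]
    rw [sum_congr rfl fun x _ => h1 x, ← mul_sum, hq1 D hD, mul_one]
  -- union bound
  have hν' : 0 < (1 + η) ^ n * ν := mul_pos hηn hν
  have hg' : (2 * ((1 + η) ^ n * ν))⁻¹ * EE P g ≤ 1 / 2 := by
    have h1 : (2 * ((1 + η) ^ n * ν))⁻¹ * EE P g ≤
        (2 * ((1 + η) ^ n * ν))⁻¹ * ((1 + η) ^ n * ν) :=
      mul_le_mul_of_nonneg_left hg (inv_nonneg.mpr (by positivity))
    refine h1.trans (le_of_eq ?_)
    field_simp
  have htot : EE P (fun ω => ((∑ D ∈ Act, ind (((pickZ ω D).card : ℝ) < s)) +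
      ∑ y, if EE P (f y) + t ≤ f y ω then (1 : ℝ) else 0) +
      (2 * ((1 + η) ^ n * ν))⁻¹ * g ω) < 1 := by
    rw [Pool.Agent.H73.Cube.EE_add, Pool.Agent.H73.Cube.EE_add, Pool.Agent.H73.Cube.EE_sum,
      Pool.Agent.H73.Cube.EE_sum, Pool.Agent.H73.Cube.EE_smul]
    have h1 : ∑ y : Y, EE P (fun ω => if EE P (f y) + t ≤ f y ω then (1 : ℝ) else 0) ≤
        Fintype.card Y * Real.exp (-(t ^ 2 / (2 * V))) := by
      refine (sum_le_sum fun y _ => hconc y).trans ?_
      rw [sum_const, card_univ, nsmul_eq_mul]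
    have h2 : ∑ D ∈ Act, EE P (fun ω => ind (((pickZ ω D).card : ℝ) < s)) ≤
        Fintype.card B * Real.exp (-(η ^ 2 * s / 4)) := by
      refine (sum_le_sum hch).trans ?_
      rw [sum_const, nsmul_eq_mul]
      refine mul_le_mul_of_nonneg_right ?_ (Real.exp_pos _).le
      exact_mod_cast card_le_univ Act
    linarith
  obtain ⟨ω, hω0, hω⟩ := Pool.Agent.H73.Cube.exists_lt_one hP0 hP1 _ htot
  have hsA : 0 ≤ ∑ D ∈ Act, ind (((pickZ ω D).card : ℝ) < s) :=
    sum_nonneg fun D _ => ind_nonneg _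
  have hsum0 : 0 ≤ ∑ y, if EE P (f y) + t ≤ f y ω then (1 : ℝ) else 0 :=
    sum_nonneg fun y _ => by split_ifs <;> norm_num
  have hg0 : 0 ≤ g ω := sum_nonneg fun b _ => pickT_nonneg s (nb b) (G b) (hG0 b) ω
  have hgω0 : 0 ≤ (2 * ((1 + η) ^ n * ν))⁻¹ * g ω :=
    mul_nonneg (inv_nonneg.mpr (by positivity)) hg0
  refine ⟨fun D => pickE s ω D, ?_, ?_, ?_, ?_, ?_⟩
  · intro D hD
    refine pickSel_card s _ ?_
    by_contra hlt
    have h1 : ((pickZ ω D).card : ℝ) < s := by
      exact_mod_cast not_le.1 hlt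
    have h2 : ind (((pickZ ω D).card : ℝ) < s) ≤
        ∑ D ∈ Act, ind (((pickZ ω D).card : ℝ) < s) :=
      single_le_sum (f := fun D => ind (((pickZ ω D).card : ℝ) < s))
        (fun D _ => ind_nonneg _) hD
    rw [ind_true h1] at h2
    linarith
  · intro D _ D' _ hDD
    rw [disjoint_left]
    intro x hx hx'
    have h1 := pickE_mem s ω D x hx
    rw [pickE_mem s ω D' x hx'] at h1
    exact hDD (Option.some.inj h1).symm
  · intro D hD x hx
    have h1 := hω0 x
    rw [pickE_mem s ω D x hx] at h1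
    have h2 : P x (some D) = (1 + η) * s * q D x := by
      show (if D ∈ Act then (1 + η) * s * q D x else 0) = _
      rw [if_pos hD]
    rw [h2] at h1
    by_contra h3
    have h4 : q D x = 0 := le_antisymm (not_lt.1 h3) (hq0 D x)
    rw [h4, mul_zero] at h1
    exact lt_irrefl _ h1
  · intro y
    have h1 : (if EE P (f y) + t ≤ f y ω then (1 : ℝ) else 0) < 1 := by
      have h2 : (if EE P (f y) + t ≤ f y ω then (1 : ℝ) else 0) ≤
          ∑ y, if EE P (f y) + t ≤ f y ω then (1 : ℝ) else 0 :=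
        single_le_sum (f := fun y => if EE P (f y) + t ≤ f y ω then (1 : ℝ) else 0)
          (fun y _ => by split_ifs <;> norm_num) (mem_univ y)
      linarith
    have h2 : ¬ (EE P (f y) + t ≤ f y ω) := by
      intro h
      rw [if_pos h] at h1
      exact lt_irrefl _ h1
    have h3 := hf y
    show f y ω ≤ (1 + η) ^ n * μ + t
    linarith [lt_of_not_ge h2]
  · have h1 : (2 * ((1 + η) ^ n * ν))⁻¹ * g ω < 1 := by linarith
    have h3 : 0 < 2 * ((1 + η) ^ n * ν) := by positivity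
    rw [inv_mul_lt_iff₀ h3, mul_one] at h1
    exact h1.le

end Pool.Agent.QA
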