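import Pool.Agent.QA.Defs

/-!
Project QA (MP_a55b9e_co), row QA-15: random shifts of the blocks (helper48).
-/

set_option autoImplicit false

open Finset

namespace Pool.Agent.QA

open Pool.Agent.H73.Cube (EE)

/-- an injection of `R` onto a set of the same size -/
theorem shifts_equiv {X R : Type} [DecidableEq X] [Nonempty X] [Fintype R] (E : Finset X)
    (h : E.card = Fintype.card R) :
    ∃ e : R → X, Function.Injective e ∧ univ.image e = E := by
  have h1 : Fintype.card R = Fintype.card E := by rw [Fintype.card_coe, h]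
  refine ⟨fun r => (Fintype.equivOfCardEq h1 r : X), ?_, ?_⟩
  · intro r r' hr
    exact (Fintype.equivOfCardEq h1).injective (Subtype.ext hr)
  · ext x
    simp only [mem_image, mem_univ, true_and]
    constructor
    · rintro ⟨r, rfl⟩
      exact (Fintype.equivOfCardEq h1 r).2
    · intro hx
      exact ⟨(Fintype.equivOfCardEq h1).symm ⟨x, hx⟩, by simp⟩

/-- sum over the shifts of the entries = sum over the product set -/
theorem shifts_sum {X R : Type} [DecidableEq X] [Fintype R] [AddCommGroup R] {n : ℕ}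
    (e : Fin n → R → X) (he : ∀ l, Function.Injective (e l)) (E : Fin n → Finset X)
    (hE : ∀ l, univ.image (e l) = E l) (r : Fin n → R) (H : (Fin n → X) → ℝ) :
    ∑ u : Fin n → R, H (fun l => e l (r l + u l)) = ∑ v ∈ Fintype.piFinset E, H v := by
  classical
  refine sum_bij (fun u _ => fun l => e l (r l + u l)) ?_ ?_ ?_ ?_
  · intro u _
    rw [Fintype.mem_piFinset]
    intro l
    rw [← hE l]
    exact mem_image_of_mem _ (mem_univ _)
  · intro u _ u' _ h
    funext l
    have h1 := he l (congrFun h l)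
    exact add_left_cancel h1
  · intro v hv
    rw [Fintype.mem_piFinset] at hv
    have h1 : ∀ l, ∃ u : R, e l u = v l := by
      intro l
      have h2 := hv l
      rw [← hE l, mem_image] at h2
      obtain ⟨u, _, hu⟩ := h2
      exact ⟨u, hu⟩
    choose u hu using h1
    refine ⟨fun l => u l - r l, mem_univ _, ?_⟩
    funext l
    show e l (r l + (u l - r l)) = v l
    rw [add_sub_cancel, hu]
  · intro u _
    rfl

/-- the mean of one term -/
theorem shifts_mean {X B R : Type} [Fintype B] [DecidableEq B] [DecidableEq X] [Fintype R]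
    [AddCommGroup R] {n : ℕ} (s : ℕ) (hs : Fintype.card R = s) (hs0 : 0 < s) (e : B → R → X)
    (E : B → Finset X) (D : Fin n → B) (hD : Function.Injective D)
    (he : ∀ l, Function.Injective (e (D l))) (hE : ∀ l, univ.image (e (D l)) = E (D l))
    (r : Fin n → R) (H : (Fin n → X) → ℝ) :
    EE (fun (_ : B) (_ : R) => (s : ℝ)⁻¹) (fun ω => H (fun l => e (D l) (r l + ω (D l)))) =
      ((s : ℝ) ^ n)⁻¹ * ∑ v ∈ Fintype.piFinset (fun l => E (D l)), H v := by
  have hP1 : ∀ i : B, ∑ a : R, (fun (_ : B) (_ : R) => (s : ℝ)⁻¹) i a = 1 := by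
    intro i
    have hs1 : (s : ℝ) ≠ 0 := by exact_mod_cast hs0.ne'
    simp only [sum_const, card_univ, nsmul_eq_mul, hs]
    exact mul_inv_cancel₀ hs1
  have h := Pool.Agent.H73.Cube.EE_marginal hP1 D hD
    (fun u : Fin n → R => H (fun l => e (D l) (r l + u l)))
  have h1 : EE (fun (_ : B) (_ : R) => (s : ℝ)⁻¹)
      (fun ω => H (fun l => e (D l) (r l + ω (D l)))) =
      ∑ v : Fin n → R, (∏ _j : Fin n, (s : ℝ)⁻¹) * H (fun l => e (D l) (r l + v l)) := h
  rw [h1, ← shifts_sum (fun l => e (D l)) he (fun l => E (D l)) hE r H, mul_sum]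
  refine sum_congr rfl fun u _ => ?_
  congr 1
  rw [prod_const, card_univ, Fintype.card_fin, inv_pow]

/-- changing one shift changes at most `Δ` terms -/
theorem shifts_diff {X B O R : Type} [DecidableEq B] [DecidableEq O] [Add R] {n : ℕ}
    (e : B → R → X) (nb : O → Fin n → B) (rr : O → Fin n → R) (Oa : Finset O) (Δ : ℕ)
    (hdeg : ∀ D, (Oa.filter fun b => ∃ l, nb b l = D).card ≤ Δ)
    (F : O → (Fin n → X) → ℝ) (β : ℝ) (hβ : 0 ≤ β) (hF0 : ∀ b v, 0 ≤ F b v)
    (hFβ : ∀ b v, F b v ≤ β) (D : B) (ω : B → R) (a : R) :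
    |∑ b ∈ Oa, F b (fun l => e (nb b l) (rr b l + Function.update ω D a (nb b l))) -
      ∑ b ∈ Oa, F b (fun l => e (nb b l) (rr b l + ω (nb b l)))| ≤ Δ * β := by
  rw [← sum_sub_distrib]
  refine (abs_sum_le_sum_abs _ _).trans ?_
  have h1 : ∀ b ∈ Oa, |F b (fun l => e (nb b l) (rr b l + Function.update ω D a (nb b l))) -
      F b (fun l => e (nb b l) (rr b l + ω (nb b l)))| ≤ if ∃ l, nb b l = D then β else 0 := by
    intro b _
    split_ifs with hb
    · have h2 := hF0 b (fun l => e (nb b l) (rr b l + Function.update ω D a (nb b l)))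
      have h3 := hFβ b (fun l => e (nb b l) (rr b l + Function.update ω D a (nb b l)))
      have h4 := hF0 b (fun l => e (nb b l) (rr b l + ω (nb b l)))
      have h5 := hFβ b (fun l => e (nb b l) (rr b l + ω (nb b l)))
      rw [abs_le]
      constructor <;> linarith
    · have h2 : (fun l => e (nb b l) (rr b l + Function.update ω D a (nb b l))) =
          (fun l => e (nb b l) (rr b l + ω (nb b l))) := by
        funext l
        rw [Function.update_of_ne]
        intro hl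
        exact hb ⟨l, hl⟩
      rw [h2, sub_self, abs_zero]
  refine (sum_le_sum h1).trans ?_
  rw [← sum_filter, sum_const, nsmul_eq_mul]
  exact mul_le_mul_of_nonneg_right (by exact_mod_cast hdeg D) hβ

theorem shifts {X B O Y R : Type} [Fintype X] [DecidableEq X] [Nonempty X] [Fintype B]
    [DecidableEq B] [DecidableEq O] [Fintype Y] [Fintype R] [AddCommGroup R] (n s : ℕ)
    (hs : Fintype.card R = s) (Act : Finset B) (E : B → Finset X)
    (hE : ∀ D ∈ Act, (E D).card = s) (nb : O → Fin n → B) (rr : O → Fin n → R) (Oa : Finset O)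
    (hact : ∀ b ∈ Oa, ∀ l, nb b l ∈ Act) (hinj : ∀ b ∈ Oa, Function.Injective (nb b)) (Δ : ℕ)
    (hdeg : ∀ D, (Oa.filter fun b => ∃ l, nb b l = D).card ≤ Δ)
    (F : Y → O → (Fin n → X) → ℝ) (β : ℝ) (hβ : 0 ≤ β) (hF0 : ∀ y b v, 0 ≤ F y b v)
    (hFβ : ∀ y b v, F y b v ≤ β) (G : O → (Fin n → X) → ℝ) (hG0 : ∀ b v, 0 ≤ G b v) (μ ν : ℝ)
    (hμ : ∀ y, ∑ b ∈ Oa, ((s : ℝ) ^ n)⁻¹ *
      ∑ v ∈ Fintype.piFinset (fun l => E (nb b l)), F y b v ≤ μ) (hν : 0 < ν)
    (hGν : ∑ b ∈ Oa, ((s : ℝ) ^ n)⁻¹ *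
      ∑ v ∈ Fintype.piFinset (fun l => E (nb b l)), G b v ≤ ν) (t V : ℝ)
    (ht : 0 ≤ t) (hV : 0 < V) (hVb : Fintype.card B * (Δ * β) ^ 2 ≤ V)
    (hnum : Fintype.card Y * Real.exp (-(t ^ 2 / (2 * V))) < 1 / 2) :
    ∃ φ : B → R → X, (∀ D ∈ Act, ∀ r, φ D r ∈ E D) ∧ (∀ D ∈ Act, Function.Injective (φ D)) ∧
      (∀ y, ∑ b ∈ Oa, F y b (fun l => φ (nb b l) (rr b l)) ≤ μ + t) ∧
      ∑ b ∈ Oa, G b (fun l => φ (nb b l) (rr b l)) ≤ 2 * ν := by
  classical
  have hs0 : 0 < s := by
    rw [← hs]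
    exact Fintype.card_pos_iff.mpr ⟨0⟩
  have hs1 : (s : ℝ) ≠ 0 := by exact_mod_cast hs0.ne'
  -- the numberings of the blocks
  have hex : ∀ D : B, ∃ e : R → X, D ∈ Act → (Function.Injective e ∧ univ.image e = E D) := by
    intro D
    by_cases hD : D ∈ Act
    · obtain ⟨e, he⟩ := shifts_equiv (R := R) (E D) (by rw [hE D hD, hs])
      exact ⟨e, fun _ => he⟩
    · exact ⟨fun _ => Classical.arbitrary X, fun h => absurd h hD⟩
  choose e he using hex
  -- the law of the shifts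
  set P : B → R → ℝ := fun _ _ => (s : ℝ)⁻¹ with hP
  have hP0 : ∀ i a, 0 ≤ P i a := fun _ _ => inv_nonneg.mpr (Nat.cast_nonneg s)
  have hP1 : ∀ i, ∑ a, P i a = 1 := by
    intro i
    simp only [hP, sum_const, card_univ, nsmul_eq_mul, hs]
    exact mul_inv_cancel₀ hs1
  have hmean : ∀ b ∈ Oa, ∀ H : (Fin n → X) → ℝ,
      EE P (fun ω => H (fun l => e (nb b l) (rr b l + ω (nb b l)))) =
        ((s : ℝ) ^ n)⁻¹ * ∑ v ∈ Fintype.piFinset (fun l => E (nb b l)), H v := by
    intro b hb H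
    exact shifts_mean s hs hs0 e E (nb b) (hinj b hb) (fun l => (he _ (hact b hb l)).1)
      (fun l => (he _ (hact b hb l)).2) (rr b) H
  let f : Y → (B → R) → ℝ := fun y ω =>
    ∑ b ∈ Oa, F y b (fun l => e (nb b l) (rr b l + ω (nb b l)))
  let g : (B → R) → ℝ := fun ω => ∑ b ∈ Oa, G b (fun l => e (nb b l) (rr b l + ω (nb b l)))
  have hf : ∀ y, EE P (f y) ≤ μ := by
    intro y
    refine le_trans (le_of_eq ?_) (hμ y)
    have h1 := Pool.Agent.H73.Cube.EE_sum (P := P) Oa
      (fun b ω => F y b (fun l => e (nb b l) (rr b l + ω (nb b l))))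
    refine h1.trans ?_
    exact sum_congr rfl fun b hb => hmean b hb (F y b)
  have hg : EE P g ≤ ν := by
    refine le_trans (le_of_eq ?_) hGν
    have h1 := Pool.Agent.H73.Cube.EE_sum (P := P) Oa
      (fun b ω => G b (fun l => e (nb b l) (rr b l + ω (nb b l))))
    refine h1.trans ?_
    exact sum_congr rfl fun b hb => hmean b hb (G b)
  have hΔβ : (0 : ℝ) ≤ Δ * β := mul_nonneg (Nat.cast_nonneg _) hβ
  have hconc : ∀ y, EE P (fun ω => if EE P (f y) + t ≤ f y ω then (1 : ℝ) else 0) ≤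
      Real.exp (-(t ^ 2 / (2 * V))) := by
    intro y
    refine Pool.Agent.H73.Cube.mcdW_upper hP0 hP1 (f y) (fun _ => Δ * β) (fun _ => hΔβ) ?_ t V ht
      hV ?_
    · intro D ω a
      exact shifts_diff e nb rr Oa Δ hdeg (F y) β hβ (hF0 y) (hFβ y) D ω a
    · rw [sum_const, card_univ, nsmul_eq_mul]
      exact hVb
  -- union bound
  have hg0 : ∀ ω, 0 ≤ g ω := fun ω => sum_nonneg fun b _ => hG0 b _
  have hg' : (2 * ν)⁻¹ * EE P g ≤ 1 / 2 := by
    have h1 : (2 * ν)⁻¹ * EE P g ≤ (2 * ν)⁻¹ * ν :=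
      mul_le_mul_of_nonneg_left hg (inv_nonneg.mpr (by positivity))
    refine h1.trans (le_of_eq ?_)
    field_simp
  have htot : EE P (fun ω => (∑ y, if EE P (f y) + t ≤ f y ω then (1 : ℝ) else 0) +
      (2 * ν)⁻¹ * g ω) < 1 := by
    rw [Pool.Agent.H73.Cube.EE_add, Pool.Agent.H73.Cube.EE_sum, Pool.Agent.H73.Cube.EE_smul]
    have h1 : ∑ y : Y, EE P (fun ω => if EE P (f y) + t ≤ f y ω then (1 : ℝ) else 0) ≤
        Fintype.card Y * Real.exp (-(t ^ 2 / (2 * V))) := by
      refine (sum_le_sum fun y _ => hconc y).trans ?_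
      rw [sum_const, card_univ, nsmul_eq_mul]
    linarith
  obtain ⟨ω, _, hω⟩ := Pool.Agent.H73.Cube.exists_lt_one hP0 hP1 _ htot
  have hsum0 : 0 ≤ ∑ y, if EE P (f y) + t ≤ f y ω then (1 : ℝ) else 0 :=
    sum_nonneg fun y _ => by split_ifs <;> norm_num
  have hgω0 : 0 ≤ (2 * ν)⁻¹ * g ω :=
    mul_nonneg (inv_nonneg.mpr (by positivity)) (hg0 ω)
  refine ⟨fun D r => e D (r + ω D), ?_, ?_, ?_, ?_⟩
  · intro D hD r
    rw [← (he D hD).2]
    exact mem_image_of_mem _ (mem_univ _)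
  · intro D hD r r' h
    exact add_right_cancel ((he D hD).1 h)
  · intro y
    have h1 : (if EE P (f y) + t ≤ f y ω then (1 : ℝ) else 0) < 1 := by
      refine lt_of_le_of_lt ?_ (lt_of_le_of_lt (le_add_of_nonneg_right hgω0) hω)
      exact single_le_sum (f := fun y => if EE P (f y) + t ≤ f y ω then (1 : ℝ) else 0)
        (fun y _ => by split_ifs <;> norm_num) (mem_univ y)
    have h2 : ¬ (EE P (f y) + t ≤ f y ω) := by
      intro h
      rw [if_pos h] at h1
      exact lt_irrefl _ h1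
    have h3 := hf y
    show f y ω ≤ μ + t
    linarith [lt_of_not_ge h2]
  · have h1 : (2 * ν)⁻¹ * g ω < 1 := lt_of_le_of_lt (le_add_of_nonneg_left hsum0) hω
    have h2 : g ω < 2 * ν := by
      have h3 : 0 < 2 * ν := by positivity
      rw [inv_mul_lt_iff₀ h3, mul_one] at h1
      exact h1
    exact h2.le

end Pool.Agent.QA
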