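import Pool.Agent.QA.Geo
import Pool.Agent.QA.Weights
import Pool.Agent.QA.Picks
import Pool.Agent.QA.Shifts
import Pool.Agent.QA.Hall

/-!
Project QA: from the seeds to the embedding.
-/

set_option autoImplicit false

open Finset

namespace Pool.Agent.QA

open Pool.Agent.H73.Cube (EE)
open Pool.Agent.H16.Cube (par cc par_add par_single)

section two

variable {T ι V : Type} {l m M : ℕ} [DecidableEq ι]

/-- a sum over vertices of the cube of a function of the base point -/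
theorem sum_fiber {Q Z : Type} [Fintype Q] [Fintype Z] [DecidableEq Z]
    (s : Finset Q) (f : Q → Z) (c : ℝ) (t : Finset Z) (hf : ∀ x ∈ s, f x ∈ t)
    (hc : ∀ z ∈ t, ((s.filter fun x => f x = z).card : ℝ) ≤ c) (g : Z → ℝ) (hg : ∀ z, 0 ≤ g z) :
    ∑ x ∈ s, g (f x) ≤ ∑ z ∈ t, c * g z := by
  classical
  rw [← sum_fiberwise_of_maps_to (s := s) (t := t) (g := f) hf]
  refine sum_le_sum fun z hz => ?_
  rw [sum_congr rfl fun x hx => by rw [(mem_filter.1 hx).2], sum_const, nsmul_eq_mul]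
  exact mul_le_mul_of_nonneg_right (hc z hz) (hg z)

theorem stage_two (hl : 1 ≤ l) (G : SimpleGraph V) [Fintype V] [DecidableEq V]
    (hV : Fintype.card V = 2 ^ (4 * l + m)) [Nonempty (Fin M)]
    (e : Fin M ⊕ Fin M ≃ V) (S : SD (Fin M) (Fin M) T ι (Fin m → ZMod 2) (4 * l + m))
    (K Vb : ℕ) (D0 ξ : ℝ) (hS : S.Ok K Vb D0 ξ) (hnb : S.nb = nbz l)
    (hadj : ∀ x y, S.a x y = 1 → G.Adj (e (Sum.inl x)) (e (Sum.inr y)))
    (ω : ι → Fin M) (hω : ∀ z ∈ S.actO, ω (S.own z) ∈ S.C (S.jj z)) (η μ ν t V₁ V₂ : ℝ)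
    (hη0 : 0 < η) (hη1 : η ≤ 1) (hν : 0 < ν) (ht : 0 ≤ t)
    (huse : ∀ x, S.use ((1 + η) * 2 ^ (4 * l - 1)) ω x ≤ 1)
    (hload : ∀ y, S.load ((1 + η) * 2 ^ (4 * l - 1)) ω y ≤ μ)
    (htail : S.tail ((1 + η) * 2 ^ (4 * l - 1)) ω ≤ ν)
    (hV₁0 : 0 < V₁) (hV₂0 : 0 < V₂)
    (hV₁ : M * (2 * ((4 * l + m) * 2 ^ l : ℕ) * (S.θ * ξ)⁻¹) ^ 2 ≤ V₁)
    (hV₂ : (2 : ℝ) ^ (4 * l + m) * (((4 * l + m) * 2 ^ l : ℕ) * (S.θ * ξ)⁻¹) ^ 2 ≤ V₂)
    (hnum₁ : (2 : ℝ) ^ (4 * l + m) * Real.exp (-(η ^ 2 * 2 ^ l / 4)) +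
      M * Real.exp (-(t ^ 2 / (2 * V₁))) < 1 / 2)
    (hnum₂ : M * Real.exp (-(t ^ 2 / (2 * V₂))) < 1 / 2)
    (hone : (1 + η) ^ (4 * l + m) * μ + t + t ≤ 1) :
    ∃ (Φ : (Fin (4 * l + m) → ZMod 2) ≃ V) (B : Finset (Fin (4 * l + m) → ZMod 2)),
      (B.card : ℝ) ≤ 2 * (2 * ((1 + η) ^ (4 * l + m) * ν)) ∧
      ∀ x, par x = 1 → x ∉ B → bs x ∈ S.actO →
        (∀ i, Typ S.a (S.C (S.jj (nbz l (bs x) i))) S.τ S.ε (S.I (nbz l (bs x) i)) ω) →
        ∀ i, G.Adj (Φ x) (Φ (x + Pi.single i 1)) := by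
  classical
  -- the active blocks
  let tp : (Fin m → ZMod 2) → Prop := fun z => Typ S.a (S.C (S.jj z)) S.τ S.ε (S.I z) ω
  let Act : Finset (Fin (4 * l + m) → ZMod 2) :=
    univ.filter fun D => blk D = D ∧ par D = 0 ∧ bs D ∈ S.act ∧ tp (bs D)
  let Oa : Finset (Fin (4 * l + m) → ZMod 2) :=
    univ.filter fun b => par b = 1 ∧ bs b ∈ S.actO ∧ ∀ i, tp (nbz l (bs b) i)
  let q : (Fin (4 * l + m) → ZMod 2) → Fin M → ℝ := fun D x => S.q ω (bs D) x
  let nb : (Fin (4 * l + m) → ZMod 2) → Fin (4 * l + m) → (Fin (4 * l + m) → ZMod 2) := fun b i => blk (b + Pi.single i 1)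
  let rr : (Fin (4 * l + m) → ZMod 2) → Fin (4 * l + m) → (Fin l → ZMod 2) := fun b i => co (b + Pi.single i 1)
  have hbsnb : ∀ b i, bs (nb b i) = nbz l (bs b) i := fun b i => by
    simp only [nb]
    rw [bs_blk, bs_nbr]
  have hact : ∀ b ∈ Oa, ∀ i, nb b i ∈ Act := by
    intro b hb i
    obtain ⟨h1, h2, h3⟩ := (mem_filter.1 hb).2
    refine mem_filter.2 ⟨mem_univ _, ?_, ?_, ?_, ?_⟩
    · exact blk_blk _
    · simp only [nb]
      rw [par_blk, par_add, par_single, h1]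
      decide
    · rw [hbsnb]
      have := hS.nb_act _ h2 i
      rwa [hnb] at this
    · rw [hbsnb]
      exact h3 i
  have hinj : ∀ b ∈ Oa, Function.Injective (nb b) := by
    intro b _ i j hij
    by_contra hne
    exact blk_nbr b i j hne hij
  have hdeg : ∀ D, (Oa.filter fun b => ∃ i, nb b i = D).card ≤ (4 * l + m) * 2 ^ l := by
    intro D
    refine le_trans (card_le_card ?_) (card_near_blk D)
    intro b hb
    exact mem_filter.2 ⟨mem_univ _, (mem_filter.1 hb).2⟩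
  have hq1 : ∀ D ∈ Act, ∑ x, q D x = 1 := by
    intro D hD
    exact q_sum_typ S hS ω (bs D) (mem_filter.1 hD).2.2.2.2
  have h2l : (0 : ℝ) < 2 ^ l := by positivity
  have huse' : ∀ x, ∑ D ∈ Act, (1 + η) * ((2 ^ l : ℕ) : ℝ) * q D x ≤ 1 := by
    intro x
    refine le_trans ?_ (huse x)
    unfold SD.use
    have hc : ∀ z ∈ S.act, ((Act.filter fun D => bs D = z).card : ℝ) ≤ 2 ^ (4 * l - 1) / 2 ^ l := by
      intro z _
      rw [le_div_iff₀ h2l]
      have h1 := card_blk hl z (0 : ZMod 2)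
      have h2 : (Act.filter fun D => bs D = z).card ≤
          (univ.filter fun x : Fin (4 * l + m) → ZMod 2 => blk x = x ∧ par x = 0 ∧
            bs x = z).card := by
        refine card_le_card fun D hD => ?_
        obtain ⟨hD1, hD2⟩ := mem_filter.1 hD
        obtain ⟨h3, h4, -⟩ := (mem_filter.1 hD1).2
        exact mem_filter.2 ⟨mem_univ _, h3, h4, hD2⟩
      have h3 : (Act.filter fun D => bs D = z).card * 2 ^ l ≤ 2 ^ (4 * l - 1) := by
        rw [← h1]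
        exact Nat.mul_le_mul_right _ h2
      exact_mod_cast h3
    have h4 := sum_fiber Act bs (2 ^ (4 * l - 1) / 2 ^ l) S.act
      (fun D hD => (mem_filter.1 hD).2.2.2.1) hc
      (fun z => (1 + η) * ((2 ^ l : ℕ) : ℝ) * S.q ω z x)
      (fun z => mul_nonneg (by positivity) (q_nonneg S hS ω z x))
    refine h4.trans (le_of_eq ?_)
    refine sum_congr rfl fun z _ => ?_
    push_cast
    field_simp
  have hprq : ∀ b, ∀ v : Fin (4 * l + m) → Fin M, ∏ i, q (nb b i) (v i) = S.pr ω (bs b) v := by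
    intro b v
    unfold SD.pr
    refine prod_congr rfl fun i _ => ?_
    simp only [q]
    rw [hbsnb, hnb]
  have hcO : ∀ z ∈ S.actO, ((Oa.filter fun D => bs D = z).card : ℝ) ≤ 2 ^ (4 * l - 1) := by
    intro z _
    have h1 := card_bs hl z (1 : ZMod 2)
    have h2 : (Oa.filter fun D => bs D = z).card ≤ 2 ^ (4 * l - 1) := by
      rw [← h1]
      refine card_le_card fun D hD => ?_
      obtain ⟨hD1, hD2⟩ := mem_filter.1 hD
      exact mem_filter.2 ⟨mem_univ _, (mem_filter.1 hD1).2.1, hD2⟩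
    exact_mod_cast h2
  have hA : (2 : ℝ) ^ (4 * l - 1) ≤ (1 + η) * 2 ^ (4 * l - 1) := by
    have : (0 : ℝ) < 2 ^ (4 * l - 1) := by positivity
    nlinarith
  have hμ' : ∀ y, ∑ b ∈ Oa, ∑ v : Fin (4 * l + m) → Fin M, (∏ i, q (nb b i) (v i)) *
      S.wt ω (bs b) y v ≤ μ := by
    intro y
    refine le_trans ?_ (hload y)
    unfold SD.load
    simp only [hprq]
    have hg : ∀ z, 0 ≤ ∑ v, S.pr ω z v * S.wt ω z y v := fun z =>
      sum_nonneg fun v _ => mul_nonneg (pr_nonneg S hS ω z v) (wt_nonneg S hS ω z y v)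
    have h4 := sum_fiber Oa bs (2 ^ (4 * l - 1)) S.actO
      (fun D hD => (mem_filter.1 hD).2.2.1) hcO
      (fun z => ∑ v, S.pr ω z v * S.wt ω z y v) hg
    refine h4.trans (sum_le_sum fun z _ => ?_)
    exact mul_le_mul_of_nonneg_right hA (hg z)
  have hν' : ∑ b ∈ Oa, ∑ v : Fin (4 * l + m) → Fin M, (∏ i, q (nb b i) (v i)) *
      ind (S.bad ω (bs b) v) ≤ ν := by
    refine le_trans ?_ htail
    unfold SD.tail
    simp only [hprq]
    have hg : ∀ z, 0 ≤ ∑ v, S.pr ω z v * ind (S.bad ω z v) := fun z =>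
      sum_nonneg fun v _ => mul_nonneg (pr_nonneg S hS ω z v) (ind_nonneg _)
    have h4 := sum_fiber Oa bs (2 ^ (4 * l - 1)) S.actO
      (fun D hD => (mem_filter.1 hD).2.2.1) hcO
      (fun z => ∑ v, S.pr ω z v * ind (S.bad ω z v)) hg
    refine h4.trans (sum_le_sum fun z _ => ?_)
    exact mul_le_mul_of_nonneg_right hA (hg z)
  have hβ : 0 ≤ (S.θ * ξ)⁻¹ := inv_nonneg.2 (mul_pos hS.θ0 hS.ξ0).le
  have hcB : (Fintype.card (Fin (4 * l + m) → ZMod 2) : ℝ) = 2 ^ (4 * l + m) := by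
    rw [Fintype.card_fun, ZMod.card, Fintype.card_fin]
    push_cast
    rfl
  obtain ⟨E, hE1, hE2, hE3, hE4, hE5⟩ := picks (X := Fin M) (B := Fin (4 * l + m) → ZMod 2)
    (O := Fin (4 * l + m) → ZMod 2) (Y := Fin M) (4 * l + m) (2 ^ l) Nat.one_le_two_pow η hη0 hη1 q
    (fun D x => q_nonneg S hS ω _ x) Act hq1 huse' nb Oa hact hinj ((4 * l + m) * 2 ^ l) hdeg
    (fun y b v => S.wt ω (bs b) y v) (S.θ * ξ)⁻¹ hβ (fun y b v => wt_nonneg S hS ω _ y v)
    (fun y b v => wt_le S hS ω _ y v) (fun b v => ind (S.bad ω (bs b) v))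
    (fun b v => ind_nonneg _) μ ν hμ' hν hν' t V₁ ht hV₁0
    (by rw [Fintype.card_fin]; exact hV₁)
    (by rw [hcB, Fintype.card_fin]; push_cast; exact hnum₁)
  have hν2 : 0 < 2 * ((1 + η) ^ (4 * l + m) * ν) := by positivity
  obtain ⟨φ, hφ1, hφ2, hφ3, hφ4⟩ := shifts (X := Fin M) (B := Fin (4 * l + m) → ZMod 2)
    (O := Fin (4 * l + m) → ZMod 2) (Y := Fin M) (R := Fin l → ZMod 2) (4 * l + m) (2 ^ l)
    (by rw [Fintype.card_fun, ZMod.card, Fintype.card_fin]) Act E hE1 nb rr Oa hact hinj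
    ((4 * l + m) * 2 ^ l) hdeg
    (fun y b v => S.wt ω (bs b) y v) (S.θ * ξ)⁻¹ hβ (fun y b v => wt_nonneg S hS ω _ y v)
    (fun y b v => wt_le S hS ω _ y v) (fun b v => ind (S.bad ω (bs b) v))
    (fun b v => ind_nonneg _) ((1 + η) ^ (4 * l + m) * μ + t) (2 * ((1 + η) ^ (4 * l + m) * ν)) hE4 hν2 hE5 t V₂ ht
    hV₂0 (by rw [hcB]; exact hV₂) (by rw [Fintype.card_fin]; exact hnum₂)
  -- the vector of the neighbours
  let vv : (Fin (4 * l + m) → ZMod 2) → Fin (4 * l + m) → Fin M := fun b i => φ (nb b i) (rr b i)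
  let Bd : Finset (Fin (4 * l + m) → ZMod 2) := Oa.filter fun b => S.bad ω (bs b) (vv b)
  have hBd : (Bd.card : ℝ) ≤ 2 * (2 * ((1 + η) ^ (4 * l + m) * ν)) := by
    refine le_trans (le_of_eq ?_) hφ4
    rw [card_eq_sum_ones, sum_filter]
    push_cast
    refine sum_congr rfl fun b _ => ?_
    by_cases h : S.bad ω (bs b) (vv b)
    · rw [if_pos h]; exact (ind_true h).symm
    · rw [if_neg h]; exact (ind_false h).symm
  let Og : Finset (Fin (4 * l + m) → ZMod 2) := Oa.filter fun b => ¬ S.bad ω (bs b) (vv b)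
  have hOg : ∀ b ∈ Og, b ∈ Oa ∧ ¬ S.bad ω (bs b) (vv b) := fun b hb => mem_filter.1 hb
  have hw1 : ∀ b ∈ Og, ∑ y, S.wt ω (bs b) y (vv b) = 1 := by
    intro b hb
    obtain ⟨h1, h2⟩ := hOg b hb
    have h3 := (mem_filter.1 h1).2.2.1
    refine wt_sum S hS ω (bs b) h3 (vv b) (hω _ h3) (fun i => ?_) h2
    have h4 := hE3 _ (hact b h1 i) _ (hφ1 _ (hact b h1 i) (rr b i))
    simp only [q] at h4
    rw [hbsnb] at h4
    rw [hnb]
    exact h4
  have hw2 : ∀ y, ∑ b ∈ Og, S.wt ω (bs b) y (vv b) ≤ 1 := by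
    intro y
    refine le_trans (sum_le_sum_of_subset_of_nonneg (filter_subset _ _) ?_)
      ((hφ3 y).trans hone)
    intro b _ _
    exact wt_nonneg S hS ω _ y _
  obtain ⟨ψ, hψ1, hψ2⟩ := wHall Og (fun b y => S.wt ω (bs b) y (vv b))
    (fun b y => wt_nonneg S hS ω _ y _) hw1 hw2
  -- the embedding of the good vertices
  let f : (Fin (4 * l + m) → ZMod 2) → V := fun x =>
    if par x = 1 then e (Sum.inr (ψ x)) else e (Sum.inl (φ (blk x) (co x)))
  let s : Finset (Fin (4 * l + m) → ZMod 2) :=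
    univ.filter fun x => (par x = 1 ∧ x ∈ Og) ∨ (par x ≠ 1 ∧ blk x ∈ Act)
  have hf : Set.InjOn f s := by
    intro x hx x' hx' hxx
    have h1 := (mem_filter.1 (mem_coe.1 hx)).2
    have h2 := (mem_filter.1 (mem_coe.1 hx')).2
    simp only [f] at hxx
    rcases h1 with ⟨p1, g1⟩ | ⟨p1, g1⟩ <;> rcases h2 with ⟨p2, g2⟩ | ⟨p2, g2⟩
    · rw [if_pos p1, if_pos p2] at hxx
      exact hψ2 g1 g2 (Sum.inr_injective (e.injective hxx))
    · rw [if_pos p1, if_neg p2] at hxx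
      exact absurd (e.injective hxx) (by simp)
    · rw [if_neg p1, if_pos p2] at hxx
      exact absurd (e.injective hxx) (by simp)
    · rw [if_neg p1, if_neg p2] at hxx
      have h3 : φ (blk x) (co x) = φ (blk x') (co x') := Sum.inl_injective (e.injective hxx)
      by_cases hb : blk x = blk x'
      · rw [← hb] at h3
        have h4 := hφ2 _ g1 h3
        rw [← blk_add x, ← blk_add x', hb, h4]
      · exfalso
        have h4 := hφ1 _ g1 (co x)
        have h5 := hφ1 _ g2 (co x')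
        rw [← h3] at h5
        exact disjoint_left.1 (hE2 _ g1 _ g2 hb) h4 h5
  obtain ⟨Φ, hΦ⟩ := extend_inj (by rw [hV, Fintype.card_fun, ZMod.card, Fintype.card_fin]) f s hf
  refine ⟨Φ, Bd, hBd, fun x hx hxB hact' htyp i => ?_⟩
  have hOa : x ∈ Oa := mem_filter.2 ⟨mem_univ _, hx, hact', htyp⟩
  have hOg' : x ∈ Og := by
    refine mem_filter.2 ⟨hOa, fun hb => hxB ?_⟩
    exact mem_filter.2 ⟨hOa, hb⟩
  have hxs : x ∈ s := mem_filter.2 ⟨mem_univ _, Or.inl ⟨hx, hOg'⟩⟩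
  have hpar : par (x + Pi.single i 1) ≠ 1 := by
    rw [par_add, par_single, hx]
    decide
  have hys : x + Pi.single i 1 ∈ s := mem_filter.2 ⟨mem_univ _, Or.inr ⟨hpar, hact x hOa i⟩⟩
  rw [hΦ _ hxs, hΦ _ hys]
  simp only [f]
  rw [if_pos hx, if_neg hpar]
  have h1 := wt_adj S hS ω (bs x) hact' (ψ x) (vv x) (hψ1 x hOg').ne' i
  exact (hadj _ _ h1).symm

end two

end Pool.Agent.QA
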