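import Pool.Agent.QA.Inst
import Pool.Agent.QA.StageTwo
import Pool.Agent.QA.StageOne

/-!
Project QA: the assembly, with the numerical conditions as hypotheses.
-/

set_option autoImplicit false

open Finset

namespace Pool.Agent.QA

open Pool.Agent.H73.Cube (EE)
open Pool.Agent.H16.Cube (par cc par_add par_single)

section core

variable {l m : ℕ}

theorem zmod2_cases (p : ZMod 2) : p = 0 ∨ p = 1 := by
  revert p; decide

theorem zmod2_flip (x : Fin (4 * l + m) → ZMod 2) (i : Fin (4 * l + m)) :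
    x + Pi.single i 1 + Pi.single i 1 = x := by
  rw [add_assoc, Pool.Agent.H16.Cube.fun_add_self, add_zero]

theorem card_over (hl : 1 ≤ l) (F : Finset (Fin m → ZMod 2)) :
    (univ.filter fun x : Fin (4 * l + m) → ZMod 2 => bs x ∉ F).card ≤
      2 ^ (4 * l) * (univ.filter fun z => z ∉ F).card := by
  classical
  have h1 : (univ.filter fun x : Fin (4 * l + m) → ZMod 2 => bs x ∉ F) ⊆
      (univ.filter fun z => z ∉ F).biUnion fun z =>
        (univ.filter fun x : Fin (4 * l + m) → ZMod 2 => par x = 0 ∧ bs x = z) ∪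
        (univ.filter fun x : Fin (4 * l + m) → ZMod 2 => par x = 1 ∧ bs x = z) := by
    intro x hx
    refine mem_biUnion.2 ⟨bs x, mem_filter.2 ⟨mem_univ _, (mem_filter.1 hx).2⟩, ?_⟩
    rcases zmod2_cases (par x) with h | h
    · exact mem_union_left _ (mem_filter.2 ⟨mem_univ _, h, rfl⟩)
    · exact mem_union_right _ (mem_filter.2 ⟨mem_univ _, h, rfl⟩)
  refine (card_le_card h1).trans (card_biUnion_le.trans ?_)
  have h2 : ∀ z ∈ (univ.filter fun z : Fin m → ZMod 2 => z ∉ F),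
      ((univ.filter fun x : Fin (4 * l + m) → ZMod 2 => par x = 0 ∧ bs x = z) ∪
        (univ.filter fun x : Fin (4 * l + m) → ZMod 2 => par x = 1 ∧ bs x = z)).card ≤
        2 ^ (4 * l) := by
    intro z _
    refine (card_union_le _ _).trans ?_
    rw [card_bs hl z 0, card_bs hl z 1, ← two_mul, ← pow_succ']
    exact le_of_eq (by congr 1; omega)
  refine (sum_le_sum h2).trans ?_
  rw [sum_const, smul_eq_mul, mul_comm]

/-- counting the vertices with a missing edge -/
theorem count_bad {V : Type} (hl : 1 ≤ l) (G : SimpleGraph V)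
    (Φ : (Fin (4 * l + m) → ZMod 2) ≃ V) (B : Finset (Fin (4 * l + m) → ZMod 2))
    (F F' : Finset (Fin m → ZMod 2)) (hF : ∀ z ∈ F, ∀ z', hammingDist z z' ≤ 1 → z' ∈ F')
    (H : ∀ x, par x = 1 → x ∉ B → bs x ∈ F' → ∀ i, G.Adj (Φ x) (Φ (x + Pi.single i 1))) :
    ∃ W : Finset (Fin (4 * l + m) → ZMod 2),
      W.card ≤ 2 ^ (4 * l) * (univ.filter fun z => z ∉ F).card + (4 * l + m + 1) * B.card ∧
      ∀ x, x ∉ W → ∀ i, G.Adj (Φ x) (Φ (x + Pi.single i 1)) := by
  classical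
  refine ⟨(univ.filter fun x => bs x ∉ F) ∪ (B ∪ univ.biUnion fun i =>
    B.image fun x => x + Pi.single i 1), ?_, ?_⟩
  · refine (card_union_le _ _).trans (Nat.add_le_add (card_over hl F) ?_)
    refine (card_union_le _ _).trans ?_
    have h1 : (univ.biUnion fun i : Fin (4 * l + m) =>
        B.image fun x => x + Pi.single i 1).card ≤ (4 * l + m) * B.card := by
      refine card_biUnion_le.trans ?_
      refine (sum_le_sum fun i _ => card_image_le).trans ?_
      rw [sum_const, card_univ, Fintype.card_fin, smul_eq_mul]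
    calc B.card + _ ≤ B.card + (4 * l + m) * B.card := Nat.add_le_add_left h1 _
      _ = (4 * l + m + 1) * B.card := by ring
  · intro x hx i
    rw [mem_union, mem_union, not_or, not_or] at hx
    obtain ⟨h1, h2, h3⟩ := hx
    have hxF : bs x ∈ F := by
      by_contra h
      exact h1 (mem_filter.2 ⟨mem_univ _, h⟩)
    rcases zmod2_cases (par x) with h | h
    · -- even
      have h4 : par (x + Pi.single i 1) = 1 := by
        rw [par_add, par_single, h]
        decide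
      have h5 : x + Pi.single i 1 ∉ B := by
        intro hB
        refine h3 (mem_biUnion.2 ⟨i, mem_univ _, mem_image.2 ⟨_, hB, ?_⟩⟩)
        exact zmod2_flip x i
      have h6 : bs (x + Pi.single i 1) ∈ F' := by
        refine hF _ hxF _ ?_
        rw [bs_nbr]
        exact dist_nbz _ _
      have h7 := H _ h4 h5 h6 i
      rw [zmod2_flip] at h7
      exact h7.symm
    · refine H x h h2 (hF _ hxF _ ?_) i
      simp

/-- The assembly. `γ` is the slack, `D` the degree of the regular bipartite graph. -/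
theorem core {T V : Type} (hl : 1 ≤ l) (G : SimpleGraph V) [Fintype V] [DecidableEq V]
    (hV : Fintype.card V = 2 ^ (4 * l + m)) {M : ℕ} (hM : 2 * M = 2 ^ (4 * l + m))
    (e : Fin M ⊕ Fin M ≃ V) (a : Fin M → Fin M → ℝ) (ha01 : ∀ x y, a x y = 0 ∨ a x y = 1)
    (hadj : ∀ x y, a x y = 1 → G.Adj (e (Sum.inl x)) (e (Sum.inr y))) (D : ℝ)
    (hrow : ∀ x, ∑ y, a x y = D) (hcol : ∀ y, ∑ x, a x y = D)
    [Fintype T] [DecidableEq T] (j0 : T) (C : T → Finset (Fin M))
    (hdisj : ∀ j j' y, y ∈ C j → y ∈ C j' → j = j') (ξ : ℝ) (hξ : 0 < ξ)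
    (hCξ : ∀ j, ξ * M ≤ (C j).card) (K : ℕ) (τ ε ε₂ γ η θ E D0 : ℝ) (hτ : 0 < τ) (hτ1 : τ ≤ 1)
    (hε : 0 < ε) (hε₂ : 0 < ε₂) (hγ0 : 0 ≤ γ) (hγ1 : γ ≤ 1) (hη0 : 0 < η) (hη1 : η ≤ 1)
    (hθ : 0 < θ)
    (htyp : ∀ (j : T) (ι : Type) [Fintype ι] [DecidableEq ι] (P : ι → Fin M → ℝ)
      (I : Finset ι), (∀ i y, 0 ≤ P i y) → (∀ i, ∑ y, P i y = 1) →
      (∀ i ∈ I, ∀ y, P i y = unif (C j) y) → I.card ≤ K →
      EE P (fun ω => ind (¬ Typ a (C j) τ ε I ω)) ≤ ε₂)
    (lab : (Fin m → ZMod 2) → (Fin m → ZMod 2)) (hlab : ∀ z, hammingDist z (lab z) ≤ m / 4)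
    (reg : (Fin m → ZMod 2) → Option T)
    (hreg : ∀ j, ((univ.filter fun z => reg z = some j).card : ℝ) ≤
      (1 - γ) * ((C j).card / M) * 2 ^ m)
    (hD0 : 0 < D0) (hD0D : D0 ≤ D - τ * M - ε * M) (hE0 : 0 < E) (hE : (1 + ε) * M ≤ E * D0)
    (t V₁ V₂ V₃ V₄ : ℝ) (ht : 0 ≤ t) (hV₁0 : 0 < V₁) (hV₂0 : 0 < V₂) (hV₃0 : 0 < V₃)
    (hV₄0 : 0 < V₄)
    (hV₁ : (K * 2 ^ m * ball m (m / 4 + 3) : ℕ) *
      ((1 + η) * 2 ^ (4 * l - 1) * ((τ ^ K)⁻¹ / D0)) ^ 2 ≤ V₁)
    (hV₂ : (K * 2 ^ m * ball m (m / 4 + 3) : ℕ) *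
      ((1 + η) * 2 ^ (4 * l - 1) * (θ * (ξ * M))⁻¹) ^ 2 ≤ V₂)
    (hV₃ : M * (2 * ((4 * l + m) * 2 ^ l : ℕ) * (θ * (ξ * M))⁻¹) ^ 2 ≤ V₃)
    (hV₄ : (2 : ℝ) ^ (4 * l + m) * (((4 * l + m) * 2 ^ l : ℕ) * (θ * (ξ * M))⁻¹) ^ 2 ≤ V₄)
    (hnum₁ : M * Real.exp (-(t ^ 2 / (2 * V₁))) + M * Real.exp (-(t ^ 2 / (2 * V₂))) < 1 / 2)
    (hnum₂ : (2 : ℝ) ^ (4 * l + m) * Real.exp (-(η ^ 2 * 2 ^ l / 4)) +
      M * Real.exp (-(t ^ 2 / (2 * V₃))) < 1 / 2)
    (hnum₃ : M * Real.exp (-(t ^ 2 / (2 * V₄))) < 1 / 2)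
    (huse : (1 + η) * (1 - γ) * (D / D0) + t ≤ 1)
    (hload : (1 + η) ^ (4 * l + m) * ((1 + η) * (1 - γ) + t) + t + t ≤ 1) :
    ∃ (Φ : (Fin (4 * l + m) → ZMod 2) ≃ V) (W : Finset (Fin (4 * l + m) → ZMod 2)),
      (W.card : ℝ) ≤ 2 ^ (4 * l) *
        ((univ.filter fun z => ¬ ∃ j, ∀ z', hammingDist z z' ≤ 3 → reg z' = some j).card +
        (univ.filter fun z =>
          K < ((univ.filter fun z' => hammingDist z z' ≤ 3).image lab).card).card +
        4 * (2 ^ K * ε₂ * 2 ^ m)) +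
        (4 * l + m + 1) * (2 * (2 * ((1 + η) ^ (4 * l + m) *
          (4 * ((1 + η) * M * (θ * E ^ (4 * l + m))))))) ∧
      ∀ x, x ∉ W → ∀ i, G.Adj (Φ x) (Φ (x + Pi.single i 1)) := by
  classical
  have hM0 : 0 < M := by
    by_contra h
    have : M = 0 := by omega
    rw [this, mul_zero] at hM
    exact absurd hM.symm (by positivity)
  have hMr : (0 : ℝ) < M := by exact_mod_cast hM0
  have hne : Nonempty (Fin M) := ⟨⟨0, hM0⟩⟩
  have hMr2 : (2 : ℝ) ^ (4 * l - 1) * 2 ^ m = M := by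
    have h1 : (2 : ℝ) * M = 2 ^ (4 * l + m) := by exact_mod_cast hM
    have h2 : (2 : ℝ) ^ (4 * l + m) = 2 * (2 ^ (4 * l - 1) * 2 ^ m) := by
      rw [← mul_assoc, ← pow_succ', ← pow_add]
      congr 1
      omega
    linarith
  set S := mk l a C τ ε θ K j0 lab reg with hSdef
  have hDp : ∀ j, D0 ≤ Dp a (C j) τ - ε * Fintype.card (Fin M) := by
    intro j
    rw [Fintype.card_fin]
    have hcj : (0 : ℝ) < (C j).card := lt_of_lt_of_le (mul_pos hξ hMr) (hCξ j)
    have h1 : ∑ x, mn a (C j) x = D := by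
      unfold mn
      rw [← sum_div, sum_comm, sum_congr rfl fun y _ => hcol y, sum_const, nsmul_eq_mul]
      field_simp
    have h2 : ∑ x, mn a (C j) x ≤ Dp a (C j) τ + τ * M := by
      unfold Dp
      have h3 : τ * (M : ℝ) = ∑ _x : Fin M, τ := by
        rw [sum_const, card_univ, Fintype.card_fin, nsmul_eq_mul, mul_comm]
      rw [h3, ← sum_add_distrib]
      refine sum_le_sum fun x _ => ?_
      split_ifs with h
      · linarith
      · push Not at h
        linarith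
    linarith
  have hS : S.Ok K (ball m (m / 4 + 3)) D0 (ξ * M) :=
    mk_ok a C τ ε θ K j0 lab reg D0 (ξ * M) ha01 hτ hτ1 hε hθ hD0 (mul_pos hξ hMr) hDp hCξ hlab
  have hcZ : Fintype.card (Fin m → ZMod 2) = 2 ^ m := by
    rw [Fintype.card_fun, ZMod.card, Fintype.card_fin]
  have hA : (0 : ℝ) < (1 + η) * 2 ^ (4 * l - 1) := by positivity
  -- usage
  have hregA : ∀ j, ((S.act.filter fun z => S.jj z = j).card : ℝ) * ((1 + η) * 2 ^ (4 * l - 1)) ≤
      (1 + η) * (1 - γ) * (C j).card := by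
    intro j
    have h1 : (S.act.filter fun z => S.jj z = j).card ≤
        (univ.filter fun z => reg z = some j).card := by
      refine card_le_card fun z hz => ?_
      obtain ⟨hz1, hz2⟩ := mem_filter.1 hz
      obtain ⟨⟨j', hj', -⟩, -⟩ := (mem_filter.1 hz1).2
      refine mem_filter.2 ⟨mem_univ _, ?_⟩
      rw [← hz2]
      have h3 : S.jj z = j' := mk_jj_of_mem a C τ ε θ K j0 lab reg z j' hj'
      rw [h3]
      exact hj'
    have h2 : ((S.act.filter fun z => S.jj z = j).card : ℝ) ≤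
        (1 - γ) * ((C j).card / M) * 2 ^ m := le_trans (by exact_mod_cast h1) (hreg j)
    refine (mul_le_mul_of_nonneg_right h2 hA.le).trans (le_of_eq ?_)
    have h3 : (1 - γ) * (((C j).card : ℝ) / M) * 2 ^ m * ((1 + η) * 2 ^ (4 * l - 1)) =
        (1 + η) * (1 - γ) * ((C j).card / M) * (2 ^ (4 * l - 1) * 2 ^ m) := by ring
    rw [h3, hMr2]
    field_simp
  have hregO : ∀ j, ((S.actO.filter fun z => S.jj z = j).card : ℝ) *
      ((1 + η) * 2 ^ (4 * l - 1)) ≤ (1 + η) * (1 - γ) * (C j).card := by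
    intro j
    refine le_trans (mul_le_mul_of_nonneg_right ?_ hA.le) (hregA j)
    have h1 : (S.actO.filter fun z => S.jj z = j).card ≤
        (S.act.filter fun z => S.jj z = j).card := by
      refine card_le_card fun z hz => ?_
      obtain ⟨hz1, hz2⟩ := mem_filter.1 hz
      refine mem_filter.2 ⟨?_, hz2⟩
      obtain ⟨⟨j', hj', -⟩, h3⟩ := (mem_filter.1 hz1).2
      refine mem_filter.2 ⟨mem_univ _, ⟨j', hj', trivial⟩, ?_⟩
      refine le_trans (card_le_card ?_) h3
      have := Lb_subset lab j0 z z 1 1 (by simp)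
      exact this
    exact_mod_cast h1
  have hmn : ∀ x, ∑ j, ((C j).card : ℝ) * mn a (C j) x ≤ D := by
    intro x
    have h1 : ∀ j, ((C j).card : ℝ) * mn a (C j) x = ∑ y ∈ C j, a x y := by
      intro j
      have hcj : (0 : ℝ) < (C j).card := lt_of_lt_of_le (mul_pos hξ hMr) (hCξ j)
      unfold mn
      field_simp
    rw [sum_congr rfl fun j _ => h1 j, ← sum_biUnion, ← hrow x]
    · refine sum_le_sum_of_subset_of_nonneg (subset_univ _) fun y _ _ => ?_
      rcases ha01 x y with h | h <;> rw [h]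
      exact zero_le_one
    · intro j _ j' _ hjj
      refine disjoint_left.2 fun y h1 h2 => hjj (hdisj j j' y h1 h2)
  have hmn0 : ∀ j x, 0 ≤ mn a (C j) x := fun j x => by
    unfold mn
    refine div_nonneg (sum_nonneg fun y _ => ?_) (Nat.cast_nonneg _)
    rcases ha01 x y with h | h <;> rw [h]
    exact zero_le_one
  have hU : ∀ x, ∑ z ∈ S.act, (1 + η) * 2 ^ (4 * l - 1) * (mn S.a (S.C (S.jj z)) x / D0) ≤
      (1 + η) * (1 - γ) * (D / D0) := by
    intro x
    have h1 : ∑ z ∈ S.act, (1 + η) * 2 ^ (4 * l - 1) * (mn S.a (S.C (S.jj z)) x / D0) =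
        ∑ j, ((S.act.filter fun z => S.jj z = j).card : ℝ) * ((1 + η) * 2 ^ (4 * l - 1)) *
          (mn a (C j) x / D0) := by
      rw [← sum_fiberwise_of_maps_to (s := S.act) (t := univ) (g := S.jj)
        (fun z _ => mem_univ _)]
      refine sum_congr rfl fun j _ => ?_
      rw [sum_congr rfl fun z hz => by rw [(mem_filter.1 hz).2], sum_const, nsmul_eq_mul]
      change _ * (_ * (mn a (C j) x / D0)) = _
      ring
    rw [h1]
    calc ∑ j, ((S.act.filter fun z => S.jj z = j).card : ℝ) * ((1 + η) * 2 ^ (4 * l - 1)) *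
          (mn a (C j) x / D0)
        ≤ ∑ j, (1 + η) * (1 - γ) * (C j).card * (mn a (C j) x / D0) :=
          sum_le_sum fun j _ => mul_le_mul_of_nonneg_right (hregA j)
            (div_nonneg (hmn0 j x) hD0.le)
      _ = (1 + η) * (1 - γ) / D0 * ∑ j, ((C j).card : ℝ) * mn a (C j) x := by
          rw [mul_sum]
          refine sum_congr rfl fun j _ => ?_
          field_simp
      _ ≤ (1 + η) * (1 - γ) / D0 * D := by
          refine mul_le_mul_of_nonneg_left (hmn x) ?_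
          exact div_nonneg (mul_nonneg (by linarith) (by linarith)) hD0.le
      _ = _ := by ring
  -- loads
  have hL : ∀ y, (∑ z ∈ S.actO, if y ∈ S.C (S.jj z) then
      (1 + η) * 2 ^ (4 * l - 1) / ((S.C (S.jj z)).card : ℝ) else 0) ≤ (1 + η) * (1 - γ) := by
    intro y
    have hpos : 0 ≤ (1 + η) * (1 - γ) := mul_nonneg (by linarith) (by linarith)
    by_cases hy : ∃ j, y ∈ C j
    · obtain ⟨j, hj⟩ := hy
      have hcj : (0 : ℝ) < (C j).card := lt_of_lt_of_le (mul_pos hξ hMr) (hCξ j)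
      have h1 : (∑ z ∈ S.actO, if y ∈ S.C (S.jj z) then
          (1 + η) * 2 ^ (4 * l - 1) / ((S.C (S.jj z)).card : ℝ) else 0) =
          ∑ z ∈ S.actO.filter (fun z => S.jj z = j),
            (1 + η) * 2 ^ (4 * l - 1) / ((C j).card : ℝ) := by
        rw [sum_filter]
        refine sum_congr rfl fun z _ => ?_
        by_cases h : S.jj z = j
        · rw [if_pos h]
          have h2 : y ∈ S.C (S.jj z) := by
            rw [h]; exact hj
          rw [if_pos h2, h]
          rfl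
        · rw [if_neg h, if_neg]
          intro h2
          exact h (hdisj _ _ y h2 hj)
      rw [h1, sum_const, nsmul_eq_mul, ← mul_div_assoc, div_le_iff₀ hcj]
      exact hregO j
    · rw [sum_eq_zero]
      · exact hpos
      · intro z _
        rw [if_neg]
        intro h
        exact hy ⟨S.jj z, h⟩
  -- typical label sets
  have hP0 : ∀ i y, 0 ≤ S.P i y := fun i y => unif_nonneg _ _
  have hCne : ∀ j, (C j).Nonempty := by
    intro j
    rw [← card_pos]
    have hcj : (0 : ℝ) < (C j).card := lt_of_lt_of_le (mul_pos hξ hMr) (hCξ j)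
    exact_mod_cast hcj
  have hP1 : ∀ i, ∑ y, S.P i y = 1 := fun i => unif_sum _ (hCne _)
  have htyp' : ∀ z ∈ S.fin, ∀ J ⊆ S.L3 z,
      EE S.P (fun ω => ind (¬ Typ S.a (S.C (S.jj z)) S.τ S.ε J ω)) ≤ ε₂ := by
    intro z hz J hJ
    refine htyp (S.jj z) _ S.P J hP0 hP1 ?_ ((card_le_card hJ).trans (hS.hK3 z hz))
    intro i hi y
    have h1 := hS.hL3 z hz i (hJ hi)
    unfold SD.P
    rw [h1]
    rfl
  obtain ⟨ω, hω1, hω2, hω3, hω4, hω5⟩ := stage_one S hS inferInstance
    ((1 + η) * 2 ^ (4 * l - 1)) E _ _ ε₂ t V₁ V₂ hA hE0 hε₂ ht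
    (by rw [Fintype.card_fin]; exact hE) hU hL htyp' hV₁0 (by rw [hcZ]; exact hV₁) hV₂0
    (by rw [hcZ]; exact hV₂) (by rw [Fintype.card_fin]; exact hnum₁)
  have htail : S.tail ((1 + η) * 2 ^ (4 * l - 1)) ω ≤
      4 * ((1 + η) * M * (θ * E ^ (4 * l + m))) := by
    refine hω4.trans (le_of_eq ?_)
    rw [hcZ]
    push_cast
    have h1 : (1 + η) * 2 ^ (4 * l - 1) * 2 ^ m = (1 + η) * M := by
      rw [mul_assoc, hMr2]
    rw [h1]
    rfl
  obtain ⟨Φ, B, hB, hΦ⟩ := stage_two hl G hV e S K (ball m (m / 4 + 3)) D0 (ξ * M) hS rfl hadj ω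
    (fun z hz => by rw [← hS.own_cl z hz]; exact hω1 _) η ((1 + η) * (1 - γ) + t)
    (4 * ((1 + η) * M * (θ * E ^ (4 * l + m)))) t V₃ V₄ hη0 hη1 (by positivity) ht
    (fun x => (hω2 x).trans huse) hω3 htail hV₃0 hV₄0 hV₃ hV₄ hnum₂ hnum₃ hload
  -- fine base points
  let aty : (Fin m → ZMod 2) → Prop := fun z =>
    ∃ J ⊆ S.L3 z, ¬ Typ S.a (S.C (S.jj z)) S.τ S.ε J ω
  let F : Finset (Fin m → ZMod 2) := S.fin.filter fun z => ¬ aty z
  let F' : Finset (Fin m → ZMod 2) := univ.filter fun z => z ∈ S.actO ∧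
    ∀ i, Typ S.a (S.C (S.jj (nbz l z i))) S.τ S.ε (S.I (nbz l z i)) ω
  have hFF : ∀ z ∈ F, ∀ z', hammingDist z z' ≤ 1 → z' ∈ F' := by
    intro z hz z' hzz
    obtain ⟨h1, h2⟩ := mem_filter.1 hz
    obtain ⟨h3, h4⟩ := mk_near a C τ ε θ K j0 lab reg z z' h1 hzz
    refine mem_filter.2 ⟨mem_univ _, h3, fun i => ?_⟩
    obtain ⟨h5, h6⟩ := h4 (nbz l z' i) (dist_nbz z' i)
    by_contra hc
    refine h2 ⟨S.I (nbz l z' i), h6, ?_⟩
    have h5' : S.jj (nbz l z' i) = S.jj z := h5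
    rw [h5'] at hc
    exact hc
  obtain ⟨W, hW1, hW2⟩ := count_bad hl G Φ B F F' hFF fun x hx hxB hxF i => by
    obtain ⟨h1, h2⟩ := (mem_filter.1 hxF).2
    exact hΦ x hx hxB h1 h2 i
  refine ⟨Φ, W, ?_, hW2⟩
  have hcF : ((univ.filter fun z => z ∉ F).card : ℝ) ≤
      (univ.filter fun z => ¬ ∃ j, ∀ z', hammingDist z z' ≤ 3 → reg z' = some j).card +
        (univ.filter fun z =>
          K < ((univ.filter fun z' => hammingDist z z' ≤ 3).image lab).card).card +
        4 * (2 ^ K * ε₂ * 2 ^ m) := by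
    have h1 : (univ.filter fun z => z ∉ F) ⊆
        ((univ.filter fun z => ¬ ∃ j, ∀ z', hammingDist z z' ≤ 3 → reg z' = some j) ∪
        (univ.filter fun z =>
          K < ((univ.filter fun z' => hammingDist z z' ≤ 3).image lab).card)) ∪
        S.fin.filter aty := by
      intro z hz
      have hz' := (mem_filter.1 hz).2
      by_cases h2 : ∃ j, ∀ z', hammingDist z z' ≤ 3 → reg z' = some j
      · by_cases h3 : K < ((univ.filter fun z' => hammingDist z z' ≤ 3).image lab).card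
        · exact mem_union_left _ (mem_union_right _ (mem_filter.2 ⟨mem_univ _, h3⟩))
        · refine mem_union_right _ ?_
          have hfin : z ∈ S.fin := by
            obtain ⟨j, hj⟩ := h2
            refine mem_filter.2 ⟨mem_univ _, ⟨j, hj z (by simp), fun z' hz' => ?_⟩, ?_⟩
            · exact hj z' ((mem_Bl _ _ _).1 hz')
            · rw [card_Lb]
              exact not_lt.1 h3
          refine mem_filter.2 ⟨hfin, ?_⟩
          by_contra h4
          exact hz' (mem_filter.2 ⟨hfin, h4⟩)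
      · exact mem_union_left _ (mem_union_left _ (mem_filter.2 ⟨mem_univ _, h2⟩))
    have h2 := (card_le_card h1).trans ((card_union_le _ _).trans
      (Nat.add_le_add_right (card_union_le _ _) _))
    have h3 : ((S.fin.filter aty).card : ℝ) ≤ 4 * (2 ^ K * ε₂ * 2 ^ m) := by
      rw [hcZ] at hω5
      push_cast at hω5
      refine le_trans (le_of_eq ?_) hω5
      rw [card_eq_sum_ones, sum_filter]
      push_cast
      refine sum_congr rfl fun z _ => ?_
      by_cases h : aty z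
      · rw [if_pos h]; exact (ind_true h).symm
      · rw [if_neg h]; exact (ind_false h).symm
    have h4 : ((univ.filter fun z => z ∉ F).card : ℝ) ≤
      (univ.filter fun z => ¬ ∃ j, ∀ z', hammingDist z z' ≤ 3 → reg z' = some j).card +
        (univ.filter fun z =>
          K < ((univ.filter fun z' => hammingDist z z' ≤ 3).image lab).card).card +
        (S.fin.filter aty).card := by exact_mod_cast h2
    linarith
  have hW1' : (W.card : ℝ) ≤ 2 ^ (4 * l) * (univ.filter fun z => z ∉ F).card +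
      (4 * l + m + 1) * B.card := by exact_mod_cast hW1
  refine hW1'.trans (add_le_add ?_ ?_)
  · exact mul_le_mul_of_nonneg_left hcF (by positivity)
  · exact mul_le_mul_of_nonneg_left hB (by positivity)

end core

end Pool.Agent.QA
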