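import Pool.Agent.H73.Cube.McDW
import Pool.Agent.H16.Cube.Code

/-!
Project QA (MP_a55b9e_co): definitions. Almost spanning hypercubes in dense graphs.
-/

set_option autoImplicit false

open Finset

namespace Pool.Agent.QA

open Pool.Agent.H73.Cube (EE)

/-- indicator of a proposition -/
noncomputable def ind (p : Prop) : ℝ := open Classical in if p then 1 else 0

theorem ind_true {p : Prop} (h : p) : ind p = 1 := by unfold ind; rw [if_pos h]

theorem ind_false {p : Prop} (h : ¬ p) : ind p = 0 := by unfold ind; rw [if_neg h]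

theorem ind_nonneg (p : Prop) : 0 ≤ ind p := by unfold ind; split_ifs <;> norm_num

theorem ind_le_one (p : Prop) : ind p ≤ 1 := by unfold ind; split_ifs <;> norm_num

theorem ind_mono {p q : Prop} (h : p → q) : ind p ≤ ind q := by
  by_cases hp : p
  · rw [ind_true hp, ind_true (h hp)]
  · rw [ind_false hp]; exact ind_nonneg q

section cluster

variable {X Y ι : Type}

/-- relative degree of `x` into the cluster `C` -/
noncomputable def mn (a : X → Y → ℝ) (C : Finset Y) (x : X) : ℝ := (∑ y ∈ C, a x y) / C.card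

/-- covariance of two rows on the cluster `C` -/
noncomputable def cov (a : X → Y → ℝ) (C : Finset Y) (x x' : X) : ℝ :=
  (∑ y ∈ C, a x y * a x' y) / C.card - mn a C x * mn a C x'

/-- the sum of the relative degrees which are at least `τ` -/
noncomputable def Dp [Fintype X] (a : X → Y → ℝ) (C : Finset Y) (τ : ℝ) : ℝ :=
  ∑ x, if τ ≤ mn a C x then mn a C x else 0

/-- the weight `m ^ (1 - k)` of the vertices of relative degree `m ≥ τ` -/
noncomputable def gw (a : X → Y → ℝ) (C : Finset Y) (τ : ℝ) (k : ℕ) (x : X) : ℝ :=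
  if τ ≤ mn a C x then mn a C x * (mn a C x ^ k)⁻¹ else 0

/-- weight of `x` for the seeds `ω i`, `i ∈ I` -/
noncomputable def wx (a : X → Y → ℝ) (C : Finset Y) (τ : ℝ) (k : ℕ) (I : Finset ι) (ω : ι → Y)
    (x : X) : ℝ :=
  gw a C τ k x * ∏ i ∈ I, a x (ω i)

/-- typical tuples of seeds -/
def Typ [Fintype X] [DecidableEq ι] (a : X → Y → ℝ) (C : Finset Y) (τ ε : ℝ) (I : Finset ι)
    (ω : ι → Y) : Prop :=
  Dp a C τ - ε * Fintype.card X ≤ ∑ x, wx a C τ I.card I ω x ∧
    ∀ i ∈ I, ∑ x, wx a C τ I.card (I.erase i) ω x ≤ (1 + ε) * Fintype.card X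

/-- the law of the vertices in a block with the label set `I` -/
noncomputable def qd [Fintype X] [DecidableEq ι] (a : X → Y → ℝ) (C : Finset Y) (τ ε : ℝ)
    (I : Finset ι) (ω : ι → Y) (x : X) : ℝ :=
  ind (Typ a C τ ε I ω) * (wx a C τ I.card I ω x / ∑ x', wx a C τ I.card I ω x')

/-- the uniform law on a set -/
noncomputable def unif [DecidableEq Y] (C : Finset Y) (y : Y) : ℝ :=
  if y ∈ C then (C.card : ℝ)⁻¹ else 0

end cluster

/-- The data of stage one: `a` adjacency, `C` clusters, `Z` base points, `ι` indices of the seeds.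
`act`: base points whose blocks are used; `jj z` cluster of the base point, `I z` its labels;
`actO`: base points whose odd vertices are used, `own z` their own label, `nb z` the base points
of their neighbours; `fin` very good base points, `L3 z` all labels seen near `z`. -/
structure SD (X Y T ι Z : Type) (n : ℕ) where
  a : X → Y → ℝ
  C : T → Finset Y
  τ : ℝ
  ε : ℝ
  θ : ℝ
  cl : ι → T
  act : Finset Z
  jj : Z → T
  I : Z → Finset ι
  actO : Finset Z
  own : Z → ι
  nb : Z → Fin n → Z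
  fin : Finset Z
  L3 : Z → Finset ι

namespace SD

variable {X Y T ι Z : Type} {n : ℕ} [Fintype X] [DecidableEq Y] [DecidableEq ι]

/-- the labels which matter for the odd vertices over `z` -/
def L2 (S : SD X Y T ι Z n) (z : Z) : Finset ι := univ.biUnion fun l => S.I (S.nb z l)

/-- the law of the seeds -/
noncomputable def P (S : SD X Y T ι Z n) (i : ι) (y : Y) : ℝ := unif (S.C (S.cl i)) y

/-- the law of the vertices placed over `z` -/
noncomputable def q (S : SD X Y T ι Z n) (ω : ι → Y) (z : Z) (x : X) : ℝ :=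
  qd S.a (S.C (S.jj z)) S.τ S.ε (S.I z) ω x

/-- the law of the neighbours of an odd vertex over `z` -/
noncomputable def pr (S : SD X Y T ι Z n) (ω : ι → Y) (z : Z) (v : Fin n → X) : ℝ :=
  ∏ l, S.q ω (S.nb z l) (v l)

/-- the posterior weight of `y` for an odd vertex over `z` -/
noncomputable def w (S : SD X Y T ι Z n) (ω : ι → Y) (z : Z) (y : Y) (v : Fin n → X) : ℝ :=
  S.pr (Function.update ω (S.own z) y) z v /
    ∑ y' ∈ S.C (S.jj z), S.pr (Function.update ω (S.own z) y') z v

/-- the vectors of neighbours for which some posterior weight is large -/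
def bad (S : SD X Y T ι Z n) (ω : ι → Y) (z : Z) (v : Fin n → X) : Prop :=
  ∃ y ∈ S.C (S.jj z), 1 < S.θ * (S.C (S.jj z)).card * S.w ω z y v

/-- the truncated weight -/
noncomputable def wt (S : SD X Y T ι Z n) (ω : ι → Y) (z : Z) (y : Y) (v : Fin n → X) : ℝ :=
  ind (y ∈ S.C (S.jj z) ∧ ¬ S.bad ω z v) * S.w ω z y v

/-- usage of the vertex `x` -/
noncomputable def use (S : SD X Y T ι Z n) (A : ℝ) (ω : ι → Y) (x : X) : ℝ :=
  ∑ z ∈ S.act, A * S.q ω z x

/-- expected load of the vertex `y` -/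
noncomputable def load (S : SD X Y T ι Z n) (A : ℝ) (ω : ι → Y) (y : Y) : ℝ :=
  ∑ z ∈ S.actO, A * ∑ v, S.pr ω z v * S.wt ω z y v

/-- expected number of bad odd vertices -/
noncomputable def tail (S : SD X Y T ι Z n) (A : ℝ) (ω : ι → Y) : ℝ :=
  ∑ z ∈ S.actO, A * ∑ v, S.pr ω z v * ind (S.bad ω z v)

/-- the hypotheses on the data; `Vb` bounds the number of base points which see a seed, `D0` the
normalising sums, `ξ` the sizes of the clusters -/
structure Ok (S : SD X Y T ι Z n) (K Vb : ℕ) (D0 ξ : ℝ) : Prop where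
  a01 : ∀ x y, S.a x y = 0 ∨ S.a x y = 1
  τ0 : 0 < S.τ
  τ1 : S.τ ≤ 1
  ε0 : 0 < S.ε
  θ0 : 0 < S.θ
  D00 : 0 < D0
  ξ0 : 0 < ξ
  hD : ∀ j, D0 ≤ Dp S.a (S.C j) S.τ - S.ε * Fintype.card X
  hξ : ∀ j, ξ ≤ (S.C j).card
  hI : ∀ z ∈ S.act, ∀ i ∈ S.I z, S.cl i = S.jj z
  hK : ∀ z ∈ S.act, (S.I z).card ≤ K
  hV : ∀ i, (S.act.filter fun z => i ∈ S.I z).card ≤ Vb
  nb_act : ∀ z ∈ S.actO, ∀ l, S.nb z l ∈ S.act
  nb_jj : ∀ z ∈ S.actO, ∀ l, S.jj (S.nb z l) = S.jj z
  own_I : ∀ z ∈ S.actO, ∀ l, S.own z ∈ S.I (S.nb z l)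
  own_cl : ∀ z ∈ S.actO, S.cl (S.own z) = S.jj z
  hK2 : ∀ z ∈ S.actO, (S.L2 z).card ≤ K
  hV2 : ∀ i, (S.actO.filter fun z => i ∈ S.L2 z).card ≤ Vb
  hL3 : ∀ z ∈ S.fin, ∀ i ∈ S.L3 z, S.cl i = S.jj z
  hK3 : ∀ z ∈ S.fin, (S.L3 z).card ≤ K

end SD

section geometry

variable {l m : ℕ}

/-- the base point of a vertex of the cube: the last `m` coordinates -/
def bs (x : Fin (4 * l + m) → ZMod 2) : Fin m → ZMod 2 := fun i => x (Fin.natAdd (4 * l) i)

/-- the base points of the neighbours -/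
def nbz (l : ℕ) {m : ℕ} (z : Fin m → ZMod 2) (i : Fin (4 * l + m)) : Fin m → ZMod 2 :=
  Fin.addCases (motive := fun _ => Fin m → ZMod 2) (fun _ => z) (fun k => z + Pi.single k 1) i

/-- the coordinates of a vertex in its block -/
def co (x : Fin (4 * l + m) → ZMod 2) : Fin l → ZMod 2 :=
  fun k => x ⟨4 * k.1, by have := k.2; omega⟩

/-- the block of a vertex, given by its representative -/
def blk (x : Fin (4 * l + m) → ZMod 2) : Fin (4 * l + m) → ZMod 2 :=
  x + Pool.Agent.H16.Cube.cc (4 * l + m) (co x)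

/-- size of a ball in the cube -/
def ball (m k : ℕ) : ℕ := (univ.filter fun z : Fin m → ZMod 2 => hammingNorm z ≤ k).card

end geometry

end Pool.Agent.QA
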