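import Pool.Agent.QA.Main

/-!
Project QA (MP_a55b9e_co): translation to Boolean vectors.
-/

set_option autoImplicit false

open Finset

namespace Pool.Agent.QA

/-- Boolean vectors and vectors over `ZMod 2` -/
def boolEquiv : Bool ≃ ZMod 2 where
  toFun b := if b then 1 else 0
  invFun p := decide (p = 1)
  left_inv b := by cases b <;> decide
  right_inv p := by revert p; decide

theorem final (δ : ℝ) (hδ : 0 < δ) : ∃ n₀ : ℕ, ∀ n : ℕ, n₀ ≤ n →
    ∀ (G : SimpleGraph (Fin (2 ^ n))) [DecidableRel G.Adj],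
      (∀ v : Fin (2 ^ n), ((G.degree v : ℕ) : ℝ) > (1 - 1 / 1000) * (2 : ℝ) ^ n) →
      ∃ φ : (Fin n → Bool) ≃ Fin (2 ^ n),
        ((Finset.univ.filter fun x : Fin n → Bool =>
          ∃ y : Fin n → Bool, hammingDist x y = 1 ∧ ¬ G.Adj (φ x) (φ y)).card : ℝ) ≤
          δ * 2 ^ n := by
  classical
  obtain ⟨n₀, hn₀⟩ := approx δ hδ
  refine ⟨n₀, fun n hn G _ hG => ?_⟩
  obtain ⟨Φ, W, hW1, hW2⟩ := hn₀ n hn G hG
  let E : (Fin n → Bool) ≃ (Fin n → ZMod 2) := Equiv.arrowCongr (Equiv.refl _) boolEquiv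
  have hE : ∀ x i, E x i = boolEquiv (x i) := fun x i => rfl
  refine ⟨E.trans Φ, le_trans ?_ hW1⟩
  have h1 : (Finset.univ.filter fun x : Fin n → Bool =>
      ∃ y : Fin n → Bool, hammingDist x y = 1 ∧ ¬ G.Adj ((E.trans Φ) x) ((E.trans Φ) y)).card ≤
      W.card := by
    refine card_le_card_of_injOn E ?_ (E.injective.injOn)
    intro x hx
    obtain ⟨y, hy1, hy2⟩ := (mem_filter.1 (mem_coe.1 hx)).2
    by_contra hxW
    apply hy2
    unfold hammingDist at hy1
    obtain ⟨i, hi⟩ := card_eq_one.mp hy1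
    have h2 : ∀ j, x j ≠ y j ↔ j = i := by
      intro j
      have : j ∈ univ.filter (fun j => x j ≠ y j) ↔ j ∈ ({i} : Finset (Fin n)) := by rw [hi]
      simpa using this
    have h3 : E y = E x + Pi.single i 1 := by
      funext j
      rw [hE, Pi.add_apply, hE]
      by_cases hj : j = i
      · subst hj
        have h3 := (h2 j).mpr rfl
        rw [Pi.single_eq_same]
        revert h3
        cases x j <;> cases y j <;> simp [boolEquiv] <;> decide
      · have h3 : x j = y j := by
          by_contra h4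
          exact hj ((h2 j).mp h4)
        rw [Pi.single_eq_of_ne hj, add_zero, h3]
    change G.Adj (Φ (E x)) (Φ (E y))
    rw [h3]
    exact hW2 (E x) hxW i
  exact_mod_cast h1

end Pool.Agent.QA
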