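import Pool.Agent.QA.Defs

/-!
Project QA (MP_a55b9e_co), row QA-21: blocks and base points of the cube.
-/

set_option autoImplicit false

open Finset

namespace Pool.Agent.QA

section geometry

variable {l m : ℕ}

open Pool.Agent.H16.Cube (par cc)

theorem geo_sg (j : Fin (4 * l + m)) (k : Fin (4 * l + m)) :
    (Pi.single j (1 : ZMod 2) : Fin (4 * l + m) → ZMod 2) k = if k = j then 1 else 0 := by
  rw [Pi.single_apply]

theorem geo_nbz_cast (z : Fin m → ZMod 2) (i : Fin (4 * l)) : nbz l z (Fin.castAdd m i) = z := by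
  unfold nbz; rw [Fin.addCases_left]

theorem geo_nbz_nat (z : Fin m → ZMod 2) (k : Fin m) :
    nbz l z (Fin.natAdd (4 * l) k) = z + Pi.single k 1 := by
  unfold nbz; rw [Fin.addCases_right]

theorem bs_nbr (x : Fin (4 * l + m) → ZMod 2) (i : Fin (4 * l + m)) :
    bs (x + Pi.single i 1) = nbz l (bs x) i := by
  induction i using Fin.addCases with
  | left i =>
    rw [geo_nbz_cast]
    funext k
    show x (Fin.natAdd (4 * l) k) + (Pi.single (Fin.castAdd m i) (1 : ZMod 2) :
      Fin (4 * l + m) → ZMod 2) (Fin.natAdd (4 * l) k) = x (Fin.natAdd (4 * l) k)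
    rw [geo_sg, if_neg, add_zero]
    intro h
    have := congrArg Fin.val h
    simp only [Fin.val_natAdd, Fin.val_castAdd] at this
    have := i.2
    omega
  | right i =>
    rw [geo_nbz_nat]
    funext k
    show x (Fin.natAdd (4 * l) k) + (Pi.single (Fin.natAdd (4 * l) i) (1 : ZMod 2) :
      Fin (4 * l + m) → ZMod 2) (Fin.natAdd (4 * l) k) = x (Fin.natAdd (4 * l) k) +
      (Pi.single i (1 : ZMod 2) : Fin m → ZMod 2) k
    rw [geo_sg, Pi.single_apply]
    congr 1
    by_cases h : k = i
    · rw [if_pos h, if_pos (by rw [h])]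
    · rw [if_neg h, if_neg]
      intro h'
      apply h
      have := congrArg Fin.val h'
      simp only [Fin.val_natAdd] at this
      exact Fin.ext (by omega)

theorem dist_nbz (z : Fin m → ZMod 2) (i : Fin (4 * l + m)) : hammingDist z (nbz l z i) ≤ 1 := by
  induction i using Fin.addCases with
  | left i => rw [geo_nbz_cast, hammingDist_self]; exact zero_le_one
  | right i =>
    rw [geo_nbz_nat]
    unfold hammingDist
    have : (univ.filter fun k => z k ≠ (z + (Pi.single i 1 : Fin m → ZMod 2)) k) ⊆ {i} := by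
      intro k hk
      rw [mem_filter] at hk
      rw [mem_singleton]
      by_contra h
      apply hk.2
      rw [Pi.add_apply, Pi.single_apply, if_neg h, add_zero]
    exact (card_le_card this).trans (card_singleton i).le

theorem geo_cc_high (r : Fin l → ZMod 2) (i : Fin m) :
    cc (4 * l + m) r (Fin.natAdd (4 * l) i) = 0 := by
  unfold cc
  rw [dif_neg]
  rw [Fin.val_natAdd]
  omega

theorem geo_bs_add_cc (x : Fin (4 * l + m) → ZMod 2) (r : Fin l → ZMod 2) :
    bs (x + cc (4 * l + m) r) = bs x := by
  funext i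
  show x (Fin.natAdd (4 * l) i) + cc (4 * l + m) r (Fin.natAdd (4 * l) i) =
    x (Fin.natAdd (4 * l) i)
  rw [geo_cc_high, add_zero]

theorem bs_blk (x : Fin (4 * l + m) → ZMod 2) : bs (blk x) = bs x := geo_bs_add_cc x _

theorem geo_par_add_cc (x : Fin (4 * l + m) → ZMod 2) (r : Fin l → ZMod 2) :
    par (x + cc (4 * l + m) r) = par x := by
  rw [Pool.Agent.H16.Cube.par_add, Pool.Agent.H16.Cube.par_cc (by omega), add_zero]

theorem par_blk (x : Fin (4 * l + m) → ZMod 2) : par (blk x) = par x := geo_par_add_cc x _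

theorem blk_add (x : Fin (4 * l + m) → ZMod 2) : blk x + cc (4 * l + m) (co x) = x := by
  unfold blk
  rw [add_assoc, Pool.Agent.H16.Cube.fun_add_self, add_zero]

theorem geo_co_add_cc (x : Fin (4 * l + m) → ZMod 2) (r : Fin l → ZMod 2) :
    co (x + cc (4 * l + m) r) = co x + r := by
  funext k
  show x _ + cc (4 * l + m) r _ = x _ + r k
  congr 1
  unfold cc
  have hk := k.2
  rw [dif_pos (by show 4 * k.1 / 4 < l; omega)]
  congr 1
  apply Fin.ext
  show 4 * k.1 / 4 = k.1
  omega

theorem geo_co_blk (x : Fin (4 * l + m) → ZMod 2) : co (blk x) = 0 := by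
  unfold blk
  rw [geo_co_add_cc, Pool.Agent.H16.Cube.fun_add_self]

theorem geo_cc_zero (n : ℕ) : cc n (0 : Fin l → ZMod 2) = 0 := by
  funext i
  unfold cc
  split_ifs <;> rfl

theorem geo_blk_of_co (x : Fin (4 * l + m) → ZMod 2) (h : co x = 0) : blk x = x := by
  unfold blk
  rw [h, geo_cc_zero, add_zero]

theorem blk_blk (x : Fin (4 * l + m) → ZMod 2) : blk (blk x) = blk x := geo_blk_of_co _ (geo_co_blk x)

theorem blk_nbr (x : Fin (4 * l + m) → ZMod 2) (i j : Fin (4 * l + m)) (hij : i ≠ j) :
    blk (x + Pi.single i 1) ≠ blk (x + Pi.single j 1) :=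
  (Pool.Agent.H16.Cube.cubeBC (4 * l + m) l (by omega)).pr_nbr x i j hij

/-- a vertex of a block is an odd neighbour of at most `(4l+m) 2^l` vertices -/
theorem card_near_blk (D : Fin (4 * l + m) → ZMod 2) :
    (univ.filter fun x : Fin (4 * l + m) → ZMod 2 => ∃ i, blk (x + Pi.single i 1) = D).card ≤
      (4 * l + m) * 2 ^ l := by
  have h := (Pool.Agent.H16.Cube.cubeBC (4 * l + m) l (by omega)).card_touch_le D
  rw [Fintype.card_fun, ZMod.card, Fintype.card_fin] at h
  refine (card_le_card ?_).trans h
  intro x hx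
  rw [mem_filter] at hx ⊢
  refine ⟨mem_univ _, ?_⟩
  rw [Pool.Agent.H16.Cube.BC.mem_img]
  exact hx.2

theorem geo_card_bs_all (z : Fin m → ZMod 2) :
    (univ.filter fun x : Fin (4 * l + m) → ZMod 2 => bs x = z).card = 2 ^ (4 * l) := by
  have h : Fintype.card (Fin (4 * l) → ZMod 2) = 2 ^ (4 * l) := by
    rw [Fintype.card_fun, ZMod.card, Fintype.card_fin]
  rw [← h, ← card_univ]
  symm
  refine card_bij (fun y _ => Fin.append y z) ?_ ?_ ?_
  · intro y _
    rw [mem_filter]
    refine ⟨mem_univ _, ?_⟩
    funext i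
    show Fin.append y z (Fin.natAdd (4 * l) i) = z i
    rw [Fin.append_right]
  · intro y _ y' _ hyy
    funext i
    have := congrFun hyy (Fin.castAdd m i)
    simpa only [Fin.append_left] using this
  · intro x hx
    rw [mem_filter] at hx
    refine ⟨fun i => x (Fin.castAdd m i), mem_univ _, ?_⟩
    funext i
    induction i using Fin.addCases with
    | left i => rw [Fin.append_left]
    | right i => rw [Fin.append_right, ← hx.2]; rfl

theorem card_bs (hl : 1 ≤ l) (z : Fin m → ZMod 2) (p : ZMod 2) :
    (univ.filter fun x : Fin (4 * l + m) → ZMod 2 => par x = p ∧ bs x = z).card =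
      2 ^ (4 * l - 1) := by
  -- flipping the coordinate `0`
  have hflip : ∀ q : ZMod 2,
      (univ.filter fun x : Fin (4 * l + m) → ZMod 2 => par x = q ∧ bs x = z).card ≤
      (univ.filter fun x : Fin (4 * l + m) → ZMod 2 => par x = q + 1 ∧ bs x = z).card := by
    intro q
    have h0 : 0 < 4 * l := by omega
    refine card_le_card_of_injOn (fun x => x + Pi.single (Fin.castAdd m ⟨0, h0⟩) 1) ?_ ?_
    · intro x hx
      have hx' := (mem_filter.1 (mem_coe.1 hx)).2
      refine mem_coe.2 (mem_filter.2 ⟨mem_univ _, ?_, ?_⟩)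
      · rw [Pool.Agent.H16.Cube.par_add, Pool.Agent.H16.Cube.par_single, hx'.1]
      · rw [bs_nbr, geo_nbz_cast, hx'.2]
    · intro x _ y _ hxy
      exact add_left_injective _ hxy
  have hsum : (univ.filter fun x : Fin (4 * l + m) → ZMod 2 => par x = p ∧ bs x = z).card +
      (univ.filter fun x : Fin (4 * l + m) → ZMod 2 => par x = p + 1 ∧ bs x = z).card =
      2 ^ (4 * l) := by
    rw [← geo_card_bs_all (l := l) z, ← card_union_of_disjoint]
    · congr 1
      ext x
      simp only [mem_union, mem_filter, mem_univ, true_and]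
      constructor
      · rintro (h | h)
        · exact h.2
        · exact h.2
      · intro h
        have : par x = p ∨ par x = p + 1 := by
          generalize par x = a
          revert a p; decide
        rcases this with h' | h'
        · exact Or.inl ⟨h', h⟩
        · exact Or.inr ⟨h', h⟩
    · rw [disjoint_left]
      intro x h1 h2
      have e1 := (mem_filter.1 h1).2.1
      have e2 := (mem_filter.1 h2).2.1
      rw [e1] at e2
      revert e2
      generalize p = a
      revert a; decide
  have h1 := hflip p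
  have h2 := hflip (p + 1)
  have e : p + 1 + 1 = p := by
    generalize p = a
    revert a; decide
  rw [e] at h2
  have e2 : 2 ^ (4 * l) = 2 * 2 ^ (4 * l - 1) := by
    rw [← pow_succ']
    congr 1
    omega
  omega

theorem card_blk (hl : 1 ≤ l) (z : Fin m → ZMod 2) (p : ZMod 2) :
    (univ.filter fun x : Fin (4 * l + m) → ZMod 2 => blk x = x ∧ par x = p ∧ bs x = z).card *
      2 ^ l = 2 ^ (4 * l - 1) := by
  have h : Fintype.card (Fin l → ZMod 2) = 2 ^ l := by
    rw [Fintype.card_fun, ZMod.card, Fintype.card_fin]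
  rw [← card_bs hl z p, ← h, ← card_univ, ← card_product]
  refine card_bij (fun q _ => q.1 + cc (4 * l + m) q.2) ?_ ?_ ?_
  · intro q hq
    have h1 := (mem_filter.1 (mem_product.1 hq).1).2
    refine mem_filter.2 ⟨mem_univ _, ?_, ?_⟩
    · rw [geo_par_add_cc]; exact h1.2.1
    · rw [geo_bs_add_cc]; exact h1.2.2
  · intro q hq q' hq' hqq
    have h1 := (mem_filter.1 (mem_product.1 hq).1).2.1
    have h1' := (mem_filter.1 (mem_product.1 hq').1).2.1
    have c1 : co q.1 = 0 := by rw [← h1]; exact geo_co_blk _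
    have c1' : co q'.1 = 0 := by rw [← h1']; exact geo_co_blk _
    have h2 := congrArg co hqq
    simp only [geo_co_add_cc, c1, c1', zero_add] at h2
    have h3 : q.1 = q'.1 := by
      have h4 : q.1 + cc (4 * l + m) q.2 = q'.1 + cc (4 * l + m) q'.2 := hqq
      rw [h2] at h4
      exact add_left_injective _ h4
    exact Prod.ext h3 h2
  · intro x hx
    have h1 := (mem_filter.1 hx).2
    refine ⟨(blk x, co x), ?_, blk_add x⟩
    refine mem_product.2 ⟨mem_filter.2 ⟨mem_univ _, blk_blk x, ?_, ?_⟩, mem_univ _⟩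
    · rw [par_blk]; exact h1.1
    · rw [bs_blk]; exact h1.2

end geometry

end Pool.Agent.QA
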