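import Pool.Agent.QA.Geo
import Pool.Agent.QA.Ball

/-!
Project QA: the data of stage one for the cube.
-/

set_option autoImplicit false

open Finset

namespace Pool.Agent.QA

open Pool.Agent.H73.Cube (EE)

section inst

variable {X Y T : Type} {l m : ℕ}

/-- ball around `z` -/
def Bl (z : Fin m → ZMod 2) (k : ℕ) : Finset (Fin m → ZMod 2) :=
  univ.filter fun z' => hammingDist z z' ≤ k

theorem mem_Bl (z z' : Fin m → ZMod 2) (k : ℕ) : z' ∈ Bl z k ↔ hammingDist z z' ≤ k := by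
  simp [Bl]

theorem Bl_subset (z z' : Fin m → ZMod 2) (k j : ℕ) (h : hammingDist z z' ≤ j) :
    Bl z' k ⊆ Bl z (j + k) := by
  intro u hu
  rw [mem_Bl] at hu ⊢
  exact (hammingDist_triangle z z' u).trans (by omega)

/-- labels seen from `z` -/
def Lb [DecidableEq T] (lab : (Fin m → ZMod 2) → (Fin m → ZMod 2)) (j : T) (z : Fin m → ZMod 2)
    (k : ℕ) : Finset ((Fin m → ZMod 2) × T) :=
  ((Bl z k).image lab).image fun w => (w, j)

theorem mem_Lb [DecidableEq T] (lab : (Fin m → ZMod 2) → (Fin m → ZMod 2)) (j : T)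
    (z : Fin m → ZMod 2) (k : ℕ) (i : (Fin m → ZMod 2) × T) :
    i ∈ Lb lab j z k ↔ (∃ z', hammingDist z z' ≤ k ∧ lab z' = i.1) ∧ i.2 = j := by
  unfold Lb
  simp only [mem_image, mem_Bl]
  constructor
  · rintro ⟨w, ⟨z', h1, rfl⟩, rfl⟩
    exact ⟨⟨z', h1, rfl⟩, rfl⟩
  · rintro ⟨⟨z', h1, h2⟩, h3⟩
    exact ⟨i.1, ⟨z', h1, h2⟩, by rw [← h3]⟩

theorem Lb_subset [DecidableEq T] (lab : (Fin m → ZMod 2) → (Fin m → ZMod 2)) (j : T)
    (z z' : Fin m → ZMod 2) (k i : ℕ) (h : hammingDist z z' ≤ i) :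
    Lb lab j z' k ⊆ Lb lab j z (i + k) := by
  unfold Lb
  exact image_subset_image (image_subset_image (Bl_subset z z' k i h))

theorem card_Lb [DecidableEq T] (lab : (Fin m → ZMod 2) → (Fin m → ZMod 2)) (j : T)
    (z : Fin m → ZMod 2) (k : ℕ) : (Lb lab j z k).card = ((Bl z k).image lab).card := by
  unfold Lb
  exact card_image_of_injective _ fun a b h => (Prod.mk.injEq _ _ _ _ ▸ h).1

/-- the data of stage one for the cube -/
def mk (l : ℕ) [DecidableEq T] (a : X → Y → ℝ) (C : T → Finset Y) (τ ε θ : ℝ) (K : ℕ) (j0 : T)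
    (lab : (Fin m → ZMod 2) → (Fin m → ZMod 2)) (reg : (Fin m → ZMod 2) → Option T) :
    SD X Y T ((Fin m → ZMod 2) × T) (Fin m → ZMod 2) (4 * l + m) where
  a := a
  C := C
  τ := τ
  ε := ε
  θ := θ
  cl := Prod.snd
  act := univ.filter fun z => (∃ j ∈ reg z, True) ∧ (Lb lab j0 z 1).card ≤ K
  jj z := (reg z).getD j0
  I z := Lb lab ((reg z).getD j0) z 1
  actO := univ.filter fun z => (∃ j ∈ reg z, ∀ z' ∈ Bl z 1, reg z' = some j) ∧
    (Lb lab j0 z 2).card ≤ K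
  own z := (lab z, (reg z).getD j0)
  nb := nbz l
  fin := univ.filter fun z => (∃ j ∈ reg z, ∀ z' ∈ Bl z 3, reg z' = some j) ∧
    (Lb lab j0 z 3).card ≤ K
  L3 z := Lb lab ((reg z).getD j0) z 3

theorem mk_jj_of_mem (a : X → Y → ℝ) (C : T → Finset Y) (τ ε θ : ℝ) (K : ℕ) (j0 : T)
    [DecidableEq T] (lab : (Fin m → ZMod 2) → (Fin m → ZMod 2))
    (reg : (Fin m → ZMod 2) → Option T) (z : Fin m → ZMod 2) (j : T) (h : reg z = some j) :
    (mk l a C τ ε θ K j0 lab reg).jj z = j := by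
  change (reg z).getD j0 = j
  rw [h]
  rfl

theorem mk_L2_subset (a : X → Y → ℝ) (C : T → Finset Y) (τ ε θ : ℝ) (K : ℕ) (j0 : T)
    [DecidableEq T] (lab : (Fin m → ZMod 2) → (Fin m → ZMod 2))
    (reg : (Fin m → ZMod 2) → Option T) (z : Fin m → ZMod 2)
    (hz : z ∈ (mk l a C τ ε θ K j0 lab reg).actO) :
    (mk l a C τ ε θ K j0 lab reg).L2 z ⊆ Lb lab ((reg z).getD j0) z 2 := by
  obtain ⟨⟨j, hj, h1⟩, h2⟩ := (mem_filter.1 hz).2
  intro i hi
  unfold SD.L2 at hi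
  obtain ⟨k, -, hk⟩ := mem_biUnion.1 hi
  have hd : hammingDist z (nbz l z k) ≤ 1 := dist_nbz z k
  have h3 : reg (nbz l z k) = some j := h1 _ ((mem_Bl _ _ _).2 hd)
  have hk' : i ∈ Lb lab ((reg (nbz l z k)).getD j0) (nbz l z k) 1 := hk
  rw [h3] at hk'
  have h4 : reg z = some j := hj
  rw [h4]
  exact Lb_subset lab j z _ 1 1 hd hk'

theorem mk_ok [Fintype X] (a : X → Y → ℝ) (C : T → Finset Y) (τ ε θ : ℝ) (K : ℕ) (j0 : T)
    [DecidableEq T] (lab : (Fin m → ZMod 2) → (Fin m → ZMod 2))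
    (reg : (Fin m → ZMod 2) → Option T) (D0 ξ : ℝ) (ha : ∀ x y, a x y = 0 ∨ a x y = 1)
    (hτ : 0 < τ) (hτ1 : τ ≤ 1) (hε : 0 < ε) (hθ : 0 < θ) (hD0 : 0 < D0) (hξ : 0 < ξ)
    (hD : ∀ j, D0 ≤ Dp a (C j) τ - ε * Fintype.card X) (hC : ∀ j, ξ ≤ (C j).card)
    (hlab : ∀ z, hammingDist z (lab z) ≤ m / 4) :
    (mk l a C τ ε θ K j0 lab reg).Ok K (ball m (m / 4 + 3)) D0 ξ := by
  have hcard : ∀ (j j' : T) (z : Fin m → ZMod 2) (k : ℕ),
      (Lb lab j z k).card = (Lb lab j' z k).card := fun j j' z k => by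
    rw [card_Lb, card_Lb]
  have hVb : ∀ (s : Finset (Fin m → ZMod 2)) (w : Fin m → ZMod 2) (k : ℕ), k ≤ 3 →
      (∀ z ∈ s, ∃ z', hammingDist z z' ≤ k ∧ lab z' = w) → s.card ≤ ball m (m / 4 + 3) := by
    intro s w k hk hs
    rw [← ball_center m (m / 4 + 3) w]
    refine card_le_card fun z hz => ?_
    obtain ⟨z', h1, h2⟩ := hs z hz
    refine mem_filter.2 ⟨mem_univ _, ?_⟩
    have h3 := hlab z'
    rw [h2] at h3
    have h4 := hammingDist_triangle z z' w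
    omega
  refine ⟨ha, hτ, hτ1, hε, hθ, hD0, hξ, hD, hC, ?_, ?_, ?_, ?_, ?_, ?_, ?_, ?_, ?_, ?_, ?_⟩
  · intro z _ i hi
    exact ((mem_Lb _ _ _ _ _).1 hi).2
  · intro z hz
    refine le_trans (le_of_eq ?_) (mem_filter.1 hz).2.2
    exact hcard _ _ _ _
  · intro i
    refine hVb _ i.1 1 (by norm_num) fun z hz => ?_
    exact ((mem_Lb _ _ _ _ _).1 (mem_filter.1 hz).2).1
  · intro z hz k
    obtain ⟨⟨j, hj, h1⟩, h2⟩ := (mem_filter.1 hz).2
    have hd : hammingDist z (nbz l z k) ≤ 1 := dist_nbz z k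
    have h3 : reg (nbz l z k) = some j := h1 _ ((mem_Bl _ _ _).2 hd)
    refine mem_filter.2 ⟨mem_univ _, ⟨j, h3, trivial⟩, ?_⟩
    exact (card_le_card (Lb_subset lab j0 z _ 1 1 hd)).trans h2
  · intro z hz k
    obtain ⟨⟨j, hj, h1⟩, h2⟩ := (mem_filter.1 hz).2
    have hd : hammingDist z (nbz l z k) ≤ 1 := dist_nbz z k
    have h3 : reg (nbz l z k) = some j := h1 _ ((mem_Bl _ _ _).2 hd)
    rw [mk_jj_of_mem a C τ ε θ K j0 lab reg z j hj]
    exact mk_jj_of_mem a C τ ε θ K j0 lab reg _ j h3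
  · intro z hz k
    obtain ⟨⟨j, hj, h1⟩, h2⟩ := (mem_filter.1 hz).2
    have hd : hammingDist z (nbz l z k) ≤ 1 := dist_nbz z k
    have h3 : reg (nbz l z k) = some j := h1 _ ((mem_Bl _ _ _).2 hd)
    have hj' : reg z = some j := hj
    change (lab z, (reg z).getD j0) ∈ Lb lab ((reg (nbz l z k)).getD j0) (nbz l z k) 1
    rw [h3, hj', mem_Lb]
    exact ⟨⟨z, by rw [hammingDist_comm]; exact hd, rfl⟩, rfl⟩
  · intro z _
    rfl
  · intro z hz
    refine (card_le_card (mk_L2_subset a C τ ε θ K j0 lab reg z hz)).trans ?_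
    refine le_trans (le_of_eq ?_) (mem_filter.1 hz).2.2
    exact hcard _ _ _ _
  · intro i
    refine hVb _ i.1 2 (by norm_num) fun z hz => ?_
    have h1 := mk_L2_subset a C τ ε θ K j0 lab reg z (mem_filter.1 hz).1 (mem_filter.1 hz).2
    exact ((mem_Lb _ _ _ _ _).1 h1).1
  · intro z _ i hi
    exact ((mem_Lb _ _ _ _ _).1 hi).2
  · intro z hz
    refine le_trans (le_of_eq ?_) (mem_filter.1 hz).2.2
    exact hcard _ _ _ _

/-- near a fine base point everything is active -/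
theorem mk_near (a : X → Y → ℝ) (C : T → Finset Y) (τ ε θ : ℝ) (K : ℕ) (j0 : T)
    [DecidableEq T] (lab : (Fin m → ZMod 2) → (Fin m → ZMod 2))
    (reg : (Fin m → ZMod 2) → Option T) (z z' : Fin m → ZMod 2)
    (hz : z ∈ (mk l a C τ ε θ K j0 lab reg).fin) (hzz : hammingDist z z' ≤ 1) :
    z' ∈ (mk l a C τ ε θ K j0 lab reg).actO ∧
      ∀ z'', hammingDist z' z'' ≤ 1 →
        (mk l a C τ ε θ K j0 lab reg).jj z'' = (mk l a C τ ε θ K j0 lab reg).jj z ∧
        (mk l a C τ ε θ K j0 lab reg).I z'' ⊆ (mk l a C τ ε θ K j0 lab reg).L3 z := by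
  obtain ⟨⟨j, hj, h1⟩, h2⟩ := (mem_filter.1 hz).2
  have hj' : reg z = some j := hj
  constructor
  · refine mem_filter.2 ⟨mem_univ _, ⟨j, ?_, ?_⟩, ?_⟩
    · exact h1 z' ((mem_Bl _ _ _).2 (hzz.trans (by norm_num)))
    · intro u hu
      rw [mem_Bl] at hu
      refine h1 u ((mem_Bl _ _ _).2 ((hammingDist_triangle z z' u).trans (by omega)))
    · exact (card_le_card (Lb_subset lab j0 z z' 2 1 hzz)).trans h2
  · intro u hu
    have hd : hammingDist z u ≤ 2 := (hammingDist_triangle z z' u).trans (by omega)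
    have h3 : reg u = some j := h1 u ((mem_Bl _ _ _).2 (hd.trans (by norm_num)))
    constructor
    · rw [mk_jj_of_mem a C τ ε θ K j0 lab reg z j hj']
      exact mk_jj_of_mem a C τ ε θ K j0 lab reg _ j h3
    · change Lb lab ((reg u).getD j0) u 1 ⊆ Lb lab ((reg z).getD j0) z 3
      rw [h3, hj']
      exact Lb_subset lab j z u 1 2 hd

end inst

end Pool.Agent.QA
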