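import Pool.Agent.QA.Ball

/-!
Project QA (MP_a55b9e_co), row QA-18: labels with few values on most small balls
(helper7 for helper38).
-/

set_option autoImplicit false

open Finset

namespace Pool.Agent.QA

section lab

variable {m : ℕ}

/-- the label of a point: the first centre of the list within distance `r` -/
def labL (r : ℕ) : List (Fin m → ZMod 2) → (Fin m → ZMod 2) → (Fin m → ZMod 2)
  | [], z => z
  | c :: cs, z => if hammingDist z c ≤ r then c else labL r cs z

/-- the list does not show that the points near `z` have at most `k` labels -/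
def failL (r : ℕ) : List (Fin m → ZMod 2) → ℕ → (Fin m → ZMod 2) → Prop
  | [], _, _ => True
  | _ :: _, 0, _ => True
  | c :: cs, k + 1, z => ¬ (hammingDist z c + 3 ≤ r) ∧
      (if hammingDist z c ≤ r + 3 then failL r cs k z else failL r cs (k + 1) z)

theorem labL_dist (r : ℕ) (cs : List (Fin m → ZMod 2)) (z : Fin m → ZMod 2) :
    hammingDist z (labL r cs z) ≤ r := by
  induction cs with
  | nil => simp [labL]
  | cons c cs ih =>
    rw [labL]
    split_ifs with h
    · exact h
    · exact ih

theorem labL_card (r : ℕ) (cs : List (Fin m → ZMod 2)) (z : Fin m → ZMod 2) : ∀ k : ℕ,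
    ¬ failL r cs k z →
    ((univ.filter fun z' => hammingDist z z' ≤ 3).image (labL r cs)).card ≤ k := by
  induction cs with
  | nil => intro k h; exact absurd trivial h
  | cons c cs ih =>
    intro k h
    cases k with
    | zero => exact absurd trivial h
    | succ k =>
      rw [failL, not_and_or, not_not] at h
      by_cases hd : hammingDist z c + 3 ≤ r
      · have hsub : (univ.filter fun z' => hammingDist z z' ≤ 3).image (labL r (c :: cs)) ⊆ {c} := by
          intro x hx
          obtain ⟨z', hz', rfl⟩ := mem_image.mp hx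
          have h3 : hammingDist z z' ≤ 3 := (mem_filter.mp hz').2
          have h4 : hammingDist z' c ≤ r := by
            have := hammingDist_triangle z' z c
            rw [hammingDist_comm z' z] at this
            omega
          rw [mem_singleton, labL, if_pos h4]
        exact (card_le_card hsub).trans (by simp)
      · have h := h.resolve_left hd
        by_cases hh : hammingDist z c ≤ r + 3
        · rw [if_pos hh] at h
          have h1 := ih k h
          have hsub : (univ.filter fun z' => hammingDist z z' ≤ 3).image (labL r (c :: cs)) ⊆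
              insert c ((univ.filter fun z' => hammingDist z z' ≤ 3).image (labL r cs)) := by
            intro x hx
            obtain ⟨z', hz', rfl⟩ := mem_image.mp hx
            rw [labL]
            split_ifs with h5
            · exact mem_insert_self _ _
            · exact mem_insert_of_mem (mem_image_of_mem _ hz')
          exact (card_le_card hsub).trans ((card_insert_le _ _).trans (by omega))
        · rw [if_neg hh] at h
          have h1 := ih (k + 1) h
          have heq : (univ.filter fun z' => hammingDist z z' ≤ 3).image (labL r (c :: cs)) =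
              (univ.filter fun z' => hammingDist z z' ≤ 3).image (labL r cs) := by
            refine image_congr fun z' hz' => ?_
            have h3 : hammingDist z z' ≤ 3 := by simpa using hz'
            have h4 : ¬ hammingDist z' c ≤ r := by
              have := hammingDist_triangle z z' c
              omega
            rw [labL, if_neg h4]
          rw [heq]
          exact h1

open Classical in
/-- the averaging argument -/
theorem label_greedy (r b₁ b₂ : ℕ) (ρ p : ℝ) (hρ0 : 0 ≤ ρ) (hp1 : p ≤ 1)
    (h1 : ∀ z : Fin m → ZMod 2, (univ.filter fun c => hammingDist z c + 3 ≤ r).card = b₁)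
    (h2 : ∀ z : Fin m → ZMod 2, (univ.filter fun c => hammingDist z c ≤ r + 3).card = b₂)
    (hp : (b₁ : ℝ) = p * 2 ^ m) (hb : (b₂ : ℝ) * (1 - ρ) ≤ b₁) (L : ℕ) :
    ∀ (A : Finset (Fin m → ZMod 2)) (κ : (Fin m → ZMod 2) → ℕ),
      ∃ cs : List (Fin m → ZMod 2), ((A.filter fun z => failL r cs (κ z) z).card : ℝ) ≤
        ∑ z ∈ A, (ρ ^ κ z + (1 - p) ^ L) := by
  induction L with
  | zero =>
    intro A κ
    refine ⟨[], ?_⟩
    have h3 : ((A.filter fun z => failL r [] (κ z) z).card : ℝ) ≤ ∑ z ∈ A, (1 : ℝ) := by
      rw [sum_const, nsmul_eq_mul, mul_one]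
      exact_mod_cast card_filter_le _ _
    refine h3.trans (sum_le_sum fun z _ => ?_)
    have := pow_nonneg hρ0 (κ z)
    rw [pow_zero]
    linarith
  | succ L ih =>
    intro A κ
    have hq : 0 ≤ (1 - p) ^ L := pow_nonneg (by linarith) _
    -- the next step for every first centre
    have hstep := fun c : Fin m → ZMod 2 =>
      ih (A.filter fun z => κ z ≠ 0 ∧ ¬ (hammingDist z c + 3 ≤ r))
        (fun z => if hammingDist z c ≤ r + 3 then κ z - 1 else κ z)
    choose cs hcs using hstep
    -- the bound for the list `c :: cs c`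
    set g : (Fin m → ZMod 2) → (Fin m → ZMod 2) → ℝ := fun c z =>
      if κ z = 0 then 1 else if hammingDist z c + 3 ≤ r then 0 else
        ρ ^ (if hammingDist z c ≤ r + 3 then κ z - 1 else κ z) + (1 - p) ^ L with hg
    have hbound : ∀ c, ((A.filter fun z => failL r (c :: cs c) (κ z) z).card : ℝ) ≤
        ∑ z ∈ A, g c z := by
      intro c
      have hsub : (A.filter fun z => failL r (c :: cs c) (κ z) z) ⊆
          (A.filter fun z => κ z = 0) ∪
            ((A.filter fun z => κ z ≠ 0 ∧ ¬ (hammingDist z c + 3 ≤ r)).filter fun z =>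
              failL r (cs c) (if hammingDist z c ≤ r + 3 then κ z - 1 else κ z) z) := by
        intro z hz
        obtain ⟨hzA, hzf⟩ := mem_filter.mp hz
        by_cases h0 : κ z = 0
        · exact mem_union_left _ (mem_filter.mpr ⟨hzA, h0⟩)
        · obtain ⟨k, hk⟩ := Nat.exists_eq_succ_of_ne_zero h0
          rw [hk] at hzf
          rw [failL] at hzf
          refine mem_union_right _ (mem_filter.mpr ⟨mem_filter.mpr ⟨hzA, h0, hzf.1⟩, ?_⟩)
          by_cases hh : hammingDist z c ≤ r + 3
          · rw [if_pos hh, hk, Nat.succ_sub_one]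
            have := hzf.2
            rwa [if_pos hh] at this
          · rw [if_neg hh, hk]
            have := hzf.2
            rwa [if_neg hh] at this
      have hc1 : ((A.filter fun z => failL r (c :: cs c) (κ z) z).card : ℝ) ≤
          ((A.filter fun z => κ z = 0).card : ℝ) +
          ((((A.filter fun z => κ z ≠ 0 ∧ ¬ (hammingDist z c + 3 ≤ r)).filter fun z =>
              failL r (cs c) (if hammingDist z c ≤ r + 3 then κ z - 1 else κ z) z)).card : ℝ) := by
        exact_mod_cast (card_le_card hsub).trans (card_union_le _ _)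
      refine hc1.trans ((add_le_add le_rfl (hcs c)).trans (le_of_eq ?_))
      rw [card_filter, Nat.cast_sum, sum_filter, ← sum_add_distrib]
      refine sum_congr rfl fun z _ => ?_
      simp only [hg]
      by_cases h0 : κ z = 0
      · simp [h0]
      · by_cases hd : hammingDist z c + 3 ≤ r
        · simp [h0, hd]
        · simp [h0, hd]
    -- averaging over the first centre
    have havg : ∑ c, ∑ z ∈ A, g c z ≤ ∑ _c : Fin m → ZMod 2,
        ∑ z ∈ A, (ρ ^ κ z + (1 - p) ^ (L + 1)) := by
      rw [sum_comm, sum_comm (s := (univ : Finset (Fin m → ZMod 2)))]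
      refine sum_le_sum fun z _ => ?_
      have hcard : (Fintype.card (Fin m → ZMod 2) : ℝ) = 2 ^ m := by
        rw [Fintype.card_fun, ZMod.card, Fintype.card_fin]
        norm_num
      rw [sum_const, card_univ, nsmul_eq_mul, hcard]
      by_cases h0 : κ z = 0
      · have : ∑ c, g c z = 2 ^ m := by
          simp only [hg, h0, if_true]
          rw [sum_const, card_univ, nsmul_eq_mul, hcard, mul_one]
        rw [this, h0, pow_zero]
        have h3 : 0 ≤ (1 - p) ^ (L + 1) := pow_nonneg (by linarith) _
        have h4 : (0 : ℝ) < 2 ^ m := by positivity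
        nlinarith
      · obtain ⟨k, hk⟩ := Nat.exists_eq_succ_of_ne_zero h0
        -- split the centres
        have hsplit : ∀ c, g c z = (ρ ^ (k + 1) + (1 - p) ^ L) +
            (if hammingDist z c ≤ r + 3 then (ρ ^ k - ρ ^ (k + 1)) else 0) -
            (if hammingDist z c + 3 ≤ r then (ρ ^ k + (1 - p) ^ L) else 0) := by
          intro c
          simp only [hg, hk, Nat.succ_ne_zero, if_false, Nat.succ_sub_one, Nat.succ_eq_add_one]
          by_cases hd : hammingDist z c + 3 ≤ r
          · have hh : hammingDist z c ≤ r + 3 := by omega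
            simp only [hd, hh, if_true]
            ring
          · by_cases hh : hammingDist z c ≤ r + 3
            · simp only [hd, hh, if_true, if_false]
              ring
            · simp only [hd, hh, if_false]
              ring
        have hs : ∑ c, g c z = 2 ^ m * (ρ ^ (k + 1) + (1 - p) ^ L) +
            b₂ * (ρ ^ k - ρ ^ (k + 1)) - b₁ * (ρ ^ k + (1 - p) ^ L) := by
          rw [sum_congr rfl fun c _ => hsplit c, sum_sub_distrib, sum_add_distrib, sum_const,
            card_univ, nsmul_eq_mul, hcard, ← sum_filter, ← sum_filter, sum_const, sum_const,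
            nsmul_eq_mul, nsmul_eq_mul, h1 z, h2 z]
        rw [hs, hk, Nat.succ_eq_add_one]
        have h3 : 0 ≤ ρ ^ k := pow_nonneg hρ0 k
        have e1 : (b₂ : ℝ) * (ρ ^ k - ρ ^ (k + 1)) = (b₂ * (1 - ρ)) * ρ ^ k := by ring
        have h4 : (b₂ : ℝ) * (1 - ρ) * ρ ^ k ≤ b₁ * ρ ^ k := mul_le_mul_of_nonneg_right hb h3
        rw [e1]
        have e2 : (2 : ℝ) ^ m * (ρ ^ (k + 1) + (1 - p) ^ (L + 1)) =
            2 ^ m * (ρ ^ (k + 1) + (1 - p) ^ L) - b₁ * (1 - p) ^ L := by
          rw [hp]; ring
        rw [e2]
        linarith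
    -- a good first centre
    obtain ⟨c, -, hc⟩ := exists_le_of_sum_le (s := (univ : Finset (Fin m → ZMod 2)))
      ⟨0, mem_univ _⟩ havg
    exact ⟨c :: cs c, (hbound c).trans hc⟩

end lab

theorem exists_label (δ : ℝ) (hδ : 0 < δ) : ∃ K m₀ : ℕ, ∀ m, m₀ ≤ m →
    ∃ lab : (Fin m → ZMod 2) → (Fin m → ZMod 2), (∀ z, hammingDist z (lab z) ≤ m / 4) ∧
      ((univ.filter fun z =>
        K < ((univ.filter fun z' => hammingDist z z' ≤ 3).image lab).card).card : ℝ) ≤
        δ * 2 ^ m := by
  classical
  obtain ⟨m₁, hm₁⟩ := ball_ratio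
  set ρ : ℝ := 1 - (5 ^ 6 : ℝ)⁻¹ with hρ
  have hρ0 : 0 ≤ ρ := by rw [hρ]; norm_num
  have hρ1 : ρ < 1 := by rw [hρ]; norm_num
  obtain ⟨K, hK⟩ := exists_pow_lt_of_lt_one (half_pos hδ) hρ1
  refine ⟨K, max m₁ 12, fun m hm => ?_⟩
  have hm1 : m₁ ≤ m := (le_max_left _ _).trans hm
  have hm2 : 12 ≤ m := (le_max_right _ _).trans hm
  have hb1 : ∀ z : Fin m → ZMod 2,
      (univ.filter fun c => hammingDist z c + 3 ≤ m / 4).card = ball m (m / 4 - 3) := by
    intro z
    rw [← ball_center m (m / 4 - 3) z]
    congr 1
    ext c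
    simp only [mem_filter, mem_univ, true_and]
    rw [hammingDist_comm c z]
    omega
  have hb2 : ∀ z : Fin m → ZMod 2,
      (univ.filter fun c => hammingDist z c ≤ m / 4 + 3).card = ball m (m / 4 + 3) := by
    intro z
    rw [← ball_center m (m / 4 + 3) z]
    congr 1
    ext c
    simp only [mem_filter, mem_univ, true_and]
    rw [hammingDist_comm c z]
  have hcard : (Fintype.card (Fin m → ZMod 2) : ℝ) = 2 ^ m := by
    rw [Fintype.card_fun, ZMod.card, Fintype.card_fin]
    norm_num
  have h2m : (0 : ℝ) < 2 ^ m := by positivity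
  have hbpos : 0 < ball m (m / 4 - 3) := by
    unfold ball
    refine card_pos.mpr ⟨0, ?_⟩
    simp
  have hble : (ball m (m / 4 - 3) : ℝ) ≤ 2 ^ m := by
    rw [← hcard]
    unfold ball
    exact_mod_cast card_filter_le _ _
  set p : ℝ := (ball m (m / 4 - 3) : ℝ) / 2 ^ m with hp
  have hp0 : 0 < p := by rw [hp]; positivity
  have hp1 : p ≤ 1 := by rw [hp, div_le_one h2m]; exact hble
  obtain ⟨L, hL⟩ := exists_pow_lt_of_lt_one (half_pos hδ) (by linarith : 1 - p < 1)
  obtain ⟨cs, hcs⟩ := label_greedy (m := m) (m / 4) (ball m (m / 4 - 3)) (ball m (m / 4 + 3)) ρ p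
    hρ0 hp1 hb1 hb2 (by rw [hp]; field_simp) (by
      have h3 := hm₁ m hm1
      have h4 : (ball m (m / 4 + 3) : ℝ) ≤ 5 ^ 6 * ball m (m / 4 - 3) := by exact_mod_cast h3
      rw [hρ]
      have h5 : (ball m (m / 4 + 3) : ℝ) * (1 - (1 - (5 ^ 6 : ℝ)⁻¹)) =
          (ball m (m / 4 + 3) : ℝ) * (5 ^ 6 : ℝ)⁻¹ := by ring
      rw [h5, ← div_eq_mul_inv, div_le_iff₀ (by norm_num)]
      linarith) L univ (fun _ => K)
  refine ⟨labL (m / 4) cs, fun z => labL_dist _ _ _, ?_⟩
  have hsub : (univ.filter fun z =>
      K < ((univ.filter fun z' => hammingDist z z' ≤ 3).image (labL (m / 4) cs)).card) ⊆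
      univ.filter fun z => failL (m / 4) cs K z := by
    intro z hz
    refine mem_filter.mpr ⟨mem_univ _, ?_⟩
    by_contra hf
    exact absurd (labL_card (m / 4) cs z K hf) (not_le.mpr (mem_filter.mp hz).2)
  have h6 : ((univ.filter fun z =>
      K < ((univ.filter fun z' => hammingDist z z' ≤ 3).image (labL (m / 4) cs)).card).card : ℝ) ≤
      ((univ.filter fun z => failL (m / 4) cs K z).card : ℝ) := by
    exact_mod_cast card_le_card hsub
  refine h6.trans (hcs.trans ?_)
  rw [sum_const, card_univ, nsmul_eq_mul, hcard]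
  have h7 : ρ ^ K + (1 - p) ^ L ≤ δ := by
    have h8 := (add_lt_add hK hL).le
    rwa [add_halves] at h8
  rw [mul_comm]
  exact mul_le_mul_of_nonneg_right h7 h2m.le

end Pool.Agent.QA
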