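import Pool.Agent.QA.Defs

/-!
Project QA (MP_a55b9e_co), row QA-22: standard limits.
-/

set_option autoImplicit false

open Finset

namespace Pool.Agent.QA

theorem num_poly (C : ℝ) (k : ℕ) (a : ℝ) (ha : 0 < a) (ε : ℝ) (hε : 0 < ε) :
    ∃ n₀ : ℕ, ∀ n : ℕ, n₀ ≤ n → C * (n : ℝ) ^ k * Real.exp (-(a * n)) ≤ ε := by
  have h1 : Filter.Tendsto (fun n : ℕ => a * (n : ℝ)) Filter.atTop Filter.atTop :=
    Filter.Tendsto.const_mul_atTop ha tendsto_natCast_atTop_atTop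
  have h2 := (Real.tendsto_pow_mul_exp_neg_atTop_nhds_zero k).comp h1
  have h3 := h2.const_mul (C * (a ^ k)⁻¹)
  rw [mul_zero] at h3
  have h4 := h3.eventually (Iic_mem_nhds hε)
  obtain ⟨n₀, hn₀⟩ := Filter.eventually_atTop.1 h4
  refine ⟨n₀, fun n hn => ?_⟩
  have h5 := hn₀ n hn
  have h6 : C * (a ^ k)⁻¹ * (((fun x : ℝ => x ^ k * Real.exp (-x)) ∘ fun n : ℕ => a * (n : ℝ)) n) =
      C * (n : ℝ) ^ k * Real.exp (-(a * n)) := by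
    show C * (a ^ k)⁻¹ * ((a * (n : ℝ)) ^ k * Real.exp (-(a * n))) = _
    rw [mul_pow]
    field_simp
  rw [← h6]
  exact h5

theorem num_sq (a : ℝ) (ha : 0 < a) (ε : ℝ) (hε : 0 < ε) :
    ∃ n₀ : ℕ, ∀ n : ℕ, n₀ ≤ n → (2 : ℝ) ^ n * Real.exp (-(a * (n : ℝ) ^ 2)) ≤ ε := by
  obtain ⟨n₁, h1⟩ := num_poly 1 0 1 one_pos ε hε
  obtain ⟨n₂, h2⟩ := exists_nat_ge (2 / a)
  refine ⟨max n₁ n₂, fun n hn => ?_⟩
  have h3 := h1 n (le_trans (le_max_left _ _) hn)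
  have h4 : (2 : ℝ) / a ≤ n := h2.trans (by exact_mod_cast le_trans (le_max_right _ _) hn)
  have h5 : 2 ≤ a * (n : ℝ) := by
    rw [div_le_iff₀ ha] at h4
    linarith
  have h6 : (2 : ℝ) ^ n ≤ Real.exp n := by
    have h7 : (2 : ℝ) ≤ Real.exp 1 := by
      have := Real.add_one_le_exp (1 : ℝ)
      linarith
    calc (2 : ℝ) ^ n ≤ (Real.exp 1) ^ n := pow_le_pow_left₀ (by norm_num) h7 n
      _ = Real.exp n := by rw [← Real.exp_nat_mul, mul_one]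
  have hn0 : (0 : ℝ) ≤ n := Nat.cast_nonneg n
  calc (2 : ℝ) ^ n * Real.exp (-(a * (n : ℝ) ^ 2))
      ≤ Real.exp n * Real.exp (-(a * (n : ℝ) ^ 2)) :=
        mul_le_mul_of_nonneg_right h6 (Real.exp_pos _).le
    _ = Real.exp ((n : ℝ) + -(a * (n : ℝ) ^ 2)) := (Real.exp_add _ _).symm
    _ ≤ Real.exp (-(1 * (n : ℝ))) := by
        apply Real.exp_le_exp.2
        nlinarith
    _ ≤ ε := by simpa using h3

theorem num_dexp (b a : ℝ) (hb : 0 < b) (ha : 0 < a) (ε : ℝ) (hε : 0 < ε) :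
    ∃ n₀ : ℕ, ∀ n : ℕ, n₀ ≤ n → (2 : ℝ) ^ n * Real.exp (-(b * Real.exp (a * n))) ≤ ε := by
  obtain ⟨n₀, h1⟩ := num_sq (b * (a ^ 2 / 2)) (by positivity) ε hε
  refine ⟨n₀, fun n hn => (mul_le_mul_of_nonneg_left ?_ (by positivity)).trans (h1 n hn)⟩
  apply Real.exp_le_exp.2
  apply neg_le_neg
  have hn0 : (0 : ℝ) ≤ a * n := mul_nonneg ha.le (Nat.cast_nonneg n)
  have h2 := Real.quadratic_le_exp_of_nonneg hn0
  have h3 : a ^ 2 / 2 * (n : ℝ) ^ 2 ≤ Real.exp (a * n) := by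
    nlinarith
  calc b * (a ^ 2 / 2) * (n : ℝ) ^ 2 = b * (a ^ 2 / 2 * (n : ℝ) ^ 2) := by ring
    _ ≤ b * Real.exp (a * n) := mul_le_mul_of_nonneg_left h3 hb.le

end Pool.Agent.QA
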