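import Pool.Agent.QA.Ball
import Pool.Agent.QA.Num

/-!
Project QA: the choice of the parameters.
-/

set_option autoImplicit false

open Finset

namespace Pool.Agent.QA

theorem exp_half_le : Real.exp (1 / 2) ≤ 2 := by
  have h := Real.one_sub_le_exp_neg (1 / 2)
  rw [Real.exp_neg] at h
  have h2 : 0 < Real.exp (1 / 2) := Real.exp_pos _
  rw [le_inv_comm₀ (by norm_num) h2] at h
  linarith

theorem exp_le_two_pow (n : ℕ) : Real.exp (n / 2 : ℝ) ≤ 2 ^ n := by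
  have h : Real.exp (n / 2 : ℝ) = Real.exp (1 / 2) ^ n := by
    rw [← Real.exp_nat_mul]; congr 1; ring
  rw [h]
  exact pow_le_pow_left₀ (Real.exp_pos _).le exp_half_le n

theorem e101_pow_le (n : ℕ) : ((101 / 100 : ℝ)) ^ n ≤ Real.exp (n / 100 : ℝ) := by
  have h : Real.exp (n / 100 : ℝ) = Real.exp (1 / 100) ^ n := by
    rw [← Real.exp_nat_mul]; congr 1; ring
  rw [h]
  refine pow_le_pow_left₀ (by norm_num) ?_ n
  have := Real.add_one_le_exp (1 / 100 : ℝ)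
  linarith

theorem le_e101_pow (n : ℕ) : Real.exp (n / 200 : ℝ) ≤ ((101 / 100 : ℝ)) ^ n := by
  have h : Real.exp (n / 200 : ℝ) = Real.exp (1 / 200) ^ n := by
    rw [← Real.exp_nat_mul]; congr 1; ring
  rw [h]
  refine pow_le_pow_left₀ (Real.exp_pos _).le ?_ n
  have h := Real.one_sub_le_exp_neg (1 / 200)
  rw [Real.exp_neg] at h
  have h2 : 0 < Real.exp (1 / 200) := Real.exp_pos _
  rw [le_inv_comm₀ (by norm_num) h2] at h
  refine h.trans ?_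
  norm_num

/-- the block size -/
theorem exists_l (m₀ : ℕ) : ∃ n₀ : ℕ, ∀ n, n₀ ≤ n → ∃ l m : ℕ, 4 * l + m = n ∧ 1 ≤ l ∧ m₀ ≤ m ∧
    n ^ 6 ≤ 2 ^ l ∧ 2 ^ l ≤ 2 * n ^ 6 ∧ (9 / 10 : ℝ) * n ≤ m := by
  obtain ⟨n₁, hn₁⟩ := num_poly (2 ^ 40) 240 (1 / 2) (by norm_num) 1 one_pos
  refine ⟨n₁ + 2 * m₀ + 2, fun n hn => ?_⟩
  have hn2 : 2 ≤ n := by omega
  have hl1 : n ^ 6 ≤ 2 ^ Nat.clog 2 (n ^ 6) := Nat.le_pow_clog (by norm_num) _
  have hn6 : 1 < n ^ 6 := Nat.one_lt_pow (by norm_num) (by omega)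
  have hl0 : 1 ≤ Nat.clog 2 (n ^ 6) := Nat.clog_pos (by norm_num) hn6
  have hl2 : 2 ^ Nat.clog 2 (n ^ 6) ≤ 2 * n ^ 6 := by
    have h := Nat.pow_pred_clog_lt_self (b := 2) (by norm_num) hn6
    have h3 : 2 ^ Nat.clog 2 (n ^ 6) = 2 * 2 ^ (Nat.clog 2 (n ^ 6)).pred := by
      rw [← pow_succ']
      congr 1
      rw [Nat.pred_eq_sub_one]
      omega
    rw [h3]
    exact Nat.mul_le_mul_left 2 h.le
  set l := Nat.clog 2 (n ^ 6) with hl
  have h40 : 40 * l ≤ n := by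
    have h1 : ((2 : ℝ) ^ l) ^ 40 ≤ (2 * (n : ℝ) ^ 6) ^ 40 := by
      refine pow_le_pow_left₀ (by positivity) ?_ _
      exact_mod_cast hl2
    have h2 : (2 : ℝ) ^ 40 * (n : ℝ) ^ 240 * Real.exp (-(1 / 2 * (n : ℝ))) ≤ 1 :=
      hn₁ n (by omega)
    have h3 : (2 : ℝ) ^ 40 * (n : ℝ) ^ 240 ≤ Real.exp (n / 2 : ℝ) := by
      have h4 : Real.exp (-(1 / 2 * (n : ℝ))) = (Real.exp (n / 2 : ℝ))⁻¹ := by
        rw [← Real.exp_neg]; congr 1; ring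
      rw [h4, ← div_eq_mul_inv, div_le_one (Real.exp_pos _)] at h2
      exact h2
    have h5 : (2 : ℝ) ^ (40 * l) ≤ 2 ^ n := by
      calc (2 : ℝ) ^ (40 * l) = (2 ^ l) ^ 40 := by rw [← pow_mul, mul_comm]
        _ ≤ (2 * (n : ℝ) ^ 6) ^ 40 := h1
        _ = (2 : ℝ) ^ 40 * (n : ℝ) ^ 240 := by ring
        _ ≤ Real.exp (n / 2 : ℝ) := h3
        _ ≤ 2 ^ n := exp_le_two_pow n
    exact (pow_le_pow_iff_right₀ (by norm_num : (1 : ℝ) < 2)).1 h5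
  refine ⟨l, n - 4 * l, by omega, hl0, by omega, hl1, hl2, ?_⟩
  have h1 : 4 * l ≤ n := by omega
  rw [Nat.cast_sub h1]
  have h2 : ((40 * l : ℕ) : ℝ) ≤ n := by exact_mod_cast h40
  push_cast at h2 ⊢
  linarith

theorem one_add_pow_le (n : ℕ) (hn : 2 ≤ n) : (1 + 1 / (n : ℝ) ^ 2) ^ n ≤ 1 + 2 / n := by
  have hn0 : (0 : ℝ) < n := by exact_mod_cast (by omega : 0 < n)
  have hn2 : (2 : ℝ) ≤ n := by exact_mod_cast hn
  have h1 : (1 + 1 / (n : ℝ) ^ 2) ^ n ≤ Real.exp (1 / n) := by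
    have h2 : Real.exp (1 / (n : ℝ)) = Real.exp (1 / (n : ℝ) ^ 2) ^ n := by
      rw [← Real.exp_nat_mul]; congr 1; field_simp
    rw [h2]
    refine pow_le_pow_left₀ (by positivity) ?_ n
    have := Real.add_one_le_exp (1 / (n : ℝ) ^ 2)
    linarith
  refine h1.trans ?_
  have hx : 1 / (n : ℝ) ≤ 1 / 2 := one_div_le_one_div_of_le (by norm_num) hn2
  have h := Real.one_sub_le_exp_neg (1 / (n : ℝ))
  rw [Real.exp_neg] at h
  have h2 : 0 < Real.exp (1 / (n : ℝ)) := Real.exp_pos _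
  have h3 : 0 < 1 - 1 / (n : ℝ) := by linarith
  rw [le_inv_comm₀ h3 h2] at h
  refine h.trans ?_
  rw [inv_le_iff_one_le_mul₀ h3]
  have h4 : 0 < 1 / (n : ℝ) := by positivity
  have h5 : 2 / (n : ℝ) = 2 * (1 / n) := by ring
  rw [h5]
  nlinarith

/-- the first kind of variance -/
theorem params_ball (K l m n : ℕ) (hl : 1 ≤ l) (M A x : ℝ)
    (hM : 2 * M = 2 ^ (4 * l + m)) (hA0 : 0 ≤ A) (hA : A ≤ 2) (hx : 0 ≤ x)
    (hm : (9 / 10 : ℝ) * n ≤ m)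
    (hb : (ball m (m / 4 + 3) : ℝ) ≤ 2 ^ m * Real.exp (-(m / 10 : ℝ))) :
    (K * 2 ^ m * ball m (m / 4 + 3) : ℕ) * (A * 2 ^ (4 * l - 1) * x) ^ 2 ≤
      4 * K * (M * x) ^ 2 * Real.exp (-(9 / 100 * n)) := by
  have hM2 : (2 : ℝ) ^ (4 * l - 1) * 2 ^ m = M := by
    have h2 : (2 : ℝ) ^ (4 * l + m) = 2 * (2 ^ (4 * l - 1) * 2 ^ m) := by
      rw [← mul_assoc, ← pow_succ', ← pow_add]
      congr 1
      omega
    linarith
  have he : Real.exp (-(m / 10 : ℝ)) ≤ Real.exp (-(9 / 100 * n)) := by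
    apply Real.exp_le_exp.2
    linarith
  have hb' : (ball m (m / 4 + 3) : ℝ) ≤ 2 ^ m * Real.exp (-(9 / 100 * n)) :=
    hb.trans (mul_le_mul_of_nonneg_left he (by positivity))
  push_cast
  calc (K : ℝ) * 2 ^ m * ball m (m / 4 + 3) * (A * 2 ^ (4 * l - 1) * x) ^ 2
      ≤ (K : ℝ) * 2 ^ m * (2 ^ m * Real.exp (-(9 / 100 * n))) *
        (2 * 2 ^ (4 * l - 1) * x) ^ 2 := by
        refine mul_le_mul (mul_le_mul_of_nonneg_left hb' (by positivity)) ?_ (by positivity)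
          (by positivity)
        refine pow_le_pow_left₀ (by positivity) ?_ 2
        exact mul_le_mul_of_nonneg_right (mul_le_mul_of_nonneg_right hA (by positivity)) hx
    _ = 4 * K * ((2 ^ (4 * l - 1) * 2 ^ m) * x) ^ 2 * Real.exp (-(9 / 100 * n)) := by ring
    _ = _ := by rw [hM2]

theorem params_sq (n : ℕ) : (((101 / 100 : ℝ)) ^ (2 * n)) ^ 2 ≤ Real.exp (1 / 25 * n) := by
  rw [← pow_mul]
  refine (e101_pow_le _).trans (le_of_eq ?_)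
  congr 1
  push_cast
  ring

/-- the second kind of variance -/
theorem params_deg (l m n : ℕ) (hn : 4 * l + m = n) (M ξ P : ℝ) (hξ : 0 < ξ) (hP : 0 < P)
    (hP2 : P ^ 2 ≤ Real.exp (1 / 25 * n)) (hM : 2 * M = 2 ^ (4 * l + m))
    (hl : 2 ^ l ≤ 2 * n ^ 6) :
    M * (2 * ((4 * l + m) * 2 ^ l : ℕ) * (P⁻¹ * (ξ * M))⁻¹) ^ 2 ≤
      32 * (ξ⁻¹) ^ 2 * (n : ℝ) ^ 14 * Real.exp (-(46 / 100 * n)) := by
  have hM0 : 0 < M := by
    have : (0 : ℝ) < 2 ^ (4 * l + m) := by positivity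
    linarith
  have h2l : ((2 : ℝ) ^ l) ≤ 2 * (n : ℝ) ^ 6 := by exact_mod_cast hl
  have h4l : ((2 : ℝ) ^ l) ^ 2 ≤ (2 * (n : ℝ) ^ 6) ^ 2 := pow_le_pow_left₀ (by positivity) h2l 2
  have hMi : M⁻¹ ≤ 2 * Real.exp (-(n / 2 : ℝ)) := by
    have h1 := exp_le_two_pow n
    rw [hn] at hM
    rw [← hM] at h1
    rw [Real.exp_neg, inv_le_iff_one_le_mul₀ hM0]
    have h2 : 0 < Real.exp (n / 2 : ℝ) := Real.exp_pos _
    rw [show 2 * (Real.exp (n / 2 : ℝ))⁻¹ * M = (2 * M) / Real.exp (n / 2 : ℝ) by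
      field_simp, le_div_iff₀ h2, one_mul]
    exact h1
  push_cast
  have hnn : (4 * (l : ℝ) + m) = n := by exact_mod_cast hn
  rw [hnn]
  calc M * (2 * ((n : ℝ) * 2 ^ l) * (P⁻¹ * (ξ * M))⁻¹) ^ 2
      = 4 * (ξ⁻¹) ^ 2 * (n : ℝ) ^ 2 * (((2 : ℝ) ^ l) ^ 2) * P ^ 2 * M⁻¹ := by
        field_simp
        ring
    _ ≤ 4 * (ξ⁻¹) ^ 2 * (n : ℝ) ^ 2 * ((2 * (n : ℝ) ^ 6) ^ 2) * Real.exp (1 / 25 * n) *
        (2 * Real.exp (-(n / 2 : ℝ))) := by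
        refine mul_le_mul (mul_le_mul (mul_le_mul_of_nonneg_left h4l (by positivity)) hP2
          (by positivity) (by positivity)) hMi (by positivity) (by positivity)
    _ = 32 * (ξ⁻¹) ^ 2 * (n : ℝ) ^ 14 * (Real.exp (1 / 25 * n) * Real.exp (-(n / 2 : ℝ))) := by
        ring
    _ = _ := by
        rw [← Real.exp_add]
        congr 2
        ring

/-- all numerical conditions of the assembly hold for large `n` -/
theorem params (K m₀ : ℕ) (τ ξ γ : ℝ) (hτ : 0 < τ) (hξ : 0 < ξ) (hγ : 0 < γ) :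
    ∃ n₀ : ℕ, ∀ n, n₀ ≤ n → ∃ l m : ℕ, 4 * l + m = n ∧ 1 ≤ l ∧ m₀ ≤ m ∧ 2 ≤ n ∧
      (1 / (n : ℝ) ^ 2 ≤ γ) ∧ ((1 + 1 / (n : ℝ) ^ 2) ^ n ≤ 1 + γ) ∧
      (∀ (M D0 : ℝ), 2 * M = 2 ^ (4 * l + m) → M / 2 ≤ D0 →
        (K * 2 ^ m * ball m (m / 4 + 3) : ℕ) *
          ((1 + 1 / (n : ℝ) ^ 2) * 2 ^ (4 * l - 1) * ((τ ^ K)⁻¹ / D0)) ^ 2 ≤
          Real.exp (-(1 / 50 * n)) ∧
        (K * 2 ^ m * ball m (m / 4 + 3) : ℕ) *
          ((1 + 1 / (n : ℝ) ^ 2) * 2 ^ (4 * l - 1) *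
            (((101 / 100) ^ (2 * n))⁻¹ * (ξ * M))⁻¹) ^ 2 ≤ Real.exp (-(1 / 50 * n)) ∧
        M * (2 * ((4 * l + m) * 2 ^ l : ℕ) *
          (((101 / 100) ^ (2 * n))⁻¹ * (ξ * M))⁻¹) ^ 2 ≤ Real.exp (-(1 / 50 * n)) ∧
        (2 : ℝ) ^ (4 * l + m) * (((4 * l + m) * 2 ^ l : ℕ) *
          (((101 / 100) ^ (2 * n))⁻¹ * (ξ * M))⁻¹) ^ 2 ≤ Real.exp (-(1 / 50 * n)) ∧
        M * Real.exp (-(γ ^ 2 / (2 * Real.exp (-(1 / 50 * n))))) ≤ 1 / 8 ∧
        (2 : ℝ) ^ (4 * l + m) * Real.exp (-((1 / (n : ℝ) ^ 2) ^ 2 * 2 ^ l / 4)) ≤ 1 / 8 ∧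
        (4 * l + m + 1) * (2 * (2 * ((1 + 1 / (n : ℝ) ^ 2) ^ (4 * l + m) *
          (4 * ((1 + 1 / (n : ℝ) ^ 2) * M *
            (((101 / 100) ^ (2 * n))⁻¹ * (101 / 100) ^ (4 * l + m))))))) ≤
          γ * 2 ^ (4 * l + m)) := by
  obtain ⟨mb, hmb⟩ := ball_volume
  obtain ⟨n₁, hn₁⟩ := exists_l (max m₀ mb)
  obtain ⟨n₂, hn₂⟩ := num_poly (16 * K * ((τ ^ K)⁻¹) ^ 2) 0 (7 / 100) (by norm_num) 1 one_pos
  obtain ⟨n₃, hn₃⟩ := num_poly (4 * K * (ξ⁻¹) ^ 2) 0 (3 / 100) (by norm_num) 1 one_pos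
  obtain ⟨n₄, hn₄⟩ := num_poly (32 * (ξ⁻¹) ^ 2) 14 (44 / 100) (by norm_num) 1 one_pos
  obtain ⟨n₅, hn₅⟩ := num_dexp (γ ^ 2 / 2) (1 / 50) (by positivity) (by norm_num) (1 / 8)
    (by norm_num)
  obtain ⟨n₆, hn₆⟩ := num_sq (1 / 4) (by norm_num) (1 / 8) (by norm_num)
  obtain ⟨n₇, hn₇⟩ := num_poly 64 1 (1 / 200) (by norm_num) γ hγ
  obtain ⟨n₈, hn₈⟩ := exists_nat_ge (2 / γ)
  refine ⟨n₁ + n₂ + n₃ + n₄ + n₅ + n₆ + n₇ + n₈ + 2, fun n hn => ?_⟩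
  obtain ⟨l, m, hlm, hl, hm, h6, h6', h9⟩ := hn₁ n (by omega)
  have hn2 : 2 ≤ n := by omega
  have hnR : (2 : ℝ) ≤ n := by exact_mod_cast hn2
  have hn0 : (0 : ℝ) < n := by linarith
  have hγn : 2 / (n : ℝ) ≤ γ := by
    rw [div_le_iff₀ hn0]
    have h1 : (n₈ : ℝ) ≤ n := by exact_mod_cast (by omega : n₈ ≤ n)
    have h2 : 2 / γ ≤ n := hn₈.trans h1
    rw [div_le_iff₀ hγ] at h2
    linarith
  have hA1 : 1 / (n : ℝ) ^ 2 ≤ 1 / 2 := by
    apply one_div_le_one_div_of_le (by norm_num)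
    nlinarith
  have hA0 : 0 < 1 / (n : ℝ) ^ 2 := by positivity
  have hpow := one_add_pow_le n hn2
  refine ⟨l, m, hlm, hl, (le_max_left _ _).trans hm, hn2, ?_, by linarith, ?_⟩
  · have h1 : 1 / (n : ℝ) ^ 2 ≤ 2 / n := by
      rw [div_le_div_iff₀ (by positivity) hn0]
      nlinarith
    linarith
  · intro M D0 hM hD0
    have hM0 : 0 < M := by
      have : (0 : ℝ) < 2 ^ (4 * l + m) := by positivity
      linarith
    have hD00 : 0 < D0 := by linarith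
    have hb := hmb m ((le_max_right _ _).trans hm)
    set P : ℝ := (101 / 100) ^ (2 * n) with hPdef
    have hP : 0 < P := by positivity
    have hP2 : P ^ 2 ≤ Real.exp (1 / 25 * n) := params_sq n
    have hAA : (1 : ℝ) + 1 / (n : ℝ) ^ 2 ≤ 2 := by linarith
    have hdeg := params_deg l m n hlm M ξ P hξ hP hP2 hM h6'
    have hdeg' : 32 * (ξ⁻¹) ^ 2 * (n : ℝ) ^ 14 * Real.exp (-(46 / 100 * n)) ≤
        Real.exp (-(1 / 50 * n)) := by
      have h1 := hn₄ n (by omega)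
      have h2 : Real.exp (-(46 / 100 * (n : ℝ))) =
          Real.exp (-(44 / 100 * n)) * Real.exp (-(1 / 50 * n)) := by
        rw [← Real.exp_add]; congr 1; ring
      rw [h2, ← mul_assoc]
      calc _ ≤ 1 * Real.exp (-(1 / 50 * (n : ℝ))) :=
            mul_le_mul_of_nonneg_right h1 (Real.exp_pos _).le
        _ = _ := one_mul _
    refine ⟨?_, ?_, ?_, ?_, ?_, ?_, ?_⟩
    · have h1 := params_ball K l m n hl M (1 + 1 / (n : ℝ) ^ 2) ((τ ^ K)⁻¹ / D0) hM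
        (by positivity) hAA (by positivity) h9 hb
      refine h1.trans ?_
      have h2 : M * ((τ ^ K)⁻¹ / D0) ≤ 2 * (τ ^ K)⁻¹ := by
        rw [mul_div_assoc', div_le_iff₀ hD00]
        have h3 : 0 < (τ ^ K)⁻¹ := by positivity
        nlinarith
      have h3 : (M * ((τ ^ K)⁻¹ / D0)) ^ 2 ≤ (2 * (τ ^ K)⁻¹) ^ 2 :=
        pow_le_pow_left₀ (by positivity) h2 2
      have h4 : Real.exp (-(9 / 100 * (n : ℝ))) =
          Real.exp (-(7 / 100 * n)) * Real.exp (-(1 / 50 * n)) := by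
        rw [← Real.exp_add]; congr 1; ring
      calc 4 * K * (M * ((τ ^ K)⁻¹ / D0)) ^ 2 * Real.exp (-(9 / 100 * n))
          ≤ 4 * K * (2 * (τ ^ K)⁻¹) ^ 2 * Real.exp (-(9 / 100 * n)) := by
            refine mul_le_mul_of_nonneg_right (mul_le_mul_of_nonneg_left h3 (by positivity))
              (Real.exp_pos _).le
        _ = 16 * K * ((τ ^ K)⁻¹) ^ 2 * (n : ℝ) ^ 0 * Real.exp (-(7 / 100 * n)) *
            Real.exp (-(1 / 50 * n)) := by rw [h4]; ring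
        _ ≤ 1 * Real.exp (-(1 / 50 * (n : ℝ))) :=
            mul_le_mul_of_nonneg_right (hn₂ n (by omega)) (Real.exp_pos _).le
        _ = _ := one_mul _
    · have h1 := params_ball K l m n hl M (1 + 1 / (n : ℝ) ^ 2) (P⁻¹ * (ξ * M))⁻¹ hM
        (by positivity) hAA (by positivity) h9 hb
      refine h1.trans ?_
      have h2 : (M * (P⁻¹ * (ξ * M))⁻¹) ^ 2 = (ξ⁻¹) ^ 2 * P ^ 2 := by
        field_simp
      have h4 : Real.exp (1 / 25 * n) * Real.exp (-(9 / 100 * (n : ℝ))) =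
          Real.exp (-(3 / 100 * n)) * Real.exp (-(1 / 50 * n)) := by
        rw [← Real.exp_add, ← Real.exp_add]; congr 1; ring
      calc 4 * K * (M * (P⁻¹ * (ξ * M))⁻¹) ^ 2 * Real.exp (-(9 / 100 * n))
          = 4 * K * (ξ⁻¹) ^ 2 * P ^ 2 * Real.exp (-(9 / 100 * n)) := by rw [h2]; ring
        _ ≤ 4 * K * (ξ⁻¹) ^ 2 * Real.exp (1 / 25 * n) * Real.exp (-(9 / 100 * n)) := by
            refine mul_le_mul_of_nonneg_right (mul_le_mul_of_nonneg_left hP2 (by positivity))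
              (Real.exp_pos _).le
        _ = 4 * K * (ξ⁻¹) ^ 2 * (n : ℝ) ^ 0 * Real.exp (-(3 / 100 * n)) *
            Real.exp (-(1 / 50 * n)) := by rw [mul_assoc, h4]; ring
        _ ≤ 1 * Real.exp (-(1 / 50 * (n : ℝ))) :=
            mul_le_mul_of_nonneg_right (hn₃ n (by omega)) (Real.exp_pos _).le
        _ = _ := one_mul _
    · exact hdeg.trans hdeg'
    · refine le_trans ?_ (hdeg.trans hdeg')
      rw [← hM]
      have h1 : 2 * M * ((((4 * l + m) * 2 ^ l : ℕ) : ℝ) * (P⁻¹ * (ξ * M))⁻¹) ^ 2 ≤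
          4 * (M * ((((4 * l + m) * 2 ^ l : ℕ) : ℝ) * (P⁻¹ * (ξ * M))⁻¹) ^ 2) := by
        have h2 : 0 ≤ M * ((((4 * l + m) * 2 ^ l : ℕ) : ℝ) * (P⁻¹ * (ξ * M))⁻¹) ^ 2 := by
          positivity
        linarith
      refine h1.trans (le_of_eq ?_)
      ring
    · have h1 := hn₅ n (by omega)
      have h2 : γ ^ 2 / (2 * Real.exp (-(1 / 50 * (n : ℝ)))) =
          γ ^ 2 / 2 * Real.exp (1 / 50 * n) := by
        rw [Real.exp_neg]
        field_simp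
      rw [h2]
      refine le_trans (mul_le_mul_of_nonneg_right ?_ (Real.exp_pos _).le) h1
      rw [hlm] at hM
      linarith
    · have h1 := hn₆ n (by omega)
      rw [hlm]
      refine le_trans (mul_le_mul_of_nonneg_left ?_ (by positivity)) h1
      apply Real.exp_le_exp.2
      apply neg_le_neg
      have h2 : (n : ℝ) ^ 6 ≤ 2 ^ l := by exact_mod_cast h6
      have h3 : (1 / (n : ℝ) ^ 2) ^ 2 * (n : ℝ) ^ 6 / 4 = 1 / 4 * (n : ℝ) ^ 2 := by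
        field_simp
      rw [← h3]
      gcongr
    · have h1 := hn₇ n (by omega)
      rw [hlm] at hM ⊢
      have hnn : (4 * (l : ℝ) + m) = n := by exact_mod_cast hlm
      rw [hnn]
      have h2 : P⁻¹ * (101 / 100) ^ n ≤ Real.exp (-(1 / 200 * n)) := by
        have h3 : P = (101 / 100) ^ n * (101 / 100) ^ n := by
          rw [hPdef, two_mul, pow_add]
        have h4 : P⁻¹ * (101 / 100) ^ n = (((101 / 100 : ℝ)) ^ n)⁻¹ := by
          rw [h3]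
          field_simp
        rw [h4, Real.exp_neg]
        refine inv_anti₀ (Real.exp_pos _) ?_
        have := le_e101_pow n
        refine le_trans (le_of_eq ?_) this
        congr 1
        ring
      have h5 : (1 + 1 / (n : ℝ) ^ 2) ^ n ≤ 2 := by
        have : 2 / (n : ℝ) ≤ 1 := by
          rw [div_le_one hn0]; exact hnR
        linarith
      have h6 : 0 ≤ P⁻¹ * (101 / 100) ^ n := by positivity
      calc ((n : ℝ) + 1) * (2 * (2 * ((1 + 1 / (n : ℝ) ^ 2) ^ n *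
            (4 * ((1 + 1 / (n : ℝ) ^ 2) * M * (P⁻¹ * (101 / 100) ^ n))))))
          ≤ (n + n) * (2 * (2 * (2 * (4 * (2 * M * Real.exp (-(1 / 200 * n))))))) := by
            gcongr
            linarith
        _ = 64 * (n : ℝ) ^ 1 * Real.exp (-(1 / 200 * n)) * (2 * M) := by ring
        _ ≤ γ * (2 * M) := mul_le_mul_of_nonneg_right h1 (by positivity)
        _ = _ := by rw [hM]

end Pool.Agent.QA
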