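import Pool.Agent.QA.Atom

set_option autoImplicit false

open Finset

namespace Pool.Agent.QA

/-- number of points of norm less than `w` -/
noncomputable def rgC (m w : ℕ) : ℕ :=
  (univ.filter fun z : Fin m → ZMod 2 => hammingNorm z < w).card

lemma rgC_zero (m : ℕ) : rgC m 0 = 0 := by
  unfold rgC
  rw [card_eq_zero, filter_eq_empty_iff]
  intro z _
  omega

lemma rgC_mono (m : ℕ) {w w' : ℕ} (h : w ≤ w') : rgC m w ≤ rgC m w' := by
  unfold rgC
  apply card_le_card
  intro z hz
  rw [mem_filter] at hz ⊢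
  exact ⟨hz.1, lt_of_lt_of_le hz.2 h⟩

lemma rgC_card (m : ℕ) : Fintype.card (Fin m → ZMod 2) = 2 ^ m := by
  rw [Fintype.card_fun, ZMod.card, Fintype.card_fin]

lemma rgC_le (m w : ℕ) : rgC m w ≤ 2 ^ m := by
  unfold rgC
  refine (card_le_univ _).trans ?_
  rw [rgC_card]

lemma rgC_strict (m : ℕ) (z : Fin m → ZMod 2) :
    rgC m (hammingNorm z) + 1 ≤ rgC m (hammingNorm z + 1) := by
  unfold rgC
  rw [Nat.add_one_le_iff]
  apply card_lt_card
  rw [ssubset_iff_of_subset]
  · refine ⟨z, ?_, ?_⟩
    · rw [mem_filter]; exact ⟨mem_univ _, Nat.lt_succ_self _⟩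
    · rw [mem_filter]; intro h; exact lt_irrefl _ h.2
  · intro z' hz'
    rw [mem_filter] at hz' ⊢
    exact ⟨hz'.1, by omega⟩

lemma rg_atom (m w : ℕ) :
    (univ.filter fun z : Fin m → ZMod 2 => hammingNorm z = w).card ≤ m.choose w := by
  have h1 : (powersetCard w (univ : Finset (Fin m))).card = m.choose w := by
    rw [card_powersetCard, card_univ, Fintype.card_fin]
  rw [← h1]
  apply card_le_card_of_injOn (fun z : Fin m → ZMod 2 => univ.filter fun i => z i ≠ 0)
  · intro z hz
    have hz' := (mem_filter.mp hz).2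
    rw [mem_coe, mem_powersetCard]
    exact ⟨subset_univ _, hz'⟩
  · intro z hz z' hz' h
    funext i
    have h2 : ∀ x : ZMod 2, x ≠ 0 → x = 1 := by decide
    have h3 : (z i ≠ 0) ↔ (z' i ≠ 0) := by
      have h4 := congrArg (fun s : Finset (Fin m) => i ∈ s) h
      simp only [mem_filter, mem_univ, true_and] at h4
      exact iff_of_eq h4
    by_cases hi : z i = 0
    · have : z' i = 0 := by
        by_contra hc
        exact (h3.mpr hc) hi
      rw [hi, this]
    · rw [h2 _ hi, h2 _ (h3.mp hi)]

lemma rgC_succ (m w : ℕ) : rgC m (w + 1) ≤ rgC m w + m.choose w := by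
  have h := rg_atom m w
  unfold rgC
  have h1 : (univ.filter fun z : Fin m → ZMod 2 => hammingNorm z < w + 1) ⊆
      (univ.filter fun z : Fin m → ZMod 2 => hammingNorm z < w) ∪
        (univ.filter fun z : Fin m → ZMod 2 => hammingNorm z = w) := by
    intro z hz
    rw [mem_filter] at hz
    rw [mem_union, mem_filter, mem_filter]
    rcases lt_or_eq_of_le (Nat.lt_succ_iff.mp hz.2) with h | h
    · exact Or.inl ⟨mem_univ _, h⟩
    · exact Or.inr ⟨mem_univ _, h⟩
  have h2 := card_le_card h1
  have h3 := card_union_le (univ.filter fun z : Fin m → ZMod 2 => hammingNorm z < w)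
    (univ.filter fun z : Fin m → ZMod 2 => hammingNorm z = w)
  omega

/-- a set of points is at most as large as the largest difference of the counts -/
lemma rg_card {m : ℕ} (A : Finset (Fin m → ZMod 2)) (B : ℝ) (hB : 0 ≤ B)
    (h : ∀ z ∈ A, ∀ z' ∈ A, (rgC m (hammingNorm z + 1) : ℝ) - rgC m (hammingNorm z') ≤ B) :
    (A.card : ℝ) ≤ B := by
  rcases A.eq_empty_or_nonempty with rfl | hA
  · simpa using hB
  · obtain ⟨z, hz, hz'⟩ := exists_max_image A (fun z => hammingNorm z) hA
    obtain ⟨y, hy, hy'⟩ := exists_min_image A (fun z => hammingNorm z) hA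
    refine le_trans ?_ (h z hz y hy)
    have h1 : A ⊆ (univ.filter fun x : Fin m → ZMod 2 => hammingNorm x < hammingNorm z + 1) \
        (univ.filter fun x : Fin m → ZMod 2 => hammingNorm x < hammingNorm y) := by
      intro x hx
      rw [mem_sdiff, mem_filter, mem_filter]
      have h2 := hz' x hx
      have h3 := hy' x hx
      refine ⟨⟨mem_univ _, by omega⟩, ?_⟩
      rintro ⟨_, h4⟩
      omega
    have h2 := card_le_card h1
    have h3 : (univ.filter fun x : Fin m → ZMod 2 => hammingNorm x < hammingNorm y) ⊆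
        (univ.filter fun x : Fin m → ZMod 2 => hammingNorm x < hammingNorm z + 1) := by
      intro x hx
      rw [mem_filter] at hx ⊢
      have h4 := hz' y hy
      exact ⟨hx.1, by omega⟩
    have h4 := card_sdiff_add_card_eq_card h3
    have h5 : A.card + rgC m (hammingNorm y) ≤ rgC m (hammingNorm z + 1) := by
      unfold rgC
      omega
    have h6 : ((A.card + rgC m (hammingNorm y) : ℕ) : ℝ) ≤ (rgC m (hammingNorm z + 1) : ℕ) := by
      exact_mod_cast h5
    push_cast at h6
    linarith

lemma rg_norm {m : ℕ} (z z' : Fin m → ZMod 2) (h : hammingDist z z' ≤ 3) :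
    hammingNorm z ≤ hammingNorm z' + 3 ∧ hammingNorm z' ≤ hammingNorm z + 3 := by
  have h1 := hammingDist_triangle z z' 0
  have h2 := hammingDist_triangle z' z 0
  rw [hammingDist_zero_right, hammingDist_zero_right] at h1 h2
  rw [hammingDist_comm z' z] at h2
  constructor <;> omega

theorem exists_regions (t : ℕ) (ε : ℝ) (hε : 0 < ε) : ∃ m₀ : ℕ, ∀ m, m₀ ≤ m →
    ∀ (T : Type) [Fintype T] [DecidableEq T], Fintype.card T ≤ t → ∀ μ : T → ℝ,
    (∀ j, 0 ≤ μ j) → ∑ j, μ j ≤ 1 → ∃ reg : (Fin m → ZMod 2) → Option T,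
      (∀ j, ((univ.filter fun z => reg z = some j).card : ℝ) ≤ μ j * 2 ^ m) ∧
      ((univ.filter fun z => ¬ ∃ j, ∀ z', hammingDist z z' ≤ 3 → reg z' = some j).card : ℝ) ≤
        (1 - ∑ j, μ j + ε) * 2 ^ m := by
  classical
  obtain ⟨m₀, hm₀⟩ := atom_small (ε / (7 * (t + 1))) (by positivity)
  refine ⟨m₀, fun m hm T _ _ hT μ hμ hμ1 => ?_⟩
  have hatom := hm₀ m hm
  have h2m : (0 : ℝ) < 2 ^ m := by positivity
  set ε' : ℝ := ε / (7 * (t + 1)) with hε'
  obtain ⟨N, hN, ⟨e⟩⟩ : ∃ N, Fintype.card T = N ∧ Nonempty (T ≃ Fin N) :=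
    ⟨_, rfl, ⟨Fintype.equivFin T⟩⟩
  -- partial sums
  let s : ℕ → ℝ := fun k => ∑ j ∈ univ.filter (fun j : T => (e j : ℕ) < k), μ j * 2 ^ m
  have hs0 : s 0 = 0 := by
    simp [s]
  have hsmono : ∀ k k', k ≤ k' → s k ≤ s k' := by
    intro k k' hkk
    apply sum_le_sum_of_subset_of_nonneg
    · intro j hj
      rw [mem_filter] at hj ⊢
      exact ⟨hj.1, lt_of_lt_of_le hj.2 hkk⟩
    · intro j _ _
      exact mul_nonneg (hμ j) h2m.le
  have hssucc : ∀ j : T, s ((e j : ℕ) + 1) = s (e j) + μ j * 2 ^ m := by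
    intro j
    have : (univ.filter fun i : T => (e i : ℕ) < (e j : ℕ) + 1) =
        insert j (univ.filter fun i : T => (e i : ℕ) < (e j : ℕ)) := by
      ext i
      simp only [mem_filter, mem_univ, true_and, mem_insert]
      constructor
      · intro h
        rcases lt_or_eq_of_le (Nat.lt_succ_iff.mp h) with h | h
        · exact Or.inr h
        · exact Or.inl (e.injective (Fin.ext h))
      · rintro (rfl | h) <;> omega
    simp only [s]
    rw [this, sum_insert (by simp)]
    ring
  have hsN : s N = (∑ j, μ j) * 2 ^ m := by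
    simp only [s]
    rw [filter_true_of_mem (fun j _ => (e j).isLt), sum_mul]
  let Q : T → ℕ → Prop := fun j w => s (e j) ≤ rgC m w ∧ (rgC m (w + 1) : ℝ) ≤ s ((e j : ℕ) + 1)
  have huniq : ∀ (z : Fin m → ZMod 2) (j j' : T), Q j (hammingNorm z) → Q j' (hammingNorm z) →
      j = j' := by
    have key : ∀ (z : Fin m → ZMod 2) (j j' : T), Q j (hammingNorm z) → Q j' (hammingNorm z) →
        ¬ (e j : ℕ) < e j' := by
      intro z j j' h1 h2 hlt
      have h3 : (rgC m (hammingNorm z) : ℝ) + 1 ≤ rgC m (hammingNorm z + 1) := by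
        exact_mod_cast rgC_strict m z
      have h4 := hsmono ((e j : ℕ) + 1) (e j') hlt
      have h5 := h1.2
      have h6 := h2.1
      linarith
    intro z j j' h1 h2
    apply e.injective
    apply Fin.ext
    have h3 := key z j j' h1 h2
    have h4 := key z j' j h2 h1
    omega
  let reg : (Fin m → ZMod 2) → Option T := fun z =>
    if h : ∃ j, Q j (hammingNorm z) then some h.choose else none
  have hreg : ∀ z j, reg z = some j ↔ Q j (hammingNorm z) := by
    intro z j
    simp only [reg]
    constructor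
    · intro h
      split_ifs at h with h1
      have h2 := Option.some.inj h
      rw [← h2]
      exact h1.choose_spec
    · intro h
      have h1 : ∃ j, Q j (hammingNorm z) := ⟨j, h⟩
      rw [dif_pos h1, huniq z _ _ h1.choose_spec h]
  refine ⟨reg, ?_, ?_⟩
  · intro j
    apply rg_card _ _ (mul_nonneg (hμ j) h2m.le)
    intro z hz z' hz'
    have h1 := (hreg z j).mp (mem_filter.mp hz).2
    have h2 := (hreg z' j).mp (mem_filter.mp hz').2
    have h3 := hssucc j
    have h4 := h1.2
    have h5 := h2.1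
    linarith
  · -- the top region
    let A : Finset (Fin m → ZMod 2) :=
      univ.filter fun z => s N ≤ rgC m (hammingNorm z - 3)
    let Bj : ℕ → Finset (Fin m → ZMod 2) := fun k =>
      univ.filter fun z => (rgC m (hammingNorm z - 3) : ℝ) < s k ∧
        s k < rgC m (hammingNorm z + 4)
    have hsub : (univ.filter fun z : Fin m → ZMod 2 =>
        ¬ ∃ j, ∀ z', hammingDist z z' ≤ 3 → reg z' = some j) ⊆
        A ∪ (range N).biUnion fun k => Bj (k + 1) := by
      intro z hz
      have hz := (mem_filter.mp hz).2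
      rw [mem_union]
      by_cases hA : z ∈ A
      · exact Or.inl hA
      right
      have hA' : (rgC m (hammingNorm z - 3) : ℝ) < s N := by
        by_contra hc
        exact hA (mem_filter.mpr ⟨mem_univ _, not_lt.mp hc⟩)
      -- the first index whose partial sum exceeds the count
      have hex : ∃ k, (rgC m (hammingNorm z - 3) : ℝ) < s k := ⟨N, hA'⟩
      have hf := Nat.find_spec hex
      have hfle : Nat.find hex ≤ N := Nat.find_min' hex hA'
      have hf0 : Nat.find hex ≠ 0 := by
        intro h0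
        rw [h0, hs0] at hf
        have : (0 : ℝ) ≤ rgC m (hammingNorm z - 3) := Nat.cast_nonneg _
        linarith
      obtain ⟨k, hk⟩ := Nat.exists_eq_succ_of_ne_zero hf0
      rw [hk] at hf hfle
      have hkN : k < N := hfle
      have hkm : s k ≤ rgC m (hammingNorm z - 3) := by
        have := Nat.find_min hex (m := k) (by omega)
        exact not_lt.mp this
      rw [mem_biUnion]
      refine ⟨k, mem_range.mpr hkN, mem_filter.mpr ⟨mem_univ _, hf, ?_⟩⟩
      by_contra hc
      have hc := not_lt.mp hc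
      apply hz
      refine ⟨e.symm ⟨k, hkN⟩, ?_⟩
      intro z' hz'
      rw [hreg]
      obtain ⟨hn1, hn2⟩ := rg_norm z z' hz'
      have hek : (e (e.symm ⟨k, hkN⟩) : ℕ) = k := by
        rw [Equiv.apply_symm_apply]
      constructor
      · rw [hek]
        refine hkm.trans ?_
        exact_mod_cast rgC_mono m (by omega)
      · rw [hek]
        refine le_trans ?_ hc
        exact_mod_cast rgC_mono m (by omega)
    have hAc : (A.card : ℝ) ≤ (1 - ∑ j, μ j) * 2 ^ m := by
      apply rg_card _ _ (mul_nonneg (by linarith) h2m.le)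
      intro z _ z' hz'
      have h1 := (mem_filter.mp hz').2
      have h2 : (rgC m (hammingNorm z + 1) : ℝ) ≤ 2 ^ m := by exact_mod_cast rgC_le m _
      have h3 : (rgC m (hammingNorm z' - 3) : ℝ) ≤ rgC m (hammingNorm z') := by
        exact_mod_cast rgC_mono m (by omega)
      rw [hsN] at h1
      linarith
    have hat : ∀ w, (rgC m (w + 1) : ℝ) ≤ rgC m w + ε' * 2 ^ m := by
      intro w
      have h1 : (rgC m (w + 1) : ℝ) ≤ rgC m w + m.choose w := by exact_mod_cast rgC_succ m w
      have h2 := hatom w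
      linarith
    have hat7 : ∀ w, (rgC m (w + 7) : ℝ) ≤ rgC m w + 7 * (ε' * 2 ^ m) := by
      intro w
      have h1 := hat w
      have h2 := hat (w + 1)
      have h3 := hat (w + 2)
      have h4 := hat (w + 3)
      have h5 := hat (w + 4)
      have h6 := hat (w + 5)
      have h7 := hat (w + 6)
      simp only [add_assoc] at h1 h2 h3 h4 h5 h6 h7
      norm_num at h1 h2 h3 h4 h5 h6 h7
      linarith
    have hε'0 : 0 ≤ ε' := by rw [hε']; positivity
    have hBc : ∀ k, ((Bj k).card : ℝ) ≤ 7 * (ε' * 2 ^ m) := by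
      intro k
      apply rg_card _ _ (by positivity)
      intro z hz z' hz'
      have h1 := (mem_filter.mp hz).2.1
      have h2 := (mem_filter.mp hz').2.2
      have h3 : (rgC m (hammingNorm z - 3) : ℝ) < rgC m (hammingNorm z' + 4) := h1.trans h2
      have h4 : hammingNorm z - 3 < hammingNorm z' + 4 := by
        by_contra hc
        have := rgC_mono m (not_lt.mp hc)
        have h5 : (rgC m (hammingNorm z' + 4) : ℝ) ≤ rgC m (hammingNorm z - 3) := by
          exact_mod_cast this
        linarith
      have h5 : (rgC m (hammingNorm z + 1) : ℝ) ≤ rgC m (hammingNorm z' + 7 ) := by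
        exact_mod_cast rgC_mono m (by omega)
      have h6 := hat7 (hammingNorm z')
      linarith
    have hcard : (((univ.filter fun z : Fin m → ZMod 2 =>
        ¬ ∃ j, ∀ z', hammingDist z z' ≤ 3 → reg z' = some j).card : ℕ) : ℝ) ≤
        A.card + ∑ k ∈ range N, ((Bj (k + 1)).card : ℝ) := by
      have h1 := card_le_card hsub
      have h2 := card_union_le A ((range N).biUnion fun k => Bj (k + 1))
      have h3 := card_biUnion_le (s := range N) (t := fun k => Bj (k + 1))
      have h4 := h1.trans (h2.trans (Nat.add_le_add_left h3 _))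
      exact_mod_cast h4
    have hsum : ∑ k ∈ range N, ((Bj (k + 1)).card : ℝ) ≤ N * (7 * (ε' * 2 ^ m)) := by
      have := sum_le_card_nsmul (range N) (fun k => ((Bj (k + 1)).card : ℝ)) (7 * (ε' * 2 ^ m))
        (fun k _ => hBc (k + 1))
      rw [card_range, nsmul_eq_mul] at this
      exact this
    have hNt : (N : ℝ) ≤ t := by rw [← hN]; exact_mod_cast hT
    have hfin : (N : ℝ) * (7 * (ε' * 2 ^ m)) ≤ ε * 2 ^ m := by
      have h1 : (N : ℝ) * (7 * (ε' * 2 ^ m)) ≤ (t + 1) * (7 * (ε' * 2 ^ m)) := by
        apply mul_le_mul_of_nonneg_right (by linarith) (by positivity)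
      have h2 : ((t : ℝ) + 1) * (7 * (ε' * 2 ^ m)) = ε * 2 ^ m := by
        rw [hε']
        field_simp
      linarith
    nlinarith

end Pool.Agent.QA
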