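import Pool.Agent.QA.Regular

/-!
Project QA (MP_a55b9e_co), row QA-2: reduction to a regular bipartite graph.
-/

set_option autoImplicit false

open Finset

namespace Pool.Agent.QA

theorem setup_count {n : ℕ} {c : ℝ} (G : SimpleGraph (Fin (2 ^ n))) [DecidableRel G.Adj]
    (hG : ∀ v, ((G.degree v : ℕ) : ℝ) > (1 - c) * 2 ^ n) {α : Type} [Fintype α]
    (f : α → Fin (2 ^ n)) (hf : Function.Injective f) (v : Fin (2 ^ n)) :
    (univ.filter fun y => ¬ G.Adj v (f y)).card ≤ ⌊c * 2 ^ n⌋₊ := by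
  apply Nat.le_floor
  have h1 : (univ.filter fun y => ¬ G.Adj v (f y)).card ≤ (univ \ G.neighborFinset v).card := by
    apply Finset.card_le_card_of_injOn f
    · intro y hy
      simp only [coe_filter, mem_univ, true_and, Set.mem_setOf_eq] at hy
      simp only [coe_sdiff, coe_univ, Set.mem_diff, Set.mem_univ, true_and, mem_coe,
        SimpleGraph.mem_neighborFinset]
      exact hy
    · exact hf.injOn
  have h2 : (univ \ G.neighborFinset v).card + G.degree v = 2 ^ n := by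
    have := Finset.card_sdiff_add_card_eq_card (Finset.subset_univ (G.neighborFinset v))
    rwa [SimpleGraph.card_neighborFinset_eq_degree, Finset.card_univ, Fintype.card_fin] at this
  have h3 : (((univ \ G.neighborFinset v).card : ℕ) : ℝ) + ((G.degree v : ℕ) : ℝ) = 2 ^ n := by
    exact_mod_cast h2
  have h4 : (((univ.filter fun y => ¬ G.Adj v (f y)).card : ℕ) : ℝ) ≤
      (((univ \ G.neighborFinset v).card : ℕ) : ℝ) := by exact_mod_cast h1
  have h5 := hG v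
  nlinarith

theorem setup (n : ℕ) (hn : 1 ≤ n) (c : ℝ) (hc0 : 0 < c) (hc : c ≤ 1 / 100)
    (G : SimpleGraph (Fin (2 ^ n))) [DecidableRel G.Adj]
    (hG : ∀ v, ((G.degree v : ℕ) : ℝ) > (1 - c) * 2 ^ n) :
    ∃ (D : ℝ) (e : Fin (2 ^ (n - 1)) ⊕ Fin (2 ^ (n - 1)) ≃ Fin (2 ^ n))
      (a : Fin (2 ^ (n - 1)) → Fin (2 ^ (n - 1)) → ℝ), (1 - 8 * c) * 2 ^ (n - 1) ≤ D ∧
      (∀ x y, a x y = 0 ∨ a x y = 1) ∧
      (∀ x y, a x y = 1 → G.Adj (e (Sum.inl x)) (e (Sum.inr y))) ∧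
      (∀ x, ∑ y, a x y = D) ∧ ∀ y, ∑ x, a x y = D := by
  have hM : 2 ^ (n - 1) + 2 ^ (n - 1) = 2 ^ n := by
    obtain ⟨k, rfl⟩ : ∃ k, n = k + 1 := ⟨n - 1, by omega⟩
    rw [Nat.add_sub_cancel, pow_succ]
    ring
  have hMr : (2:ℝ) ^ n = 2 * 2 ^ (n - 1) := by
    have : ((2 ^ (n - 1) + 2 ^ (n - 1) : ℕ) : ℝ) = ((2 ^ n : ℕ) : ℝ) := by rw [hM]
    push_cast at this
    linarith
  have hM0 : (0:ℝ) < 2 ^ (n - 1) := by positivity
  let e : Fin (2 ^ (n - 1)) ⊕ Fin (2 ^ (n - 1)) ≃ Fin (2 ^ n) :=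
    finSumFinEquiv.trans (finCongr hM)
  have hfl : ((⌊c * 2 ^ n⌋₊ : ℕ) : ℝ) ≤ c * 2 ^ n := Nat.floor_le (by positivity)
  have hd : 16 * ⌊c * 2 ^ n⌋₊ ≤ 2 ^ (n - 1) := by
    have : ((16 * ⌊c * 2 ^ n⌋₊ : ℕ) : ℝ) ≤ ((2 ^ (n - 1) : ℕ) : ℝ) := by
      push_cast
      rw [hMr] at hfl ⊢
      nlinarith
    exact_mod_cast this
  obtain ⟨a, ha0, ha1, ha2, ha3⟩ := regularize (2 ^ (n - 1)) ⌊c * 2 ^ n⌋₊ hd
    (fun x y => ¬ G.Adj (e (Sum.inl x)) (e (Sum.inr y)))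
    (fun x => setup_count G hG (fun y => e (Sum.inr y))
      (e.injective.comp Sum.inr_injective) (e (Sum.inl x)))
    (fun y => by
      have h := setup_count G hG (fun x => e (Sum.inl x))
        (e.injective.comp Sum.inl_injective) (e (Sum.inr y))
      simpa only [G.adj_comm (e (Sum.inr y))] using h)
  refine ⟨((2 ^ (n - 1) : ℕ) : ℝ) - 4 * (⌊c * 2 ^ n⌋₊ : ℕ), e, a, ?_, ha0, ?_, ha2, ha3⟩
  · push_cast
    rw [hMr] at hfl ⊢
    nlinarith
  · intro x y hxy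
    by_contra hne
    have := ha1 x y hne
    rw [hxy] at this
    exact one_ne_zero this

end Pool.Agent.QA
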