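import Pool.Agent.QA.Defs

/-!
Project QA (MP_a55b9e_co), row QA-4: most tuples of seeds are typical (second moment).
-/

set_option autoImplicit false

open Finset

namespace Pool.Agent.QA

open Pool.Agent.H73.Cube (EE EE_const EE_add EE_sub EE_smul EE_sum EE_mono EE_nonneg)

/-- expectation of a product of functions of distinct coordinates -/
theorem tup_prod {ι α : Type} [Fintype ι] [DecidableEq ι] [Fintype α] (P : ι → α → ℝ)
    (hP1 : ∀ i, ∑ y, P i y = 1) (I : Finset ι) (f : ι → α → ℝ) :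
    EE P (fun ω => ∏ i ∈ I, f i (ω i)) = ∏ i ∈ I, ∑ y, P i y * f i y := by
  unfold EE
  have h1 : ∀ ω : ι → α, (∏ i, P i (ω i)) * ∏ i ∈ I, f i (ω i) =
      ∏ i, (P i (ω i) * if i ∈ I then f i (ω i) else 1) := by
    intro ω
    rw [prod_mul_distrib, prod_ite_mem, univ_inter]
  rw [sum_congr rfl fun ω _ => h1 ω,
    ← Fintype.prod_sum (fun i y => P i y * if i ∈ I then f i y else 1)]
  have h2 : ∀ i, (∑ y, P i y * if i ∈ I then f i y else 1) =
      if i ∈ I then ∑ y, P i y * f i y else 1 := by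
    intro i
    split_ifs with h
    · rfl
    · simp [hP1]
  rw [prod_congr rfl fun i _ => h2 i, prod_ite_mem, univ_inter]

theorem tup_unif {Y : Type} [Fintype Y] [DecidableEq Y] (C : Finset Y) (f : Y → ℝ) :
    ∑ y, unif C y * f y = (∑ y ∈ C, f y) / C.card := by
  unfold unif
  simp_rw [ite_mul, zero_mul]
  rw [sum_ite_mem, univ_inter, ← mul_sum, div_eq_inv_mul]

theorem tup_mm_mem {X Y : Type} (a : X → Y → ℝ) (C : Finset Y) (ha : ∀ x y, a x y = 0 ∨ a x y = 1)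
    (hC : C.Nonempty) (f : Y → ℝ) (hf0 : ∀ y, 0 ≤ f y) (hf1 : ∀ y, f y ≤ 1) :
    0 ≤ (∑ y ∈ C, f y) / C.card ∧ (∑ y ∈ C, f y) / C.card ≤ 1 := by
  have hc : (0 : ℝ) < C.card := by exact_mod_cast hC.card_pos
  refine ⟨div_nonneg (sum_nonneg fun y _ => hf0 y) hc.le, ?_⟩
  rw [div_le_one hc]
  calc ∑ y ∈ C, f y ≤ ∑ _y ∈ C, (1 : ℝ) := sum_le_sum fun y _ => hf1 y
    _ = C.card := by simp

theorem tup_mn {X Y : Type} (a : X → Y → ℝ) (C : Finset Y) (ha : ∀ x y, a x y = 0 ∨ a x y = 1)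
    (hC : C.Nonempty) (x : X) : 0 ≤ mn a C x ∧ mn a C x ≤ 1 := by
  refine tup_mm_mem a C ha hC (fun y => a x y) (fun y => ?_) fun y => ?_
  · rcases ha x y with h | h <;> rw [h] <;> norm_num
  · rcases ha x y with h | h <;> rw [h] <;> norm_num

theorem tup_mm {X Y : Type} (a : X → Y → ℝ) (C : Finset Y) (ha : ∀ x y, a x y = 0 ∨ a x y = 1)
    (hC : C.Nonempty) (x x' : X) : 0 ≤ (∑ y ∈ C, a x y * a x' y) / C.card ∧
      (∑ y ∈ C, a x y * a x' y) / C.card ≤ 1 := by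
  refine tup_mm_mem a C ha hC (fun y => a x y * a x' y) (fun y => ?_) fun y => ?_
  · rcases ha x y with h | h <;> rcases ha x' y with h' | h' <;> rw [h, h'] <;> norm_num
  · rcases ha x y with h | h <;> rcases ha x' y with h' | h' <;> rw [h, h'] <;> norm_num

theorem tup_pow_sub (u v : ℝ) (hu0 : 0 ≤ u) (hu1 : u ≤ 1) (hv0 : 0 ≤ v) (hv1 : v ≤ 1) (k : ℕ) :
    |u ^ k - v ^ k| ≤ k * |u - v| := by
  induction k with
  | zero => simp
  | succ k ih =>
    have h1 : u ^ (k + 1) - v ^ (k + 1) = u ^ k * (u - v) + (u ^ k - v ^ k) * v := by ring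
    rw [h1]
    refine (abs_add_le _ _).trans ?_
    rw [abs_mul, abs_mul, abs_of_nonneg (pow_nonneg hu0 k), abs_of_nonneg hv0]
    have h2 : u ^ k * |u - v| ≤ 1 * |u - v| :=
      mul_le_mul_of_nonneg_right (pow_le_one₀ hu0 hu1) (abs_nonneg _)
    have h3 : |u ^ k - v ^ k| * v ≤ |u ^ k - v ^ k| * 1 :=
      mul_le_mul_of_nonneg_left hv1 (abs_nonneg _)
    push_cast
    linarith

section moments

variable {X Y ι : Type} [Fintype X] [Fintype Y] [DecidableEq Y] [Fintype ι] [DecidableEq ι]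

/-- the mean -/
theorem tup_mean (a : X → Y → ℝ) (C : Finset Y) (P : ι → Y → ℝ) (hP1 : ∀ i, ∑ y, P i y = 1)
    (J : Finset ι) (hPJ : ∀ i ∈ J, ∀ y, P i y = unif C y) (G : X → ℝ) :
    EE P (fun ω => ∑ x, G x * ∏ i ∈ J, a x (ω i)) = ∑ x, G x * mn a C x ^ J.card := by
  rw [EE_sum]
  refine sum_congr rfl fun x _ => ?_
  rw [EE_smul, tup_prod P hP1 J (fun _ y => a x y)]
  congr 1
  rw [← prod_const]
  refine prod_congr rfl fun i hi => ?_
  rw [sum_congr rfl fun y _ => by rw [hPJ i hi y], tup_unif]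
  rfl

/-- the second moment -/
theorem tup_sq (a : X → Y → ℝ) (C : Finset Y) (P : ι → Y → ℝ) (hP1 : ∀ i, ∑ y, P i y = 1)
    (J : Finset ι) (hPJ : ∀ i ∈ J, ∀ y, P i y = unif C y) (G : X → ℝ) :
    EE P (fun ω => (∑ x, G x * ∏ i ∈ J, a x (ω i)) ^ 2) =
      ∑ x, ∑ x', G x * G x' * ((∑ y ∈ C, a x y * a x' y) / C.card) ^ J.card := by
  have h1 : (fun ω : ι → Y => (∑ x, G x * ∏ i ∈ J, a x (ω i)) ^ 2) =
      fun ω => ∑ x, ∑ x', G x * G x' * ∏ i ∈ J, (a x (ω i) * a x' (ω i)) := by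
    funext ω
    rw [sq, sum_mul_sum]
    refine sum_congr rfl fun x _ => sum_congr rfl fun x' _ => ?_
    rw [prod_mul_distrib]
    ring
  rw [h1, EE_sum]
  refine sum_congr rfl fun x _ => ?_
  rw [EE_sum]
  refine sum_congr rfl fun x' _ => ?_
  rw [EE_smul, tup_prod P hP1 J (fun _ y => a x y * a x' y)]
  congr 1
  rw [← prod_const]
  refine prod_congr rfl fun i hi => ?_
  rw [sum_congr rfl fun y _ => by rw [hPJ i hi y], tup_unif]

/-- the sum of the absolute covariances -/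
theorem tup_abs_cov (a : X → Y → ℝ) (C : Finset Y) (ε₁ : ℝ) (hε₁ : 0 ≤ ε₁)
    (hcov : ∑ x, ∑ x', cov a C x x' ^ 2 ≤ ε₁ * (Fintype.card X : ℝ) ^ 2) :
    ∑ x, ∑ x', |cov a C x x'| ≤ Real.sqrt ε₁ * (Fintype.card X : ℝ) ^ 2 := by
  rw [← Fintype.sum_prod_type' (fun x x' => cov a C x x' ^ 2)] at hcov
  rw [← Fintype.sum_prod_type' (fun x x' => |cov a C x x'|)]
  have h1 := sq_sum_le_card_mul_sum_sq (s := (univ : Finset (X × X)))
    (f := fun p => |cov a C p.1 p.2|)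
  simp only [sq_abs, card_univ, Fintype.card_prod, Nat.cast_mul] at h1
  refine abs_le_of_sq_le_sq' ?_ (by positivity) |>.2
  have h2 : (Fintype.card X : ℝ) * Fintype.card X * ∑ p : X × X, cov a C p.1 p.2 ^ 2 ≤
      (Fintype.card X : ℝ) * Fintype.card X * (ε₁ * (Fintype.card X : ℝ) ^ 2) :=
    mul_le_mul_of_nonneg_left hcov (by positivity)
  calc (∑ p : X × X, |cov a C p.1 p.2|) ^ 2
      ≤ (Fintype.card X : ℝ) * Fintype.card X * (ε₁ * (Fintype.card X : ℝ) ^ 2) := h1.trans h2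
    _ = (Real.sqrt ε₁ * (Fintype.card X : ℝ) ^ 2) ^ 2 := by
        rw [mul_pow, Real.sq_sqrt hε₁]; ring

/-- the variance -/
theorem tup_var (a : X → Y → ℝ) (C : Finset Y) (ha : ∀ x y, a x y = 0 ∨ a x y = 1)
    (hC : C.Nonempty) (P : ι → Y → ℝ) (hP1 : ∀ i, ∑ y, P i y = 1)
    (J : Finset ι) (hPJ : ∀ i ∈ J, ∀ y, P i y = unif C y) (G : X → ℝ) (Γ : ℝ)
    (hG0 : ∀ x, 0 ≤ G x) (hGΓ : ∀ x, G x ≤ Γ) (K : ℕ) (hJ : J.card ≤ K) (ε₁ : ℝ) (hε₁ : 0 ≤ ε₁)
    (hcov : ∑ x, ∑ x', cov a C x x' ^ 2 ≤ ε₁ * (Fintype.card X : ℝ) ^ 2) :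
    EE P (fun ω => (∑ x, G x * ∏ i ∈ J, a x (ω i) - ∑ x, G x * mn a C x ^ J.card) ^ 2) ≤
      Γ ^ 2 * K * Real.sqrt ε₁ * (Fintype.card X : ℝ) ^ 2 := by
  set μ : ℝ := ∑ x, G x * mn a C x ^ J.card with hμ
  have h1 : EE P (fun ω => (∑ x, G x * ∏ i ∈ J, a x (ω i) - μ) ^ 2) =
      EE P (fun ω => (∑ x, G x * ∏ i ∈ J, a x (ω i)) ^ 2) - μ ^ 2 := by
    have e1 : (fun ω : ι → Y => (∑ x, G x * ∏ i ∈ J, a x (ω i) - μ) ^ 2) =
        fun ω => (∑ x, G x * ∏ i ∈ J, a x (ω i)) ^ 2 -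
          (2 * μ * (∑ x, G x * ∏ i ∈ J, a x (ω i)) - μ ^ 2) := by
      funext ω; ring
    rw [e1, EE_sub, EE_sub, EE_smul, EE_const hP1, tup_mean a C P hP1 J hPJ G, ← hμ]
    ring
  rw [h1, tup_sq a C P hP1 J hPJ G]
  have h2 : μ ^ 2 = ∑ x, ∑ x', G x * G x' * (mn a C x * mn a C x') ^ J.card := by
    rw [hμ, sq, sum_mul_sum]
    refine sum_congr rfl fun x _ => sum_congr rfl fun x' _ => ?_
    rw [mul_pow]
    ring
  rw [h2, ← sum_sub_distrib]
  have h3 : ∀ x x', G x * G x' * ((∑ y ∈ C, a x y * a x' y) / C.card) ^ J.card -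
      G x * G x' * (mn a C x * mn a C x') ^ J.card ≤ Γ ^ 2 * K * |cov a C x x'| := by
    intro x x'
    rw [← mul_sub]
    have e0 := tup_mm a C ha hC x x'
    have e1 := tup_mn a C ha hC x
    have e2 := tup_mn a C ha hC x'
    have e3 := tup_pow_sub ((∑ y ∈ C, a x y * a x' y) / C.card) (mn a C x * mn a C x') e0.1 e0.2
      (mul_nonneg e1.1 e2.1) (mul_le_one₀ e1.2 e2.1 e2.2) J.card
    have e4 : (J.card : ℝ) ≤ K := by exact_mod_cast hJ
    have hΓ : 0 ≤ Γ := (hG0 x).trans (hGΓ x)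
    calc G x * G x' * (((∑ y ∈ C, a x y * a x' y) / C.card) ^ J.card -
          (mn a C x * mn a C x') ^ J.card)
        ≤ G x * G x' * (J.card * |(∑ y ∈ C, a x y * a x' y) / C.card - mn a C x * mn a C x'|) :=
          mul_le_mul_of_nonneg_left ((le_abs_self _).trans e3) (mul_nonneg (hG0 x) (hG0 x'))
      _ ≤ (Γ * Γ) * (K * |(∑ y ∈ C, a x y * a x' y) / C.card - mn a C x * mn a C x'|) := by
          refine mul_le_mul (mul_le_mul (hGΓ x) (hGΓ x') (hG0 x') hΓ)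
            (mul_le_mul_of_nonneg_right e4 (abs_nonneg _)) (by positivity) (by positivity)
      _ = Γ ^ 2 * K * |cov a C x x'| := by
          unfold cov
          ring
  calc ∑ x, (∑ x', G x * G x' * ((∑ y ∈ C, a x y * a x' y) / C.card) ^ J.card -
        ∑ x', G x * G x' * (mn a C x * mn a C x') ^ J.card)
      ≤ ∑ x, ∑ x', Γ ^ 2 * K * |cov a C x x'| := by
        refine sum_le_sum fun x _ => ?_
        rw [← sum_sub_distrib]
        exact sum_le_sum fun x' _ => h3 x x'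
    _ = Γ ^ 2 * K * ∑ x, ∑ x', |cov a C x x'| := by
        simp_rw [← mul_sum]
    _ ≤ Γ ^ 2 * K * (Real.sqrt ε₁ * (Fintype.card X : ℝ) ^ 2) :=
        mul_le_mul_of_nonneg_left (tup_abs_cov a C ε₁ hε₁ hcov) (by positivity)
    _ = _ := by ring

/-- Chebyshev -/
theorem tup_cheb (a : X → Y → ℝ) (C : Finset Y) (ha : ∀ x y, a x y = 0 ∨ a x y = 1)
    (hC : C.Nonempty) (P : ι → Y → ℝ) (hP0 : ∀ i y, 0 ≤ P i y) (hP1 : ∀ i, ∑ y, P i y = 1)
    (J : Finset ι) (hPJ : ∀ i ∈ J, ∀ y, P i y = unif C y) (G : X → ℝ) (Γ : ℝ)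
    (hG0 : ∀ x, 0 ≤ G x) (hGΓ : ∀ x, G x ≤ Γ) (K : ℕ) (hJ : J.card ≤ K) (ε₁ : ℝ) (hε₁ : 0 ≤ ε₁)
    (hcov : ∑ x, ∑ x', cov a C x x' ^ 2 ≤ ε₁ * (Fintype.card X : ℝ) ^ 2)
    (hX : 0 < Fintype.card X) (ε : ℝ) (hε : 0 < ε) :
    EE P (fun ω => ind (ε * Fintype.card X <
      |∑ x, G x * ∏ i ∈ J, a x (ω i) - ∑ x, G x * mn a C x ^ J.card|)) ≤
      Γ ^ 2 * K * Real.sqrt ε₁ / ε ^ 2 := by
  have hX' : (0 : ℝ) < Fintype.card X := by exact_mod_cast hX
  have h1 : EE P (fun ω => ind (ε * Fintype.card X <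
      |∑ x, G x * ∏ i ∈ J, a x (ω i) - ∑ x, G x * mn a C x ^ J.card|)) ≤
      EE P (fun ω => ((ε * Fintype.card X) ^ 2)⁻¹ *
        (∑ x, G x * ∏ i ∈ J, a x (ω i) - ∑ x, G x * mn a C x ^ J.card) ^ 2) := by
    refine EE_mono hP0 fun ω _ => ?_
    by_cases h : ε * Fintype.card X <
      |∑ x, G x * ∏ i ∈ J, a x (ω i) - ∑ x, G x * mn a C x ^ J.card|
    · rw [ind_true h, ← sq_abs (∑ x, G x * ∏ i ∈ J, a x (ω i) - ∑ x, G x * mn a C x ^ J.card),
        inv_mul_eq_div, one_le_div (by positivity)]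
      exact pow_le_pow_left₀ (by positivity) h.le 2
    · rw [ind_false h]
      positivity
  refine h1.trans ?_
  rw [EE_smul]
  have h2 := tup_var a C ha hC P hP1 J hPJ G Γ hG0 hGΓ K hJ ε₁ hε₁ hcov
  calc ((ε * Fintype.card X) ^ 2)⁻¹ * EE P (fun ω =>
        (∑ x, G x * ∏ i ∈ J, a x (ω i) - ∑ x, G x * mn a C x ^ J.card) ^ 2)
      ≤ ((ε * Fintype.card X) ^ 2)⁻¹ * (Γ ^ 2 * K * Real.sqrt ε₁ * (Fintype.card X : ℝ) ^ 2) :=
        mul_le_mul_of_nonneg_left h2 (by positivity)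
    _ = _ := by
        field_simp

end moments

theorem tup_gw {X Y : Type} (a : X → Y → ℝ) (C : Finset Y) (ha : ∀ x y, a x y = 0 ∨ a x y = 1)
    (hC : C.Nonempty) (τ : ℝ) (hτ : 0 < τ) (hτ1 : τ ≤ 1) (k K : ℕ) (hk : k ≤ K) (x : X) :
    0 ≤ gw a C τ k x ∧ gw a C τ k x ≤ (τ ^ K)⁻¹ := by
  have e1 := tup_mn a C ha hC x
  unfold gw
  split_ifs with h
  · have hm : 0 < mn a C x := hτ.trans_le h
    refine ⟨by positivity, ?_⟩
    have h1 : τ ^ K ≤ mn a C x ^ k :=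
      (pow_le_pow_of_le_one hτ.le hτ1 hk).trans (pow_le_pow_left₀ hτ.le h k)
    calc mn a C x * (mn a C x ^ k)⁻¹ ≤ 1 * (mn a C x ^ k)⁻¹ :=
          mul_le_mul_of_nonneg_right e1.2 (by positivity)
      _ = (mn a C x ^ k)⁻¹ := one_mul _
      _ ≤ (τ ^ K)⁻¹ := by gcongr
  · exact ⟨le_rfl, by positivity⟩

/-- an atypical tuple deviates -/
theorem tup_not_typ {X Y ι : Type} [Fintype X] [DecidableEq ι] (a : X → Y → ℝ) (C : Finset Y)
    (τ ε : ℝ) (hτ : 0 < τ) (I : Finset ι) (ω : ι → Y) :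
    ind (¬ Typ a C τ ε I ω) ≤
      ind (ε * Fintype.card X < |∑ x, gw a C τ I.card x * ∏ i ∈ I, a x (ω i) -
        ∑ x, gw a C τ I.card x * mn a C x ^ I.card|) +
      ∑ i ∈ I, ind (ε * Fintype.card X <
        |∑ x, gw a C τ I.card x * ∏ j ∈ I.erase i, a x (ω j) -
        ∑ x, gw a C τ I.card x * mn a C x ^ (I.erase i).card|) := by
  by_cases h : Typ a C τ ε I ω
  · rw [ind_false (not_not.2 h)]
    exact add_nonneg (ind_nonneg _) (sum_nonneg fun i _ => ind_nonneg _)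
  · rw [ind_true h]
    unfold Typ at h
    rw [not_and_or] at h
    rcases h with h | h
    · rw [not_le] at h
      have e1 : ∑ x, gw a C τ I.card x * mn a C x ^ I.card = Dp a C τ := by
        unfold Dp gw
        refine sum_congr rfl fun x _ => ?_
        split_ifs with hx
        · have hm : mn a C x ≠ 0 := (hτ.trans_le hx).ne'
          rw [mul_assoc, inv_mul_cancel₀ (pow_ne_zero _ hm), mul_one]
        · rw [zero_mul]
      have h1 : ε * Fintype.card X < |∑ x, gw a C τ I.card x * ∏ i ∈ I, a x (ω i) -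
          ∑ x, gw a C τ I.card x * mn a C x ^ I.card| := by
        rw [e1, abs_sub_comm]
        refine lt_of_lt_of_le ?_ (le_abs_self _)
        unfold wx at h
        linarith
      rw [ind_true h1]
      have := sum_nonneg (s := I) (f := fun i => ind (ε * Fintype.card X <
        |∑ x, gw a C τ I.card x * ∏ j ∈ I.erase i, a x (ω j) -
        ∑ x, gw a C τ I.card x * mn a C x ^ (I.erase i).card|)) fun i _ => ind_nonneg _
      linarith
    · push Not at h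
      obtain ⟨i, hi, h⟩ := h
      have hcard : I.card = (I.erase i).card + 1 := (card_erase_add_one hi).symm
      have e1 : ∑ x, gw a C τ I.card x * mn a C x ^ (I.erase i).card ≤ Fintype.card X := by
        calc ∑ x, gw a C τ I.card x * mn a C x ^ (I.erase i).card ≤ ∑ _x : X, (1 : ℝ) := by
              refine sum_le_sum fun x _ => ?_
              unfold gw
              split_ifs with hx
              · have hm : mn a C x ≠ 0 := (hτ.trans_le hx).ne'
                rw [hcard, pow_succ]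
                refine le_of_eq ?_
                field_simp
              · rw [zero_mul]
                exact zero_le_one
          _ = Fintype.card X := by simp
      have h1 : ε * Fintype.card X < |∑ x, gw a C τ I.card x * ∏ j ∈ I.erase i, a x (ω j) -
          ∑ x, gw a C τ I.card x * mn a C x ^ (I.erase i).card| := by
        refine lt_of_lt_of_le ?_ (le_abs_self _)
        unfold wx at h
        linarith
      have h2 := single_le_sum (s := I) (f := fun i => ind (ε * Fintype.card X <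
        |∑ x, gw a C τ I.card x * ∏ j ∈ I.erase i, a x (ω j) -
        ∑ x, gw a C τ I.card x * mn a C x ^ (I.erase i).card|)) (fun i _ => ind_nonneg _) hi
      beta_reduce at h2
      rw [ind_true h1] at h2
      have := ind_nonneg (ε * Fintype.card X < |∑ x, gw a C τ I.card x * ∏ i ∈ I, a x (ω i) -
        ∑ x, gw a C τ I.card x * mn a C x ^ I.card|)
      linarith

theorem typ_prob (K : ℕ) (τ ε ε₂ : ℝ) (hτ : 0 < τ) (hτ1 : τ ≤ 1) (hε : 0 < ε) (hε₂ : 0 < ε₂) :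
    ∃ ε₁ : ℝ, 0 < ε₁ ∧ ∀ (X Y ι : Type) [Fintype X] [Fintype Y] [DecidableEq Y] [Fintype ι]
      [DecidableEq ι] (a : X → Y → ℝ) (C : Finset Y) (P : ι → Y → ℝ) (I : Finset ι),
      (∀ x y, a x y = 0 ∨ a x y = 1) → C.Nonempty →
      ∑ x, ∑ x', cov a C x x' ^ 2 ≤ ε₁ * (Fintype.card X : ℝ) ^ 2 →
      (∀ i y, 0 ≤ P i y) → (∀ i, ∑ y, P i y = 1) → (∀ i ∈ I, ∀ y, P i y = unif C y) →
      I.card ≤ K → EE P (fun ω => ind (¬ Typ a C τ ε I ω)) ≤ ε₂ := by
  set Γ : ℝ := (τ ^ K)⁻¹ with hΓ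
  have hΓ0 : 0 < Γ := by rw [hΓ]; positivity
  set δ : ℝ := ε₂ * ε ^ 2 / (Γ ^ 2 * (K + 1) ^ 2) with hδ
  have hδ0 : 0 < δ := by rw [hδ]; positivity
  refine ⟨δ ^ 2, by positivity, ?_⟩
  intro X Y ι _ _ _ _ _ a C P I ha hC hcov hP0 hP1 hPI hIK
  have hsq : Real.sqrt (δ ^ 2) = δ := Real.sqrt_sq hδ0.le
  rcases Nat.eq_zero_or_pos (Fintype.card X) with hX | hX
  · -- the empty case
    have hXe : IsEmpty X := Fintype.card_eq_zero_iff.mp hX
    have h1 : ∀ ω : ι → Y, Typ a C τ ε I ω := by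
      intro ω
      unfold Typ Dp
      simp
    have h2 : (fun ω : ι → Y => ind (¬ Typ a C τ ε I ω)) = fun _ => 0 := by
      funext ω
      exact ind_false (not_not.2 (h1 ω))
    rw [h2, EE_const hP1]
    exact hε₂.le
  · have hG := fun x => tup_gw a C ha hC τ hτ hτ1 I.card K hIK x
    have hb : Γ ^ 2 * K * Real.sqrt (δ ^ 2) / ε ^ 2 ≤ ε₂ / (K + 1) := by
      rw [hsq, hδ]
      have e1 : Γ ^ 2 * K * (ε₂ * ε ^ 2 / (Γ ^ 2 * (K + 1) ^ 2)) / ε ^ 2 =
          ε₂ / (K + 1) * (K / (K + 1)) := by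
        field_simp
      rw [e1]
      have e2 : (K : ℝ) / (K + 1) ≤ 1 := by
        rw [div_le_one (by positivity)]
        linarith
      exact mul_le_of_le_one_right (by positivity) e2
    have h1 := tup_cheb a C ha hC P hP0 hP1 I hPI (gw a C τ I.card) Γ (fun x => (hG x).1)
      (fun x => (hG x).2) K hIK (δ ^ 2) (by positivity) hcov hX ε hε
    have h2 := fun i (hi : i ∈ I) => tup_cheb a C ha hC P hP0 hP1 (I.erase i)
      (fun j hj => hPI j (mem_of_mem_erase hj)) (gw a C τ I.card) Γ (fun x => (hG x).1)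
      (fun x => (hG x).2) K ((card_erase_le).trans hIK) (δ ^ 2) (by positivity) hcov hX ε hε
    have h3 := EE_mono hP0 (f := fun ω => ind (¬ Typ a C τ ε I ω)) fun ω _ =>
      tup_not_typ a C τ ε hτ I ω
    refine h3.trans ?_
    rw [EE_add, EE_sum]
    have h4 : (I.card : ℝ) ≤ K := by exact_mod_cast hIK
    calc _ ≤ ε₂ / (K + 1) + ∑ _i ∈ I, ε₂ / (K + 1) := by
          refine add_le_add (h1.trans hb) (sum_le_sum fun i hi => (h2 i hi).trans hb)
      _ = (1 + I.card) * (ε₂ / (K + 1)) := by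
          rw [sum_const, nsmul_eq_mul]; ring
      _ ≤ (K + 1) * (ε₂ / (K + 1)) := by
          refine mul_le_mul_of_nonneg_right (by linarith) (by positivity)
      _ = ε₂ := by field_simp

end Pool.Agent.QA
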