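import Pool.Agent.QA.Core
import Pool.Agent.QA.Params
import Pool.Agent.QA.Setup
import Pool.Agent.QA.Cluster
import Pool.Agent.QA.Tuples
import Pool.Agent.QA.Label
import Pool.Agent.QA.Region

/-!
Project QA (MP_a55b9e_co): the theorem.
-/

set_option autoImplicit false

open Finset

namespace Pool.Agent.QA

open Pool.Agent.H73.Cube (EE)

theorem approx (δ : ℝ) (hδ : 0 < δ) : ∃ n₀ : ℕ, ∀ n, n₀ ≤ n →
    ∀ (G : SimpleGraph (Fin (2 ^ n))) [DecidableRel G.Adj],
      (∀ v, ((G.degree v : ℕ) : ℝ) > (1 - 1 / 1000) * 2 ^ n) →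
      ∃ (Φ : (Fin n → ZMod 2) ≃ Fin (2 ^ n)) (W : Finset (Fin n → ZMod 2)),
        (W.card : ℝ) ≤ δ * 2 ^ n ∧ ∀ x, x ∉ W → ∀ i, G.Adj (Φ x) (Φ (x + Pi.single i 1)) := by
  classical
  obtain ⟨g, hg0, hg1, hgδ⟩ : ∃ g : ℝ, 0 < g ∧ g ≤ 1 / 256 ∧ 256 * g ≤ δ := by
    refine ⟨min (1 / 256) (δ / 256), lt_min (by norm_num) (by positivity), min_le_left _ _, ?_⟩
    have := min_le_right (1 / 256) (δ / 256)
    linarith
  obtain ⟨γ, hγ⟩ : ∃ γ : ℝ, γ = 16 * g := ⟨_, rfl⟩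
  have hγ0 : 0 < γ := by linarith
  have hγ1 : γ ≤ 1 / 16 := by linarith
  obtain ⟨K, m₁, hlab⟩ := exists_label γ hγ0
  obtain ⟨τ, hτ⟩ : ∃ τ : ℝ, τ = γ / 10000 := ⟨_, rfl⟩
  have hτ0 : 0 < τ := by rw [hτ]; positivity
  have hτ1 : τ ≤ 1 / 160000 := by rw [hτ]; linarith
  obtain ⟨ε₂, hε₂⟩ : ∃ ε₂ : ℝ, ε₂ = γ / (4 * 2 ^ K) := ⟨_, rfl⟩
  have hε₂0 : 0 < ε₂ := by rw [hε₂]; positivity
  obtain ⟨ε₁, hε₁0, htyp⟩ := typ_prob K τ τ ε₂ hτ0 (by linarith) hτ0 hε₂0
  obtain ⟨t, hclus⟩ := clusters (γ * ε₁) (by positivity)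
  obtain ⟨ξ, hξ⟩ : ∃ ξ : ℝ, ξ = γ / (t + 1) := ⟨_, rfl⟩
  have hξ0 : 0 < ξ := by rw [hξ]; positivity
  obtain ⟨m₂, hregion⟩ := exists_regions t γ hγ0
  obtain ⟨n₀, hpar⟩ := params K (max m₁ m₂) τ ξ g hτ0 hξ0 hg0
  refine ⟨n₀, fun n hn G _ hG => ?_⟩
  obtain ⟨l, m, hlm, hl, hm, hn2, hη1, hη2, hcond⟩ := hpar n hn
  obtain ⟨D, e, a, hD, ha01, hadj, hrow, hcol⟩ := setup n (by omega) (1 / 1000) (by norm_num)
    (by norm_num) G hG
  obtain ⟨η, hη⟩ : ∃ η : ℝ, η = 1 / (n : ℝ) ^ 2 := ⟨_, rfl⟩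
  obtain ⟨θ, hθ⟩ : ∃ θ : ℝ, θ = (((101 / 100 : ℝ)) ^ (2 * n))⁻¹ := ⟨_, rfl⟩
  rw [← hη] at hη1 hη2 hcond
  rw [← hθ] at hcond
  have hη0 : 0 < η := by
    rw [hη]
    have : (0 : ℝ) < n := by exact_mod_cast (by omega : 0 < n)
    positivity
  have hθ0 : 0 < θ := by rw [hθ]; positivity
  subst hlm
  have hMM : 2 * 2 ^ (4 * l + m - 1) = 2 ^ (4 * l + m) := by
    rw [← pow_succ']
    congr 1
    omega
  have hMr : ((2 ^ (4 * l + m - 1) : ℕ) : ℝ) = 2 ^ (4 * l + m - 1) := by push_cast; rfl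
  rw [← hMr] at hD
  generalize hM : (2 : ℕ) ^ (4 * l + m - 1) = M at *
  have hMMr : 2 * (M : ℝ) = 2 ^ (4 * l + m) := by exact_mod_cast hMM
  have hM0 : (0 : ℝ) < M := by
    have : (0 : ℝ) < 2 ^ (4 * l + m) := by positivity
    linarith
  -- clusters
  obtain ⟨χ, hχ⟩ := hclus (Fin M) (Fin M) a ha01
  rw [Fintype.card_fin] at hχ
  let cl : Fin t → Finset (Fin M) := fun j => univ.filter fun y => χ y = j
  let cv : Fin t → ℝ := fun j => ∑ x, ∑ x', cov a (cl j) x x' ^ 2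
  have hcv0 : ∀ j, 0 ≤ cv j := fun j => sum_nonneg fun x _ => sum_nonneg fun x' _ => sq_nonneg _
  have hclM : ∑ j, ((cl j).card : ℝ) = M := by
    have h1 : ∑ j, (cl j).card = M := by
      have h2 := card_eq_sum_card_fiberwise (s := (univ : Finset (Fin M)))
        (t := (univ : Finset (Fin t))) (f := χ) (fun y _ => mem_univ _)
      rw [card_univ, Fintype.card_fin] at h2
      exact h2.symm
    exact_mod_cast h1
  let good : Fin t → Prop := fun j => ξ * M ≤ (cl j).card ∧ cv j ≤ ε₁ * (M : ℝ) ^ 2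
  have hgood : (1 - 2 * γ) * M ≤ ∑ j ∈ univ.filter good, ((cl j).card : ℝ) := by
    have h1 : ∑ j, ((cl j).card : ℝ) = ∑ j ∈ univ.filter good, ((cl j).card : ℝ) +
        ∑ j ∈ univ.filter (fun j => ¬ good j), ((cl j).card : ℝ) :=
      (sum_filter_add_sum_filter_not _ _ _).symm
    have h2 : ∑ j ∈ univ.filter (fun j => ¬ good j), ((cl j).card : ℝ) ≤
        ∑ j : Fin t, (ξ * M + (cl j).card * cv j / (ε₁ * (M : ℝ) ^ 2)) := by
      refine le_trans (sum_le_sum fun j hj => ?_)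
        (sum_le_sum_of_subset_of_nonneg (filter_subset _ _) fun j _ _ => ?_)
      · have hj' := (mem_filter.1 hj).2
        have h4 : (0 : ℝ) ≤ (cl j).card * cv j / (ε₁ * (M : ℝ) ^ 2) :=
          div_nonneg (mul_nonneg (Nat.cast_nonneg _) (hcv0 j)) (by positivity)
        by_cases h3 : ξ * M ≤ (cl j).card
        · have h5 : ε₁ * (M : ℝ) ^ 2 ≤ cv j := by
            by_contra h6
            exact hj' ⟨h3, (not_le.1 h6).le⟩
          have h6 : ((cl j).card : ℝ) ≤ (cl j).card * cv j / (ε₁ * (M : ℝ) ^ 2) := by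
            rw [le_div_iff₀ (by positivity)]
            exact mul_le_mul_of_nonneg_left h5 (Nat.cast_nonneg _)
          have h7 : 0 ≤ ξ * (M : ℝ) := by positivity
          linarith
        · linarith
      · exact add_nonneg (by positivity)
          (div_nonneg (mul_nonneg (Nat.cast_nonneg _) (hcv0 j)) (by positivity))
    have h3 : ∑ j : Fin t, (ξ * M + (cl j).card * cv j / (ε₁ * (M : ℝ) ^ 2)) ≤ 2 * γ * M := by
      rw [sum_add_distrib, sum_const, card_univ, Fintype.card_fin, nsmul_eq_mul, ← sum_div]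
      have h4 : (t : ℝ) * (ξ * M) ≤ γ * M := by
        rw [hξ]
        have h5 : (t : ℝ) * (γ / (t + 1) * M) = γ * M * (t / (t + 1)) := by ring
        rw [h5]
        refine mul_le_of_le_one_right (by positivity) ?_
        rw [div_le_one (by positivity)]
        linarith
      have h5 : (∑ j, ((cl j).card : ℝ) * cv j) / (ε₁ * (M : ℝ) ^ 2) ≤ γ * M := by
        rw [div_le_iff₀ (by positivity)]
        refine le_trans hχ (le_of_eq ?_)
        ring
      linarith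
    rw [hclM] at h1
    linarith
  let T : Type := {j : Fin t // good j}
  let C : T → Finset (Fin M) := fun j => cl j.1
  have hsumT : ∑ j : T, ((C j).card : ℝ) = ∑ j ∈ univ.filter good, ((cl j).card : ℝ) := by
    exact (sum_subtype (univ.filter good) (fun j => by simp) fun j => ((cl j).card : ℝ)).symm
  have hne : Nonempty T := by
    by_contra h
    have h1 : ∑ j : T, ((C j).card : ℝ) = 0 := by
      have : IsEmpty T := not_nonempty_iff.1 h
      exact Fintype.sum_empty _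
    rw [← hsumT, h1] at hgood
    have : 0 < (1 - 2 * γ) * (M : ℝ) := mul_pos (by linarith) hM0
    linarith
  obtain ⟨j0⟩ := hne
  have hTcard : Fintype.card T ≤ t := by
    have h1 := Fintype.card_subtype_le good
    rwa [Fintype.card_fin] at h1
  have hsum1 : ∑ j : T, (1 - γ) * (((C j).card : ℝ) / M) =
      (1 - γ) * ((∑ j : T, ((C j).card : ℝ)) / M) := by
    rw [sum_div, mul_sum]
  have hle : (∑ j : T, ((C j).card : ℝ)) / M ≤ 1 := by
    rw [div_le_one hM0, hsumT]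
    refine le_trans ?_ hclM.le
    exact sum_le_sum_of_subset_of_nonneg (filter_subset _ _) fun _ _ _ => Nat.cast_nonneg _
  have hge : 1 - 2 * γ ≤ (∑ j : T, ((C j).card : ℝ)) / M := by
    rw [le_div_iff₀ hM0, hsumT]
    exact hgood
  have hnn : 0 ≤ (∑ j : T, ((C j).card : ℝ)) / M := by linarith
  obtain ⟨reg, hreg, hregbad⟩ := hregion m ((le_max_right _ _).trans hm) T hTcard
    (fun j => (1 - γ) * (((C j).card : ℝ) / M))
    (fun j => mul_nonneg (by linarith) (div_nonneg (Nat.cast_nonneg _) hM0.le))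
    (by
      rw [hsum1]
      calc (1 - γ) * ((∑ j : T, ((C j).card : ℝ)) / M) ≤ 1 * 1 :=
            mul_le_mul (by linarith) hle hnn (by norm_num)
        _ = 1 := one_mul 1)
  obtain ⟨lab, hlab1, hlab2⟩ := hlab m ((le_max_left _ _).trans hm)
  -- the normalising constant
  obtain ⟨D0, hD0⟩ : ∃ D0 : ℝ, D0 = D - τ * M - τ * M := ⟨_, rfl⟩
  have hD1 : 9919 / 10000 * (M : ℝ) ≤ D0 := by
    rw [hD0]
    have h1 : τ * M ≤ 1 / 160000 * M := mul_le_mul_of_nonneg_right hτ1 hM0.le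
    linarith
  have hD0p : 0 < D0 := lt_of_lt_of_le (by positivity) hD1
  obtain ⟨c1, c2, c3, c4, c5, c6, c7⟩ := hcond M D0 hMMr (by linarith)
  have hV := Real.exp_pos (-(1 / 50 * ((4 * l + m : ℕ) : ℝ)))
  have hDD : D / D0 ≤ 1 + g := by
    rw [div_le_iff₀ hD0p]
    have h1 : τ * M * 10000 = γ * M := by rw [hτ]; ring
    have h2 : g * (9919 / 10000 * (M : ℝ)) ≤ g * D0 := mul_le_mul_of_nonneg_left hD1 hg0.le
    have h3 : 0 < g * (M : ℝ) := by positivity
    rw [hγ] at h1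
    have h4 : D = D0 + 2 * (τ * M) := by rw [hD0]; ring
    rw [h4]
    linarith
  have hDD0 : 0 ≤ D / D0 := by
    have h4 : D = D0 + 2 * (τ * M) := by rw [hD0]; ring
    have h5 : 0 ≤ D := by rw [h4]; positivity
    exact div_nonneg h5 hD0p.le
  obtain ⟨Φ, W, hW1, hW2⟩ := core (V := Fin (2 ^ (4 * l + m))) hl G (Fintype.card_fin _) hMM e a
    ha01 hadj D hrow hcol j0 C
    (fun j j' y h1 h2 => Subtype.ext ((mem_filter.1 h1).2.symm.trans (mem_filter.1 h2).2))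
    ξ hξ0 (fun j => j.2.1) K τ τ ε₂ γ η θ (101 / 100) D0 hτ0 (by linarith) hτ0 hε₂0 hγ0.le
    (by linarith) hη0 (by linarith) hθ0
    (fun j ι _ _ P I hP0 hP1 hP hI => by
      refine htyp (Fin M) (Fin M) ι a (C j) P I ha01 ?_ ?_ hP0 hP1 hP hI
      · rw [← card_pos]
        have h1 : (0 : ℝ) < (C j).card := lt_of_lt_of_le (mul_pos hξ0 hM0) j.2.1
        exact_mod_cast h1
      · rw [Fintype.card_fin]
        exact j.2.2)
    lab hlab1 reg hreg hD0p hD0.le (by norm_num)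
    (by
      have h1 : τ * M ≤ 1 / 160000 * M := mul_le_mul_of_nonneg_right hτ1 hM0.le
      linarith)
    g _ _ _ _ hg0.le hV hV hV hV c1 c2 c3 c4 (by linarith)
    (by linarith) (by linarith)
    (by
      have h1 : (1 + η) * (1 - γ) * (D / D0) ≤ (1 + g) * (1 - γ) * (1 + g) := by
        refine mul_le_mul (mul_le_mul_of_nonneg_right (by linarith) (by linarith)) hDD hDD0 ?_
        exact mul_nonneg (by linarith) (by linarith)
      rw [hγ] at h1 ⊢
      nlinarith)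
    (by
      have h1 : (1 + η) ^ (4 * l + m) * ((1 + η) * (1 - γ) + g) ≤
          (1 + g) * ((1 + g) * (1 - γ) + g) := by
        refine mul_le_mul hη2 ?_ ?_ (by linarith)
        · have := mul_le_mul_of_nonneg_right (show 1 + η ≤ 1 + g by linarith)
            (show 0 ≤ 1 - γ by linarith)
          linarith
        · have : 0 ≤ (1 + η) * (1 - γ) := mul_nonneg (by linarith) (by linarith)
          linarith
      rw [hγ] at h1 ⊢
      nlinarith)
  refine ⟨Φ, W, hW1.trans ?_, hW2⟩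
  have h2m : (0 : ℝ) < 2 ^ m := by positivity
  have h4l : (2 : ℝ) ^ (4 * l) * 2 ^ m = 2 ^ (4 * l + m) := by rw [← pow_add]
  have hK : 4 * (2 ^ K * ε₂ * 2 ^ m) = γ * (2 : ℝ) ^ m := by
    rw [hε₂]
    field_simp
  rw [hK]
  have hR : (1 - ∑ j : T, (1 - γ) * (((C j).card : ℝ) / M) + γ) ≤ 4 * γ := by
    rw [hsum1]
    nlinarith
  have hR' := mul_le_mul_of_nonneg_right hR h2m.le
  have h5 : (2 : ℝ) ^ (4 * l) *
      ((univ.filter fun z => ¬ ∃ j, ∀ z', hammingDist z z' ≤ 3 → reg z' = some j).card +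
        (univ.filter fun z =>
          K < ((univ.filter fun z' => hammingDist z z' ≤ 3).image lab).card).card +
        γ * 2 ^ m) ≤ 6 * γ * 2 ^ (4 * l + m) := by
    rw [← h4l]
    have h6 : (((univ.filter fun z => ¬ ∃ j, ∀ z', hammingDist z z' ≤ 3 → reg z' = some j).card
        : ℝ) + (univ.filter fun z =>
          K < ((univ.filter fun z' => hammingDist z z' ≤ 3).image lab).card).card +
        γ * 2 ^ m) ≤ 6 * γ * 2 ^ m := by linarith
    calc _ ≤ (2 : ℝ) ^ (4 * l) * (6 * γ * 2 ^ m) := mul_le_mul_of_nonneg_left h6 (by positivity)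
      _ = _ := by ring
  have h7 : (0 : ℝ) < 2 ^ (4 * l + m) := by positivity
  have h8 : 6 * γ * (2 : ℝ) ^ (4 * l + m) + g * 2 ^ (4 * l + m) ≤ δ * 2 ^ (4 * l + m) := by
    rw [← add_mul]
    refine mul_le_mul_of_nonneg_right ?_ h7.le
    linarith
  have h9 := c7
  linarith

end Pool.Agent.QA
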