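import Pool.Agent.QA.Defs

/-!
Project QA (MP_a55b9e_co), row QA-1: a bipartite relation with degrees at most `d` is contained in
a relation all of whose degrees are `4 d` (if `16 d ≤ M`).
-/

set_option autoImplicit false

open Finset

namespace Pool.Agent.QA

/-- degree of `x` -/
def reg_r {M : ℕ} (H : Finset (Fin M × Fin M)) (x : Fin M) : ℕ :=
  (univ.filter fun y => (x, y) ∈ H).card

/-- degree of `y` -/
def reg_c {M : ℕ} (H : Finset (Fin M × Fin M)) (y : Fin M) : ℕ :=
  (univ.filter fun x => (x, y) ∈ H).card

theorem reg_sum_r {M : ℕ} (H : Finset (Fin M × Fin M)) : ∑ x, reg_r H x = H.card := by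
  classical
  rw [Finset.card_eq_sum_card_fiberwise (f := Prod.fst) (t := univ) (fun _ _ => by simp)]
  apply Finset.sum_congr rfl
  intro x _
  unfold reg_r
  apply Finset.card_bij (fun y _ => (x, y))
  · intro y hy
    simp only [mem_filter, mem_univ, true_and] at hy
    simp [hy]
  · intro y _ y' _ hyy
    exact (Prod.ext_iff.mp hyy).2
  · rintro ⟨x', y'⟩ he
    simp only [mem_filter] at he
    obtain ⟨h1, rfl⟩ := he
    exact ⟨y', by simp [h1], rfl⟩

theorem reg_sum_c {M : ℕ} (H : Finset (Fin M × Fin M)) : ∑ y, reg_c H y = H.card := by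
  classical
  rw [Finset.card_eq_sum_card_fiberwise (f := Prod.snd) (t := univ) (fun _ _ => by simp)]
  apply Finset.sum_congr rfl
  intro y _
  unfold reg_c
  apply Finset.card_bij (fun x _ => (x, y))
  · intro x hx
    simp only [mem_filter, mem_univ, true_and] at hx
    simp [hx]
  · intro x _ x' _ hxx
    exact (Prod.ext_iff.mp hxx).1
  · rintro ⟨x', y'⟩ he
    simp only [mem_filter] at he
    obtain ⟨h1, rfl⟩ := he
    exact ⟨x', by simp [h1], rfl⟩

/-- edges whose second end is a neighbour of `x0` -/
theorem reg_bound_r {M D : ℕ} (H : Finset (Fin M × Fin M)) (hr : ∀ x, reg_r H x ≤ D)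
    (hc : ∀ y, reg_c H y ≤ D) (x0 : Fin M) :
    (H.filter fun e => (x0, e.2) ∈ H).card ≤ D * D := by
  classical
  have h1 := Finset.card_le_mul_card_image (f := Prod.snd) (H.filter fun e => (x0, e.2) ∈ H) D (by
    intro y _
    refine le_trans ?_ (hc y)
    unfold reg_c
    apply Finset.card_le_card_of_injOn (fun e => e.1)
    · rintro ⟨x', y'⟩ he
      simp only [coe_filter, mem_filter, Set.mem_ofPred_eq] at he
      obtain ⟨⟨h1, _⟩, rfl⟩ := he
      simpa using h1
    · rintro ⟨x', y'⟩ he ⟨x'', y''⟩ he' hee
      simp only [coe_filter, mem_filter, Set.mem_ofPred_eq] at he he'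
      simp only at hee
      rw [Prod.ext_iff]
      exact ⟨hee, he.2.trans he'.2.symm⟩)
  refine h1.trans (Nat.mul_le_mul_left D (le_trans ?_ (hr x0)))
  unfold reg_r
  apply Finset.card_le_card
  intro y hy
  obtain ⟨e, he, rfl⟩ := Finset.mem_image.mp hy
  simp only [mem_filter] at he
  simp [he.2]

/-- edges whose first end is a neighbour of `y0` -/
theorem reg_bound_c {M D : ℕ} (H : Finset (Fin M × Fin M)) (hr : ∀ x, reg_r H x ≤ D)
    (hc : ∀ y, reg_c H y ≤ D) (y0 : Fin M) :
    (H.filter fun e => (e.1, y0) ∈ H).card ≤ D * D := by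
  classical
  have h1 := Finset.card_le_mul_card_image (f := Prod.fst) (H.filter fun e => (e.1, y0) ∈ H) D (by
    intro x _
    refine le_trans ?_ (hr x)
    unfold reg_r
    apply Finset.card_le_card_of_injOn (fun e => e.2)
    · rintro ⟨x', y'⟩ he
      simp only [coe_filter, mem_filter, Set.mem_ofPred_eq] at he
      obtain ⟨⟨h1, _⟩, rfl⟩ := he
      simpa using h1
    · rintro ⟨x', y'⟩ he ⟨x'', y''⟩ he' hee
      simp only [coe_filter, mem_filter, Set.mem_ofPred_eq] at he he'
      simp only at hee
      rw [Prod.ext_iff]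
      exact ⟨he.2.trans he'.2.symm, hee⟩)
  refine h1.trans (Nat.mul_le_mul_left D (le_trans ?_ (hc y0)))
  unfold reg_c
  apply Finset.card_le_card
  intro x hx
  obtain ⟨e, he, rfl⟩ := Finset.mem_image.mp hx
  simp only [mem_filter] at he
  simp [he.2]

/-- the exchanged relation has the right degrees -/
theorem reg_exch {M D : ℕ} (H : Finset (Fin M × Fin M)) (hr : ∀ x, reg_r H x ≤ D)
    (hc : ∀ y, reg_c H y ≤ D) {x0 y0 x1 y1 : Fin M} (hx0 : reg_r H x0 < D)
    (hy0 : reg_c H y0 < D) (h11 : (x1, y1) ∈ H) (h01 : (x0, y1) ∉ H) (h10 : (x1, y0) ∉ H) :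
    (∀ x, reg_r (insert (x0, y1) (insert (x1, y0) (H.erase (x1, y1)))) x ≤ D) ∧
    (∀ y, reg_c (insert (x0, y1) (insert (x1, y0) (H.erase (x1, y1)))) y ≤ D) ∧
    H.card < (insert (x0, y1) (insert (x1, y0) (H.erase (x1, y1)))).card := by
  classical
  have hx : x1 ≠ x0 := by rintro rfl; exact h01 h11
  have hy : y1 ≠ y0 := by rintro rfl; exact h10 h11
  refine ⟨fun x => ?_, fun y => ?_, ?_⟩
  · by_cases h0 : x = x0
    · subst h0
      have h1 : (univ.filter fun y => (x, y) ∈ insert (x, y1) (insert (x1, y0)
          (H.erase (x1, y1)))) ⊆ insert y1 (univ.filter fun y => (x, y) ∈ H) := by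
        intro y hy'
        simp only [mem_filter, mem_univ, true_and, mem_insert, mem_erase, Prod.mk.injEq] at hy' ⊢
        rcases hy' with h | h | h
        · exact Or.inl h
        · exact absurd h.1.symm hx
        · exact Or.inr h.2
      have h2 := (Finset.card_le_card h1).trans (Finset.card_insert_le _ _)
      unfold reg_r at hx0 ⊢
      omega
    · by_cases h0' : x = x1
      · subst h0'
        have h1 : (univ.filter fun y => (x, y) ∈ insert (x0, y1) (insert (x, y0)
            (H.erase (x, y1)))) ⊆ insert y0 ((univ.filter fun y => (x, y) ∈ H).erase y1) := by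
          intro y hy'
          simp only [mem_filter, mem_univ, true_and, mem_insert, mem_erase, Prod.mk.injEq] at hy' ⊢
          rcases hy' with h | h | h
          · exact absurd h.1 h0
          · exact Or.inl h
          · refine Or.inr ⟨?_, h.2⟩
            intro hyy
            exact h.1 (by rw [hyy])
        have h2 := (Finset.card_le_card h1).trans (Finset.card_insert_le _ _)
        have h3 : y1 ∈ univ.filter fun y => (x, y) ∈ H := by simp [h11]
        rw [Finset.card_erase_of_mem h3] at h2
        have h4 : 0 < (univ.filter fun y => (x, y) ∈ H).card := Finset.card_pos.mpr ⟨_, h3⟩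
        have h5 := hr x
        unfold reg_r at h5 ⊢
        omega
      · refine le_trans ?_ (hr x)
        unfold reg_r
        apply Finset.card_le_card
        intro y hy'
        simp only [mem_filter, mem_univ, true_and, mem_insert, mem_erase, Prod.mk.injEq] at hy' ⊢
        rcases hy' with h | h | h
        · exact absurd h.1 h0
        · exact absurd h.1 h0'
        · exact h.2
  · by_cases h0 : y = y0
    · subst h0
      have h1 : (univ.filter fun x => (x, y) ∈ insert (x0, y1) (insert (x1, y)
          (H.erase (x1, y1)))) ⊆ insert x1 (univ.filter fun x => (x, y) ∈ H) := by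
        intro x hx'
        simp only [mem_filter, mem_univ, true_and, mem_insert, mem_erase, Prod.mk.injEq] at hx' ⊢
        rcases hx' with h | h | h
        · exact absurd h.2.symm hy
        · exact Or.inl h.1
        · exact Or.inr h.2
      have h2 := (Finset.card_le_card h1).trans (Finset.card_insert_le _ _)
      unfold reg_c at hy0 ⊢
      omega
    · by_cases h0' : y = y1
      · subst h0'
        have h1 : (univ.filter fun x => (x, y) ∈ insert (x0, y) (insert (x1, y0)
            (H.erase (x1, y)))) ⊆ insert x0 ((univ.filter fun x => (x, y) ∈ H).erase x1) := by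
          intro x hx'
          simp only [mem_filter, mem_univ, true_and, mem_insert, mem_erase, Prod.mk.injEq] at hx' ⊢
          rcases hx' with h | h | h
          · exact Or.inl h.1
          · exact absurd h.2 h0
          · refine Or.inr ⟨?_, h.2⟩
            intro hxx
            exact h.1 (by rw [hxx])
        have h2 := (Finset.card_le_card h1).trans (Finset.card_insert_le _ _)
        have h3 : x1 ∈ univ.filter fun x => (x, y) ∈ H := by simp [h11]
        rw [Finset.card_erase_of_mem h3] at h2
        have h4 : 0 < (univ.filter fun x => (x, y) ∈ H).card := Finset.card_pos.mpr ⟨_, h3⟩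
        have h5 := hc y
        unfold reg_c at h5 ⊢
        omega
      · refine le_trans ?_ (hc y)
        unfold reg_c
        apply Finset.card_le_card
        intro x hx'
        simp only [mem_filter, mem_univ, true_and, mem_insert, mem_erase, Prod.mk.injEq] at hx' ⊢
        rcases hx' with h | h | h
        · exact absurd h.2 h0'
        · exact absurd h.2 h0
        · exact h.2
  · have h1 : (x1, y0) ∉ H.erase (x1, y1) := fun h => h10 (Finset.mem_of_mem_erase h)
    have h2 : (x0, y1) ∉ insert (x1, y0) (H.erase (x1, y1)) := by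
      intro h
      rcases Finset.mem_insert.mp h with h | h
      · exact hx (Prod.ext_iff.mp h).1.symm
      · exact h01 (Finset.mem_of_mem_erase h)
    rw [Finset.card_insert_of_notMem h2, Finset.card_insert_of_notMem h1,
      Finset.card_erase_of_mem h11]
    have h3 : 0 < H.card := Finset.card_pos.mpr ⟨_, h11⟩
    omega

/-- inserting a deficient pair -/
theorem reg_ins {M D : ℕ} (H : Finset (Fin M × Fin M)) (hr : ∀ x, reg_r H x ≤ D)
    (hc : ∀ y, reg_c H y ≤ D) {x0 y0 : Fin M} (hx0 : reg_r H x0 < D)
    (hy0 : reg_c H y0 < D) :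
    (∀ x, reg_r (insert (x0, y0) H) x ≤ D) ∧ (∀ y, reg_c (insert (x0, y0) H) y ≤ D) := by
  classical
  refine ⟨fun x => ?_, fun y => ?_⟩
  · by_cases h0 : x = x0
    · subst h0
      have h1 : (univ.filter fun y => (x, y) ∈ insert (x, y0) H) ⊆
          insert y0 (univ.filter fun y => (x, y) ∈ H) := by
        intro y hy'
        simp only [mem_filter, mem_univ, true_and, mem_insert, Prod.mk.injEq] at hy' ⊢
        exact hy'
      have h2 := (Finset.card_le_card h1).trans (Finset.card_insert_le _ _)
      unfold reg_r at hx0 ⊢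
      omega
    · refine le_trans ?_ (hr x)
      unfold reg_r
      apply Finset.card_le_card
      intro y hy'
      simp only [mem_filter, mem_univ, true_and, mem_insert, Prod.mk.injEq] at hy' ⊢
      rcases hy' with h | h
      · exact absurd h.1 h0
      · exact h
  · by_cases h0 : y = y0
    · subst h0
      have h1 : (univ.filter fun x => (x, y) ∈ insert (x0, y) H) ⊆
          insert x0 (univ.filter fun x => (x, y) ∈ H) := by
        intro x hx'
        simp only [mem_filter, mem_univ, true_and, mem_insert, Prod.mk.injEq, and_true] at hx' ⊢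
        exact hx'
      have h2 := (Finset.card_le_card h1).trans (Finset.card_insert_le _ _)
      unfold reg_c at hy0 ⊢
      omega
    · refine le_trans ?_ (hc y)
      unfold reg_c
      apply Finset.card_le_card
      intro x hx'
      simp only [mem_filter, mem_univ, true_and, mem_insert, Prod.mk.injEq] at hx' ⊢
      rcases hx' with h | h
      · exact absurd h.2 h0
      · exact h

/-- a deficient pair contradicts maximality -/
theorem reg_key {M d : ℕ} (hd : 16 * d ≤ M) (h : Fin M → Fin M → Prop)
    [∀ x y, Decidable (h x y)] (h1 : ∀ x, (univ.filter fun y => h x y).card ≤ d)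
    (H : Finset (Fin M × Fin M)) (hH : ∀ x y, h x y → (x, y) ∈ H)
    (hr : ∀ x, reg_r H x ≤ 4 * d) (hc : ∀ y, reg_c H y ≤ 4 * d)
    (hmax : ∀ H' : Finset (Fin M × Fin M), (∀ x y, h x y → (x, y) ∈ H') →
      (∀ x, reg_r H' x ≤ 4 * d) → (∀ y, reg_c H' y ≤ 4 * d) → H'.card ≤ H.card)
    {x0 y0 : Fin M} (hx0 : reg_r H x0 < 4 * d) (hy0 : reg_c H y0 < 4 * d) : False := by
  classical
  have hd0 : 0 < d := by omega
  -- deficient pairs are in `H`
  have hdef : ∀ x, reg_r H x < 4 * d → (x, y0) ∈ H := by
    intro x hx
    by_contra hn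
    obtain ⟨a1, a2⟩ := reg_ins H hr hc hx hy0
    have a3 := hmax _ (fun x y hxy => Finset.mem_insert_of_mem (hH x y hxy)) a1 a2
    rw [Finset.card_insert_of_notMem hn] at a3
    omega
  -- the exchange
  have hex : ∀ e ∈ H.filter (fun e => ¬ h e.1 e.2), (x0, e.2) ∈ H ∨ (e.1, y0) ∈ H := by
    rintro ⟨x1, y1⟩ he
    obtain ⟨he1, he2⟩ := Finset.mem_filter.mp he
    by_contra hn
    push Not at hn
    obtain ⟨a1, a2, a3⟩ := reg_exch H hr hc hx0 hy0 he1 hn.1 hn.2
    have a4 := hmax _ (fun x y hxy => Finset.mem_insert_of_mem (Finset.mem_insert_of_mem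
      (Finset.mem_erase.mpr ⟨by rintro hxy'; simp only [Prod.mk.injEq] at hxy';
                                 obtain ⟨rfl, rfl⟩ := hxy'; exact he2 hxy, hH x y hxy⟩))) a1 a2
    omega
  have hup : (H.filter (fun e => ¬ h e.1 e.2)).card ≤ 32 * (d * d) := by
    have b1 : H.filter (fun e => ¬ h e.1 e.2) ⊆
        (H.filter fun e => (x0, e.2) ∈ H) ∪ (H.filter fun e => (e.1, y0) ∈ H) := by
      intro e he
      rcases hex e he with h' | h'
      · exact Finset.mem_union_left _ (Finset.mem_filter.mpr ⟨(Finset.mem_filter.mp he).1, h'⟩)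
      · exact Finset.mem_union_right _ (Finset.mem_filter.mpr ⟨(Finset.mem_filter.mp he).1, h'⟩)
    have b2 := (Finset.card_le_card b1).trans (Finset.card_union_le _ _)
    have b3 := reg_bound_r H hr hc x0
    have b4 := reg_bound_c H hr hc y0
    have b5 : 4 * d * (4 * d) = 16 * (d * d) := by ring
    omega
  -- the lower bound
  set ND : Finset (Fin M) := univ.filter fun x => ¬ reg_r H x < 4 * d with hND
  have hNDc : M - 4 * d ≤ ND.card := by
    have c1 : (univ.filter fun x => reg_r H x < 4 * d).card ≤ 4 * d := by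
      refine le_trans (Finset.card_le_card ?_) (hc y0)
      intro x hx
      simp only [mem_filter, mem_univ, true_and] at hx ⊢
      exact hdef x hx
    have c2 := Finset.card_filter_add_card_filter_not (s := (univ : Finset (Fin M)))
      (fun x => reg_r H x < 4 * d)
    rw [Finset.card_univ, Fintype.card_fin] at c2
    rw [hND]
    omega
  have hlow : 3 * d * ND.card ≤ (H.filter (fun e => ¬ h e.1 e.2)).card := by
    have d1 := Finset.mul_card_image_le_card_of_maps_to (f := Prod.fst)
      (s := (H.filter (fun e => ¬ h e.1 e.2)).filter fun e => e.1 ∈ ND) (t := ND)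
      (fun e he => (Finset.mem_filter.mp he).2) (3 * d) (by
        intro x hx
        have e1 : 4 * d ≤ (univ.filter fun y => (x, y) ∈ H).card := by
          have := (Finset.mem_filter.mp hx).2
          unfold reg_r at this
          omega
        have e2 := h1 x
        have e3 : (univ.filter fun y => (x, y) ∈ H).card ≤ (univ.filter fun y => h x y).card +
            (univ.filter fun y => (x, y) ∈ H ∧ ¬ h x y).card := by
          refine le_trans (Finset.card_le_card ?_) (Finset.card_union_le _ _)
          intro y hy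
          simp only [mem_filter, mem_univ, true_and, mem_union] at hy ⊢
          by_cases hh : h x y
          · exact Or.inl hh
          · exact Or.inr ⟨hy, hh⟩
        have e4 : (univ.filter fun y => (x, y) ∈ H ∧ ¬ h x y).card ≤
            (((H.filter (fun e => ¬ h e.1 e.2)).filter fun e => e.1 ∈ ND).filter
              fun e => e.1 = x).card := by
          apply Finset.card_le_card_of_injOn (fun y => (x, y))
          · intro y hy
            simp only [coe_filter, mem_univ, true_and, Set.mem_ofPred_eq] at hy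
            simp only [coe_filter, mem_filter, Set.mem_ofPred_eq]
            exact ⟨⟨hy, hx⟩, trivial⟩
          · intro y _ y' _ hyy
            exact (Prod.ext_iff.mp hyy).2
        omega)
    exact d1.trans (Finset.card_le_card (Finset.filter_subset _ _))
  have hM : 3 * d * (12 * d) ≤ 3 * d * ND.card := Nat.mul_le_mul_left _ (by omega)
  have h36 : 3 * d * (12 * d) = 36 * (d * d) := by ring
  have hdd : 0 < d * d := Nat.mul_pos hd0 hd0
  have hfin := hM.trans (hlow.trans hup)
  rw [h36] at hfin
  omega

theorem regularize (M d : ℕ) (hd : 16 * d ≤ M) (h : Fin M → Fin M → Prop)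
    [∀ x y, Decidable (h x y)] (h1 : ∀ x, (univ.filter fun y => h x y).card ≤ d)
    (h2 : ∀ y, (univ.filter fun x => h x y).card ≤ d) :
    ∃ a : Fin M → Fin M → ℝ, (∀ x y, a x y = 0 ∨ a x y = 1) ∧ (∀ x y, h x y → a x y = 0) ∧
      (∀ x, ∑ y, a x y = M - 4 * d) ∧ ∀ y, ∑ x, a x y = M - 4 * d := by
  classical
  -- a maximal relation
  obtain ⟨H, hHmem, hHmax⟩ := Finset.exists_max_image
    (univ.filter fun H : Finset (Fin M × Fin M) => (∀ x y, h x y → (x, y) ∈ H) ∧
      (∀ x, reg_r H x ≤ 4 * d) ∧ ∀ y, reg_c H y ≤ 4 * d) (fun H => H.card)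
    ⟨univ.filter fun e => h e.1 e.2, by
      simp only [mem_filter, mem_univ, true_and]
      refine ⟨fun x y hxy => hxy, fun x => ?_, fun y => ?_⟩
      · have := h1 x
        unfold reg_r
        simp only [mem_filter, mem_univ, true_and]
        omega
      · have := h2 y
        unfold reg_c
        simp only [mem_filter, mem_univ, true_and]
        omega⟩
  obtain ⟨hH, hr, hc⟩ := (Finset.mem_filter.mp hHmem).2
  have hmax : ∀ H' : Finset (Fin M × Fin M), (∀ x y, h x y → (x, y) ∈ H') →
      (∀ x, reg_r H' x ≤ 4 * d) → (∀ y, reg_c H' y ≤ 4 * d) → H'.card ≤ H.card :=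
    fun H' a1 a2 a3 => hHmax H' (Finset.mem_filter.mpr ⟨Finset.mem_univ _, a1, a2, a3⟩)
  have hkey : ∀ x0 y0, reg_r H x0 < 4 * d → reg_c H y0 < 4 * d → False :=
    fun x0 y0 b1 b2 => reg_key hd h h1 H hH hr hc hmax b1 b2
  have hsum : ∑ x, reg_r H x = ∑ y, reg_c H y := (reg_sum_r H).trans (reg_sum_c H).symm
  have hconst : ∑ _x : Fin M, 4 * d = M * (4 * d) := by simp
  have hR : ∀ x, reg_r H x = 4 * d := by
    intro x0
    by_contra hne
    have hlt : reg_r H x0 < 4 * d := lt_of_le_of_ne (hr x0) hne
    have hall : ∀ y, reg_c H y = 4 * d := by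
      intro y
      by_contra hney
      exact hkey x0 y hlt (lt_of_le_of_ne (hc y) hney)
    have h3 : ∑ x, reg_r H x < ∑ _x : Fin M, 4 * d :=
      Finset.sum_lt_sum (fun x _ => hr x) ⟨x0, Finset.mem_univ _, hlt⟩
    rw [hsum, Finset.sum_congr rfl (fun y _ => hall y)] at h3
    exact lt_irrefl _ h3
  have hC : ∀ y, reg_c H y = 4 * d := by
    intro y0
    by_contra hne
    have hlt : reg_c H y0 < 4 * d := lt_of_le_of_ne (hc y0) hne
    have h3 : ∑ y, reg_c H y < ∑ _y : Fin M, 4 * d :=
      Finset.sum_lt_sum (fun x _ => hc x) ⟨y0, Finset.mem_univ _, hlt⟩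
    rw [← hsum, Finset.sum_congr rfl (fun y _ => hR y)] at h3
    exact lt_irrefl _ h3
  refine ⟨fun x y => if (x, y) ∈ H then 0 else 1, fun x y => ?_, fun x y hxy => ?_, fun x => ?_,
    fun y => ?_⟩
  · by_cases hxy : (x, y) ∈ H
    · exact Or.inl (if_pos hxy)
    · exact Or.inr (if_neg hxy)
  · exact if_pos (hH x y hxy)
  · have h4 := hR x
    have h5 : ∑ y, (if (x, y) ∈ H then (0 : ℝ) else 1) =
        ∑ y, ((1 : ℝ) - if (x, y) ∈ H then 1 else 0) := by
      apply Finset.sum_congr rfl
      intro y _
      by_cases hxy : (x, y) ∈ H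
      · rw [if_pos hxy, if_pos hxy]; ring
      · rw [if_neg hxy, if_neg hxy]; ring
    simp only
    rw [h5, Finset.sum_sub_distrib, Finset.sum_boole]
    have h6 : ((univ.filter fun y => (x, y) ∈ H).card : ℝ) = 4 * d := by
      unfold reg_r at h4
      exact_mod_cast h4
    rw [h6]
    simp
  · have h4 := hC y
    have h5 : ∑ x, (if (x, y) ∈ H then (0 : ℝ) else 1) =
        ∑ x, ((1 : ℝ) - if (x, y) ∈ H then 1 else 0) := by
      apply Finset.sum_congr rfl
      intro x _
      by_cases hxy : (x, y) ∈ H
      · rw [if_pos hxy, if_pos hxy]; ring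
      · rw [if_neg hxy, if_neg hxy]; ring
    simp only
    rw [h5, Finset.sum_sub_distrib, Finset.sum_boole]
    have h6 : ((univ.filter fun x => (x, y) ∈ H).card : ℝ) = 4 * d := by
      unfold reg_c at h4
      exact_mod_cast h4
    rw [h6]
    simp

end Pool.Agent.QA
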